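import Pool.Agent.TH145.GH.Lim

/-!
Sequences of elements of a finitely generated field whose heights in all variables are bounded:
the ultrapower.
-/

set_option autoImplicit false

open FF Pool.Agent.W603.LV Pool.Agent.W602.RG MvPolynomial

namespace Pool.Agent.TH145.GH

variable {k0 K ι : Type} [Field k0] [Field K] [Algebra k0 K] [CharZero K] [IsAlgClosed K]
  {y : ι → K} (E : IntermediateField (IntermediateField.adjoin k0 (Set.range y)) K)

/-- Elements of the field of rational functions, as quotients of coprime polynomials. -/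
theorem rat_repr (hy : AlgebraicIndependent k0 y)
    [FiniteDimensional (IntermediateField.adjoin k0 (Set.range y)) E] (x : K)
    (hx : x ∈ IntermediateField.adjoin k0 (Set.range y)) (hxE : x ∈ E) :
    ∃ p q : MvPolynomial ι k0, IsRelPrime p q ∧ q ≠ 0 ∧ aeval y q ≠ 0 ∧
      x = aeval y p / aeval y q ∧
      ∀ i, (p.degreeOf i : ℤ) ≤ hgt (kap k0 y i)
          (⟨x, subset_LL y _ i hxE⟩ : LL k0 y (E : Set K) i) ∧
        (q.degreeOf i : ℤ) ≤ hgt (kap k0 y i)
          (⟨x, subset_LL y _ i hxE⟩ : LL k0 y (E : Set K) i) := by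
  classical
  have hinj : Function.Injective (aeval y : MvPolynomial ι k0 →ₐ[k0] K) := hy
  by_cases hx0 : x = 0
  · refine ⟨0, 1, fun d _ h => isUnit_of_dvd_one h, one_ne_zero, by simp, by rw [hx0]; simp,
      fun i => ⟨?_, ?_⟩⟩
    · rw [degreeOf_zero]
      exact hgt_nonneg _
    · rw [degreeOf_one]
      exact hgt_nonneg _
  · rw [IntermediateField.mem_adjoin_range_iff] at hx
    obtain ⟨r, s, hrs⟩ := hx
    have hr0 : r ≠ 0 := by
      rintro rfl
      rw [map_zero, zero_div] at hrs
      exact hx0 hrs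
    have hs0 : s ≠ 0 := by
      rintro rfl
      rw [map_zero, div_zero] at hrs
      exact hx0 hrs
    obtain ⟨p, q, c, hpq, hcp, hcq⟩ := UniqueFactorizationMonoid.exists_reduced_factors r hr0 s
    have hp0 : p ≠ 0 := by
      rintro rfl
      rw [mul_zero] at hcp
      exact hr0 hcp.symm
    have hq0 : q ≠ 0 := by
      rintro rfl
      rw [mul_zero] at hcq
      exact hs0 hcq.symm
    have hc0 : c ≠ 0 := by
      rintro rfl
      rw [zero_mul] at hcp
      exact hr0 hcp.symm
    have hc0' : aeval y c ≠ 0 := (map_ne_zero_iff _ hinj).2 hc0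
    have hxpq : x = aeval y p / aeval y q := by
      rw [hrs, ← hcp, ← hcq, map_mul, map_mul, mul_div_mul_left _ _ hc0']
    refine ⟨p, q, hpq, hq0, (map_ne_zero_iff _ hinj).2 hq0, hxpq, fun i => ?_⟩
    exact deg_le_hgt hy (acl_isAlgClosed _) (LL_ff E hy i) (kap_base y i)
      (fun j hj => kap_oth y hj) (kap_own hy i) (subset_LL y _ i (y_mem E i)) hpq hp0 hq0 _ hxpq

/-- The field generated by the ultrapower of the constants and `E`. -/
noncomputable def OE (k0 : Type) {K : Type} [Field k0] [Field K] [Algebra k0 K] (E : Set K) :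
    Subfield (Om K) := Subfield.closure (Set.range (mapOm k0 K) ∪ cst K '' E)

omit [CharZero K] [IsAlgClosed K] in
theorem cst_mem_OE {E : Set K} {x : K} (hx : x ∈ E) : cst K x ∈ OE k0 E :=
  Subfield.subset_closure (Or.inr ⟨x, hx, rfl⟩)

theorem rat_mem [Finite ι] {p q : ℕ → MvPolynomial ι k0} {B : ℕ}
    (hp : ∀ m i, (p m).degreeOf i ≤ B) (hq : ∀ m i, (q m).degreeOf i ≤ B) :
    Om.mk (fun m => aeval y (p m) / aeval y (q m)) ∈ OE k0 (E : Set K) := by
  have h1 : Subring.closure (Set.range (mapOm k0 K) ∪ cst K '' Set.range y) ≤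
      (OE k0 (E : Set K)).toSubring := by
    rw [Subring.closure_le]
    rintro w (hw | ⟨_, ⟨j, rfl⟩, rfl⟩)
    · exact Subfield.subset_closure (Or.inl hw)
    · exact cst_mem_OE (y_mem E j)
  rw [← Om.mk_div]
  exact div_mem (h1 (poly_mem y B p hp)) (h1 (poly_mem y B q hq))

/-- The height of the coordinates with respect to a basis. -/
theorem exists_coord (hy : IsTranscendenceBasis k0 y) [Finite ι]
    [FiniteDimensional (IntermediateField.adjoin k0 (Set.range y)) E]
    [IsGalois (IntermediateField.adjoin k0 (Set.range y)) E]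
    {J : Type} [Fintype J] [DecidableEq J]
    (b : Module.Basis J (IntermediateField.adjoin k0 (Set.range y)) E) (f : ℕ → E)
    (B : ι → ℤ) (hB : ∀ m i, hgt (kap k0 y i)
      (⟨(f m : K), subset_LL y _ i (f m).2⟩ : LL k0 y (E : Set K) i) ≤ B i) :
    ∃ (N : ℕ) (p q : J → ℕ → MvPolynomial ι k0), (∀ j m, IsRelPrime (p j m) (q j m)) ∧
      (∀ j m, q j m ≠ 0) ∧ (∀ j m, aeval y (q j m) ≠ 0) ∧
      (∀ j m i, (p j m).degreeOf i ≤ N) ∧ (∀ j m i, (q j m).degreeOf i ≤ N) ∧
      (∀ j m, aeval y (p j m) / aeval y (q j m) =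
        ((Algebra.trace (IntermediateField.adjoin k0 (Set.range y)) E (f m * b j) :
          IntermediateField.adjoin k0 (Set.range y)) : K)) ∧
      ∀ m, (f m : K) = ∑ j, aeval y (p j m) / aeval y (q j m) * ((b.traceDual j : E) : K) := by
  classical
  have := Fintype.ofFinite ι
  have hFF : ∀ i, IsFF (kap k0 y i) (LL k0 y (E : Set K) i) := fun i => LL_ff E hy.1 i
  have hac : ∀ i, IsAlgClosed (kap k0 y i) := fun i => acl_isAlgClosed _
  have hcz : ∀ i, CharZero (kap k0 y i) := fun i => charZero_of_injective_algebraMap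
    (algebraMap ℚ (kap k0 y i)).injective
  obtain ⟨c, hc⟩ : ∃ c : J → ℕ → IntermediateField.adjoin k0 (Set.range y),
    ∀ j m, c j m = Algebra.trace (IntermediateField.adjoin k0 (Set.range y)) E (f m * b j) :=
    ⟨_, fun _ _ => rfl⟩
  have hcE : ∀ j m, (c j m : K) ∈ E := fun j m => E.algebraMap_mem (c j m)
  have hsum : ∀ j m, (c j m : K) = ∑ σ : E ≃ₐ[IntermediateField.adjoin k0 (Set.range y)] E,
      ((σ (f m * b j) : E) : K) := by
    intro j m
    have h1 := trace_eq_sum_automorphisms
      (K := IntermediateField.adjoin k0 (Set.range y)) (f m * b j)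
    rw [← hc] at h1
    have h2 := congrArg (algebraMap E K) h1
    rw [map_sum] at h2
    exact h2
  -- the bound
  have hh : ∀ j m i, hgt (kap k0 y i) (⟨(c j m : K), subset_LL y _ i (hcE j m)⟩ :
      LL k0 y (E : Set K) i) ≤
      (Fintype.card (E ≃ₐ[IntermediateField.adjoin k0 (Set.range y)] E) : ℤ) *
        (B i + hgt (kap k0 y i) (⟨((b j : E) : K), subset_LL y _ i (b j).2⟩ :
          LL k0 y (E : Set K) i)) := by
    intro j m i
    have := hFF i
    have := hac i
    have := hcz i
    have h1 : (⟨(c j m : K), subset_LL y _ i (hcE j m)⟩ : LL k0 y (E : Set K) i) =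
        ∑ σ : E ≃ₐ[IntermediateField.adjoin k0 (Set.range y)] E,
          (⟨((σ (f m * b j) : E) : K), subset_LL y _ i (σ (f m * b j)).2⟩ :
            LL k0 y (E : Set K) i) := by
      apply Subtype.ext
      change (c j m : K) = _
      rw [hsum, ← IntermediateField.algebraMap_apply, map_sum]
      rfl
    rw [h1]
    refine (hgt_sum_le _ _).trans ?_
    rw [Finset.sum_congr rfl fun σ _ => hgt_conj E hy σ i (f m * b j), Finset.sum_const,
      Finset.card_univ, nsmul_eq_mul]
    refine mul_le_mul_of_nonneg_left ?_ (by positivity)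
    have h2 : (⟨((f m * b j : E) : K), subset_LL y _ i (f m * b j).2⟩ : LL k0 y (E : Set K) i) =
        ⟨(f m : K), subset_LL y _ i (f m).2⟩ * ⟨((b j : E) : K), subset_LL y _ i (b j).2⟩ := rfl
    rw [h2]
    exact (Pool.Agent.TH145.MW.hgt_mul_le (k := kap k0 y i) _ _).trans
      (add_le_add (hB m i) le_rfl)
  choose p q hpq hq0 hqy hxpq hdeg using fun j m =>
    rat_repr E hy.1 (c j m : K) (c j m).2 (hcE j m)
  obtain ⟨N, hN⟩ : ∃ N : ℕ, ∀ j i,
      (Fintype.card (E ≃ₐ[IntermediateField.adjoin k0 (Set.range y)] E) : ℤ) *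
        (B i + hgt (kap k0 y i) (⟨((b j : E) : K), subset_LL y _ i (b j).2⟩ :
          LL k0 y (E : Set K) i)) ≤ N := by
    refine ⟨∑ j, ∑ i, ((Fintype.card (E ≃ₐ[IntermediateField.adjoin k0 (Set.range y)] E) : ℤ) *
        (B i + hgt (kap k0 y i) (⟨((b j : E) : K), subset_LL y _ i (b j).2⟩ :
          LL k0 y (E : Set K) i))).toNat, fun j i => ?_⟩
    refine (Int.self_le_toNat _).trans ?_
    exact_mod_cast (Finset.single_le_sum (f := fun i =>
      ((Fintype.card (E ≃ₐ[IntermediateField.adjoin k0 (Set.range y)] E) : ℤ) *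
        (B i + hgt (kap k0 y i) (⟨((b j : E) : K), subset_LL y _ i (b j).2⟩ :
          LL k0 y (E : Set K) i))).toNat) (fun _ _ => Nat.zero_le _) (Finset.mem_univ i)).trans
      (Finset.single_le_sum (f := fun j => ∑ i,
      ((Fintype.card (E ≃ₐ[IntermediateField.adjoin k0 (Set.range y)] E) : ℤ) *
        (B i + hgt (kap k0 y i) (⟨((b j : E) : K), subset_LL y _ i (b j).2⟩ :
          LL k0 y (E : Set K) i))).toNat) (fun _ _ => Nat.zero_le _) (Finset.mem_univ j))
  refine ⟨N, p, q, hpq, hq0, hqy, fun j m i => ?_, fun j m i => ?_, fun j m => ?_, fun m => ?_⟩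
  · exact_mod_cast ((hdeg j m i).1.trans (hh j m i)).trans (hN j i)
  · exact_mod_cast ((hdeg j m i).2.trans (hh j m i)).trans (hN j i)
  · rw [← hxpq, hc]
  · have h1 := b.traceDual.sum_repr (f m)
    have h2 := congrArg (algebraMap E K) h1
    rw [map_sum] at h2
    refine h2.symm.trans (Finset.sum_congr rfl fun j _ => ?_)
    rw [Module.Basis.traceDual_repr_apply, Algebra.traceForm_apply, Algebra.smul_def, map_mul,
      ← hxpq, hc]
    rfl

/-- Sequences of bounded height in all the variables. -/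
theorem lim_mem (hy : IsTranscendenceBasis k0 y) [Finite ι]
    [FiniteDimensional (IntermediateField.adjoin k0 (Set.range y)) E]
    [IsGalois (IntermediateField.adjoin k0 (Set.range y)) E] (f : ℕ → E)
    (B : ι → ℤ) (hB : ∀ m i, hgt (kap k0 y i)
      (⟨(f m : K), subset_LL y _ i (f m).2⟩ : LL k0 y (E : Set K) i) ≤ B i) :
    Om.mk (fun m => (f m : K)) ∈ OE k0 (E : Set K) := by
  classical
  let b := Module.finBasis (IntermediateField.adjoin k0 (Set.range y)) E
  obtain ⟨N, p, q, -, -, -, hp, hq, -, hf⟩ := exists_coord E hy b f B hB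
  have h1 : (fun m => (f m : K)) =
      fun m => ∑ j, aeval y (p j m) / aeval y (q j m) * ((b.traceDual j : E) : K) := funext hf
  rw [h1, Pool.Agent.W61.RG.GSP.mk_sum Finset.univ
    (fun j m => aeval y (p j m) / aeval y (q j m) * ((b.traceDual j : E) : K))]
  refine sum_mem fun j _ => ?_
  rw [← Om.mk_mul]
  exact mul_mem (rat_mem E (hp j) (hq j)) (cst_mem_OE (b.traceDual j).2)

end Pool.Agent.TH145.GH
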