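import Pool.Agent.TH145.GH.IneqB
import Pool.Agent.TH145.GH.Lim2

/-!
The data of the height inequality in the function fields of the variables.
-/

set_option autoImplicit false

open MvPolynomial FF Pool.Agent.W603.LV Pool.Agent.W603.PV

namespace Pool.Agent.TH145.GH

/-- A form with coefficients in `E`, derivations of `E` dual to its coefficients, and the equations
that show that it is smooth. -/
structure Gen {E : Type} [Field E] {n : ℕ} (F : MvPolynomial (Fin (n + 1)) E) (d : ℕ)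
    (D : (Fin (n + 1) →₀ ℕ) → E → E) (N : ℕ)
    (Q : Fin (n + 1) → Fin (n + 1) → MvPolynomial (Fin (n + 1)) E) : Prop where
  pos : 0 < d
  hom : F.IsHomogeneous d
  dual : ∀ I J : Fin (n + 1) →₀ ℕ, I.degree = d → J.degree = d →
    (I = J → D I (F.coeff J) = 1) ∧ (I ≠ J → D I (F.coeff J) = 0)
  null : ∀ l, X l ^ N = ∑ i, Q l i * pderiv i F

/-- Poles of finitely many elements. -/
theorem exists_poles {κ L : Type} [Field κ] [Field L] [Algebra κ L] [CharZero κ] [IsFF κ L]
    (Z : Finset L) : ∃ g : Place κ L → ℤ, (∀ P, 0 ≤ g P) ∧ {P | g P ≠ 0}.Finite ∧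
      ∀ P, ∀ z ∈ Z, Ge P (-g P) z := by
  classical
  obtain ⟨T, hT⟩ := exists_supp (k := κ) Z (fun z => z)
  refine ⟨fun P => ∑ z ∈ Z, max (-P.ord z) 0, fun P => Finset.sum_nonneg fun _ _ =>
    le_max_right _ _, ?_, fun P z hz => ?_⟩
  · refine (T.finite_toSet).subset fun P hP => ?_
    by_contra hcon
    apply hP
    refine Finset.sum_eq_zero fun z hz => ?_
    have : P.ord z = 0 := by
      by_contra h
      exact hcon (hT z hz P h)
    rw [this]; rfl
  · right
    have h1 := Finset.single_le_sum (f := fun z => max (-P.ord z) 0)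
      (fun _ _ => le_max_right _ _) hz
    have h2 := le_max_left (-P.ord z) 0
    dsimp only at h1 ⊢
    omega

/-- The height data over a function field that contains `E`. -/
theorem Gen.data {E : Type} [Field E] {n : ℕ} {F : MvPolynomial (Fin (n + 1)) E} {d : ℕ}
    {D : (Fin (n + 1) →₀ ℕ) → E → E} {N : ℕ}
    {Q : Fin (n + 1) → Fin (n + 1) → MvPolynomial (Fin (n + 1)) E} (h : Gen F d D N Q)
    {κ L : Type} [Field κ] [Field L] [Algebra κ L] (φ : E →+* L)
    (D' : (Fin (n + 1) →₀ ℕ) → Derivation ℤ L L) (hD' : ∀ I x, D' I (φ x) = φ (D I x))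
    {e g : Place κ L → ℤ} (he0 : ∀ P, 0 ≤ e P) (hg0 : ∀ P, 0 ≤ g P)
    (loss : ∀ P f, Ge P 0 f → ∀ I : Fin (n + 1) →₀ ℕ, I.degree = d → Ge P (-e P) (D' I f))
    (fin : {P | e P ≠ 0 ∨ g P ≠ 0}.Finite)
    (hF : ∀ P u, Ge P (-g P) (φ (F.coeff u))) (hQ : ∀ P l i u, Ge P (-g P) (φ ((Q l i).coeff u))) :
    Data κ (map φ F) d D' e g := by
  refine Data.of_null h.pos (h.hom.map φ) (fun I J hI hJ => ?_) he0 hg0 loss (fun P u => ?_) fin N
    (fun l i => map φ (Q l i)) (fun l => ?_) fun P l i u => ?_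
  · rw [coeff_map, hD']
    exact ⟨fun hIJ => by rw [(h.dual I J hI hJ).1 hIJ, map_one],
      fun hIJ => by rw [(h.dual I J hI hJ).2 hIJ, map_zero]⟩
  · rw [coeff_map]; exact hF P u
  · have h1 := congrArg (map φ) (h.null l)
    rw [map_pow, map_X, map_sum] at h1
    rw [h1]
    refine Finset.sum_congr rfl fun i _ => ?_
    rw [map_mul, pderiv_map]
  · rw [coeff_map]; exact hQ P l i u

/-- The exponents of the monomials of degree `d`. -/
theorem finite_deg (n d : ℕ) : Finite {I : Fin (n + 1) →₀ ℕ // I.degree = d} := by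
  have h1 : {I : Fin (n + 1) →₀ ℕ | I.degree = d}.Finite := by
    refine (Finsupp.finite_of_degree_le d).subset fun I hI => ?_
    exact le_of_eq hI
  exact h1

theorem Gen.exists_data {E : Type} [Field E] {n : ℕ} {F : MvPolynomial (Fin (n + 1)) E} {d : ℕ}
    {D : (Fin (n + 1) →₀ ℕ) → E → E} {N : ℕ}
    {Q : Fin (n + 1) → Fin (n + 1) → MvPolynomial (Fin (n + 1)) E} (h : Gen F d D N Q)
    {κ L : Type} [Field κ] [Field L] [Algebra κ L] [IsAlgClosed κ] [CharZero κ] [IsFF κ L]
    (φ : E →+* L) (D' : (Fin (n + 1) →₀ ℕ) → Derivation ℤ L L)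
    (hD' : ∀ I x, D' I (φ x) = φ (D I x)) (hS : ∀ I, Sem κ (D' I)) :
    ∃ e g : Place κ L → ℤ, Data κ (map φ F) d D' e g := by
  classical
  have := finite_deg n d
  obtain ⟨e, he0, hef, he⟩ := exists_loss_fin (k := κ) (K := L)
    (ι := {I : Fin (n + 1) →₀ ℕ // I.degree = d}) (D := fun I => D' I.1) (fun I => hS I.1)
  obtain ⟨g, hg0, hgf, hg⟩ := exists_poles (κ := κ)
    ((F.support.image fun u => φ (F.coeff u)) ∪ Finset.univ.biUnion fun p : Fin (n + 1) × Fin (n + 1)
      => (Q p.1 p.2).support.image fun u => φ ((Q p.1 p.2).coeff u))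
  refine ⟨e, g, h.data φ D' hD' he0 hg0 (fun P f hf I hI => he P f hf ⟨I, hI⟩)
    ((hef.union hgf).subset fun P hP => hP) (fun P u => ?_) fun P l i u => ?_⟩
  · by_cases hu : u ∈ F.support
    · exact hg P _ (Finset.mem_union_left _ (Finset.mem_image_of_mem _ hu))
    · rw [notMem_support_iff.1 hu, map_zero]
      exact Ge.zero
  · by_cases hu : u ∈ (Q l i).support
    · refine hg P _ (Finset.mem_union_right _ (Finset.mem_biUnion.2 ⟨(l, i), Finset.mem_univ _, ?_⟩))
      exact Finset.mem_image.2 ⟨u, hu, rfl⟩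
    · rw [notMem_support_iff.1 hu, map_zero]
      exact Ge.zero

end Pool.Agent.TH145.GH
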