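import Pool.Agent.TH145.GH.Limit

/-!
The loss of order of a derivation, for all functions.
-/

set_option autoImplicit false

open MvPolynomial FF Pool.Agent.W603.LV Pool.Agent.W603.PV

namespace Pool.Agent.TH145.GH

variable {k K : Type} [Field k] [Field K] [Algebra k K]

/-- The order of a derivative. -/
theorem loss_all (P : Place k K) {D : Derivation ℤ K K} {e : ℤ}
    (hD : ∀ f, Ge P 0 f → Ge P (-e) (D f)) {f : K} (hf : f ≠ 0) :
    Ge P (P.ord f - (e + 1)) (D f) := by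
  obtain ⟨π, hπ, hπ1⟩ : ∃ π : K, π ≠ 0 ∧ P.ord π = 1 := P.surj
  obtain ⟨m, hm⟩ : ∃ m : ℤ, m = P.ord f := ⟨_, rfl⟩
  obtain ⟨u, hu⟩ : ∃ u, u = f * π ^ (-m) := ⟨_, rfl⟩
  have hπm : ∀ j : ℤ, P.ord (π ^ j) = j := by
    intro j
    rw [P.ord_zpow, hπ1, mul_one]
  have hu0 : Ge P 0 u := by
    right
    rw [hu, P.ord_mul hf (zpow_ne_zero _ hπ), hπm, hm]
    omega
  have hfu : f = u * π ^ m := by
    rw [hu, mul_assoc, ← zpow_add₀ hπ, neg_add_cancel, zpow_zero, mul_one]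
  have h1 := hD u hu0
  have h2 := hD π (Or.inr (by omega))
  have h3 : D (π ^ m) = m * π ^ (m - 1) * D π := by
    rw [D.leibniz_zpow π m]
    simp [mul_assoc]
  have h4 : D f = π ^ m * D u + u * (m * π ^ (m - 1) * D π) := by
    conv_lhs => rw [hfu, D.leibniz, h3]
    simp only [smul_eq_mul]
    ring
  rw [h4]
  have h5 : Ge P m (π ^ m) := Or.inr (hπm m).ge
  have h6 : Ge P (m - 1) (π ^ (m - 1)) := Or.inr (hπm (m - 1)).ge
  have h7 : Ge P 0 ((m : ℤ) : K) := by
    have := Ge.const (P := P) ((m : ℤ) : k)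
    rwa [map_intCast] at this
  refine Ge.add ((h5.mul h1).mono (by omega)) ?_
  exact (hu0.mul ((h7.mul h6).mul h2)).mono (by omega)

theorem Data.mono {n : ℕ} {F : MvPolynomial (Fin (n + 1)) K} {d : ℕ}
    {D : (Fin (n + 1) →₀ ℕ) → Derivation ℤ K K} {e g e' : Place k K → ℤ}
    (h : Data k F d D e g) (he : ∀ P, e P ≤ e' P) (hfin : {P | e' P ≠ 0}.Finite) :
    Data k F d D e' g := by
  refine ⟨h.pos, h.hom, h.dual, fun P => (h.e_nonneg P).trans (he P), h.g_nonneg,
    fun P f hf I hI => (h.loss P f hf I hI).mono (by have := he P; omega), h.coef, ?_, h.smooth⟩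
  refine (hfin.union h.fin).subset ?_
  rintro P (hP | hP)
  · exact Or.inl hP
  · exact Or.inr (Or.inr hP)

end Pool.Agent.TH145.GH
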