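import Pool.Agent.TH145.GH.Lim2

/-!
Sequences of elements of a finitely generated ring whose heights in all variables are bounded.
-/

set_option autoImplicit false

open FF Pool.Agent.W603.LV Pool.Agent.W602.RG MvPolynomial

namespace Pool.Agent.TH145.GH

/-- A divisor of a power. -/
theorem dvd_pow_deg {ι k0 : Type} [Field k0] {h : MvPolynomial ι k0} {r : ℕ} (N : ℕ) :
    ∀ q : MvPolynomial ι k0, q ≠ 0 → q.totalDegree ≤ N → q ∣ h ^ r → q ∣ h ^ N := by
  induction N with
  | zero =>
    intro q hq hqN _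
    have h1 := totalDegree_eq_zero_iff_eq_C.1 (Nat.le_zero.1 hqN)
    have h2 : q.coeff 0 ≠ 0 := by
      intro h0
      rw [h0, C_0] at h1
      exact hq h1
    rw [h1]
    exact (IsUnit.map C (isUnit_iff_ne_zero.2 h2)).dvd
  | succ N ih =>
    intro q hq hqN hr
    by_cases hu : IsUnit q
    · exact hu.dvd
    · obtain ⟨π, hπ, q', rfl⟩ := WfDvdMonoid.exists_irreducible_factor hu hq
      have hπ0 : π ≠ 0 := hπ.ne_zero
      have hq0 : q' ≠ 0 := right_ne_zero_of_mul hq
      have hπd : π.totalDegree ≠ 0 := by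
        intro h0
        have h1 := totalDegree_eq_zero_iff_eq_C.1 h0
        apply hπ.not_isUnit
        have h2 : π.coeff 0 ≠ 0 := by
          intro h0
          rw [h0, C_0] at h1
          exact hπ0 h1
        rw [h1]
        exact IsUnit.map C (isUnit_iff_ne_zero.2 h2)
      rw [totalDegree_mul_of_isDomain hπ0 hq0] at hqN
      have h1 := ih q' hq0 (by omega) ((dvd_mul_left _ _).trans hr)
      have h2 : π ∣ h := hπ.prime.dvd_of_dvd_pow ((dvd_mul_right _ _).trans hr)
      rw [pow_succ, mul_comm (h ^ N)]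
      exact mul_dvd_mul h2 h1

theorem totalDegree_le_sum {ι k0 : Type} [Field k0] [Fintype ι] (q : MvPolynomial ι k0) :
    q.totalDegree ≤ ∑ i, q.degreeOf i := by
  refine Finset.sup_le fun s hs => ?_
  rw [Finsupp.sum_fintype _ _ fun _ => rfl]
  exact Finset.sum_le_sum fun i _ => monomial_le_degreeOf i hs

variable {k0 K ι : Type} [Field k0] [Field K] [Algebra k0 K] [CharZero K] [IsAlgClosed K]
  {y : ι → K} (E : IntermediateField (IntermediateField.adjoin k0 (Set.range y)) K)

omit [CharZero K] [IsAlgClosed K] in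
/-- Elements of a finitely generated ring have bounded denominators up to powers. -/
theorem int_of_closure {A : Subalgebra k0 K} {h : A} {T : Finset K}
    (hT : ∀ t ∈ T, IsIntegral A (h • t)) {w : K}
    (hw : w ∈ Subring.closure (Set.range (algebraMap k0 K) ∪ (T : Set K))) :
    ∃ r : ℕ, IsIntegral A (h ^ r • w) := by
  have hmono : ∀ (r s : ℕ) (a : K), IsIntegral A (h ^ r • a) → IsIntegral A (h ^ (r + s) • a) := by
    intro r s a ha
    rw [pow_add, mul_comm, mul_smul]
    exact ha.smul _
  induction hw using Subring.closure_induction with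
  | mem w hw =>
    rcases hw with ⟨c, rfl⟩ | hw
    · refine ⟨0, ?_⟩
      rw [pow_zero, one_smul]
      exact isIntegral_algebraMap (x := algebraMap k0 A c)
    · exact ⟨1, by rw [pow_one]; exact hT w hw⟩
  | zero => exact ⟨0, by rw [smul_zero]; exact isIntegral_zero⟩
  | one => exact ⟨0, by rw [pow_zero, one_smul]; exact isIntegral_one⟩
  | add a b _ _ ha hb =>
    obtain ⟨r, ha⟩ := ha
    obtain ⟨s, hb⟩ := hb
    refine ⟨r + s, ?_⟩
    rw [smul_add]
    refine (hmono r s a ha).add ?_
    rw [add_comm r s]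
    exact hmono s r b hb
  | neg a _ ha =>
    obtain ⟨r, ha⟩ := ha
    exact ⟨r, by rw [smul_neg]; exact ha.neg⟩
  | mul a b _ _ ha hb =>
    obtain ⟨r, ha⟩ := ha
    obtain ⟨s, hb⟩ := hb
    refine ⟨r + s, ?_⟩
    have h1 : h ^ (r + s) • (a * b) = (h ^ r • a) * (h ^ s • b) := by
      rw [pow_add, smul_mul_smul_comm]
    rw [h1]
    exact ha.mul hb

/-- The trace of an element with a denominator. -/
theorem trace_int {A R L : Type} [CommRing A] [Field R] [Field L] [Algebra A R]
    [IsFractionRing A R] [IsIntegrallyClosed A] [Algebra R L] [FiniteDimensional R L] [Algebra A L]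
    [IsScalarTower A R L] (h : A) (x : L) (hx : IsIntegral A (h • x)) :
    ∃ g : A, algebraMap A R g = algebraMap A R h * Algebra.trace R L x := by
  have h2 : IsIntegral A (Algebra.trace R L (h • x)) := Algebra.isIntegral_trace hx
  obtain ⟨g, hg⟩ := IsIntegrallyClosed.isIntegral_iff.1 h2
  refine ⟨g, ?_⟩
  have h4 : h • x = (algebraMap A R h) • x := by rw [algebraMap_smul]
  rw [h4, map_smul, smul_eq_mul] at hg
  exact hg

omit [CharZero K] [IsAlgClosed K] in
open IntermediateField.algebraAdjoinAdjoin in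
/-- The coordinates of elements of a finitely generated ring. -/
theorem den_of_int (hy : IsTranscendenceBasis k0 y)
    [FiniteDimensional (IntermediateField.adjoin k0 (Set.range y)) E]
    {T : Finset K} {J : Type} [Finite J] (b : J → E) :
    ∃ h : MvPolynomial ι k0, h ≠ 0 ∧ ∀ (f : E) (j : J), (f : K) ∈
      Subring.closure (Set.range (algebraMap k0 K) ∪ (T : Set K)) →
      ∀ p q : MvPolynomial ι k0, IsRelPrime p q → aeval y q ≠ 0 → aeval y p / aeval y q =
        ((Algebra.trace (IntermediateField.adjoin k0 (Set.range y)) E (f * b j) :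
          IntermediateField.adjoin k0 (Set.range y)) : K) → ∃ r : ℕ, q ∣ h ^ r := by
  classical
  have hinj : Function.Injective (aeval y : MvPolynomial ι k0 →ₐ[k0] K) := hy.1
  have halg : Algebra.IsAlgebraic (Algebra.adjoin k0 (Set.range y)) K := hy.isAlgebraic
  have hrange : ∀ a : Algebra.adjoin k0 (Set.range y),
      ∃ a' : MvPolynomial ι k0, aeval y a' = (a : K) := by
    rintro ⟨a, ha⟩
    rw [Algebra.adjoin_range_eq_range_aeval] at ha
    exact ha
  have hUFD : IsIntegrallyClosed (Algebra.adjoin k0 (Set.range y)) := by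
    have e : MvPolynomial ι k0 ≃ₐ[k0] Algebra.adjoin k0 (Set.range y) := hy.1.aevalEquiv
    exact IsIntegrallyClosed.of_equiv e.toRingEquiv
  have := Fintype.ofFinite J
  obtain ⟨h, hh0, hh⟩ := Algebra.IsAlgebraic.exists_integral_multiples
    (R := Algebra.adjoin k0 (Set.range y)) (A := K) (T ∪ Finset.univ.image fun j => (b j : K))
  obtain ⟨h', hh'⟩ := hrange h
  refine ⟨h', ?_, ?_⟩
  · rintro rfl
    rw [map_zero] at hh'
    exact hh0 (Subtype.ext hh'.symm)
  intro f j hf p q hpq hq0 hc
  obtain ⟨r, hr⟩ := int_of_closure (A := Algebra.adjoin k0 (Set.range y)) (h := h)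
    (fun t ht => hh t (Finset.mem_union_left _ ht)) hf
  have hbj : IsIntegral (Algebra.adjoin k0 (Set.range y)) (h • (b j : K)) :=
    hh _ (Finset.mem_union_right _ (Finset.mem_image_of_mem _ (Finset.mem_univ j)))
  have hst : IsScalarTower (Algebra.adjoin k0 (Set.range y)) E K :=
    IsScalarTower.of_algebraMap_eq fun _ => rfl
  have h1 : IsIntegral (Algebra.adjoin k0 (Set.range y)) (h ^ (r + 1) • (f * b j : E)) := by
    rw [← isIntegral_algebraMap_iff (B := K) (algebraMap E K).injective]
    have h2 : algebraMap E K (h ^ (r + 1) • (f * b j : E)) =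
        (h ^ r • (f : K)) * (h • (b j : K)) := by
      rw [smul_mul_smul_comm, ← pow_succ]
      rfl
    rw [h2]
    exact hr.mul hbj
  obtain ⟨g, hg⟩ := trace_int (R := IntermediateField.adjoin k0 (Set.range y)) (h ^ (r + 1))
    (f * b j : E) h1
  obtain ⟨g', hg'⟩ := hrange g
  have h3 : (g : K) = (h : K) ^ (r + 1) *
      ((Algebra.trace (IntermediateField.adjoin k0 (Set.range y)) E (f * b j) :
        IntermediateField.adjoin k0 (Set.range y)) : K) := by
    have h5 := congrArg (fun z : IntermediateField.adjoin k0 (Set.range y) => (z : K)) hg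
    exact h5
  rw [← hc, ← hg', ← hh', mul_div_assoc'] at h3
  rw [eq_div_iff hq0, ← map_pow, ← map_mul, ← map_mul] at h3
  have h4 := hinj h3
  refine ⟨r + 1, ?_⟩
  have h5 : q ∣ h' ^ (r + 1) * p := ⟨g', by rw [← h4]; ring⟩
  exact IsRelPrime.dvd_of_dvd_mul_right hpq.symm h5

/-- Sequences of elements of a finitely generated ring of bounded height in all the variables. -/
theorem lim_int (hy : IsTranscendenceBasis k0 y) [Finite ι]
    [FiniteDimensional (IntermediateField.adjoin k0 (Set.range y)) E]
    [IsGalois (IntermediateField.adjoin k0 (Set.range y)) E] (T : Finset K) (f : ℕ → E)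
    (hf : ∀ m, (f m : K) ∈ Subring.closure (Set.range (algebraMap k0 K) ∪ (T : Set K)))
    (B : ι → ℤ) (hB : ∀ m i, hgt (kap k0 y i)
      (⟨(f m : K), subset_LL y _ i (f m).2⟩ : LL k0 y (E : Set K) i) ≤ B i) :
    Om.mk (fun m => (f m : K)) ∈
      Subring.closure (Set.range (mapOm k0 K) ∪ cst K '' (E : Set K)) := by
  classical
  have := Fintype.ofFinite ι
  have hinj : Function.Injective (aeval y : MvPolynomial ι k0 →ₐ[k0] K) := hy.1
  let b := Module.finBasis (IntermediateField.adjoin k0 (Set.range y)) E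
  obtain ⟨N, p, q, hpq, hq0, hqy, hp, hq, hc, hf'⟩ := exists_coord E hy b f B hB
  obtain ⟨h, hh0, hh⟩ := den_of_int E hy (T := T) (fun j => b j)
  obtain ⟨N0, hN0⟩ : ∃ N0 : ℕ, N0 = Fintype.card ι * N := ⟨_, rfl⟩
  have hqd : ∀ j m, q j m ∣ h ^ N0 := by
    intro j m
    obtain ⟨r, hr⟩ := hh (f m) j (hf m) (p j m) (q j m) (hpq j m) (hqy j m) (hc j m)
    refine dvd_pow_deg N0 (q j m) (hq0 j m) ?_ hr
    rw [hN0]
    refine (totalDegree_le_sum _).trans ?_
    refine (Finset.sum_le_sum fun i _ => hq j m i).trans ?_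
    rw [Finset.sum_const, Finset.card_univ, smul_eq_mul]
  choose s hs using hqd
  have hs0 : ∀ j m, s j m ≠ 0 := by
    intro j m h0
    have h1 := hs j m
    rw [h0, mul_zero] at h1
    exact pow_ne_zero N0 hh0 h1
  have hsd : ∀ j m i, (s j m).degreeOf i ≤ N0 * h.degreeOf i := by
    intro j m i
    have h1 := congrArg (degreeOf i) (hs j m)
    rw [degreeOf_mul_eq (hq0 j m) (hs0 j m), degreeOf_pow_eq _ _ _ hh0] at h1
    omega
  have hh1 : aeval y h ≠ 0 := (map_ne_zero_iff _ hinj).2 hh0
  have h1 : ∀ j, Om.mk (fun m => aeval y (p j m) / aeval y (q j m)) ∈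
      Subring.closure (Set.range (mapOm k0 K) ∪ cst K '' (E : Set K)) := by
    intro j
    have h2 : (fun m => aeval y (p j m) / aeval y (q j m)) =
        fun m => aeval y (p j m * s j m) * (aeval y (h ^ N0))⁻¹ := by
      funext m
      rw [hs j m, map_mul, map_mul]
      have h3 : aeval y (s j m) ≠ 0 := (map_ne_zero_iff _ hinj).2 (hs0 j m)
      have h4 := hqy j m
      field_simp
    rw [h2, ← Om.mk_mul]
    refine mul_mem ?_ (Subring.subset_closure (Or.inr ⟨(aeval y (h ^ N0))⁻¹, ?_, rfl⟩))
    · have h3 := poly_mem y (N + ∑ i, N0 * h.degreeOf i) (fun m => p j m * s j m) fun m i => by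
        refine (degreeOf_mul_le i _ _).trans (add_le_add (hp j m i) ((hsd j m i).trans ?_))
        exact Finset.single_le_sum (f := fun i => N0 * h.degreeOf i) (fun _ _ => Nat.zero_le _)
          (Finset.mem_univ i)
      refine Subring.closure_mono ?_ h3
      refine Set.union_subset_union_right _ (Set.image_mono ?_)
      rintro _ ⟨i, rfl⟩
      exact y_mem E i
    · refine inv_mem ?_
      have h3 : ∀ c : MvPolynomial ι k0, aeval y c ∈ E := by
        intro c
        have h4 : aeval y c ∈ IntermediateField.adjoin k0 (Set.range y) :=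
          IntermediateField.algebra_adjoin_le_adjoin k0 _ (by
            rw [Algebra.adjoin_range_eq_range_aeval]
            exact ⟨c, rfl⟩)
        exact E.algebraMap_mem ⟨_, h4⟩
      exact h3 _
  have h2 : (fun m => (f m : K)) =
      fun m => ∑ j, aeval y (p j m) / aeval y (q j m) * ((b.traceDual j : E) : K) := funext hf'
  rw [h2, Pool.Agent.W61.RG.GSP.mk_sum Finset.univ
    (fun j m => aeval y (p j m) / aeval y (q j m) * ((b.traceDual j : E) : K))]
  refine sum_mem fun j _ => ?_
  rw [← Om.mk_mul]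
  exact mul_mem (h1 j) (Subring.subset_closure (Or.inr ⟨_, (b.traceDual j).2, rfl⟩))

end Pool.Agent.TH145.GH
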