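import Pool.Agent.TH145.GH.FinB
import Pool.Agent.TH145.GH.LimB

/-!
Finiteness of integral points on the complement of the hypersurface over a finitely generated ring.
-/

set_option autoImplicit false

open MvPolynomial FF Pool.Agent.W603.LV Pool.Agent.W603.PV Pool.Agent.W602.RG

namespace Pool.Agent.TH145.GH

variable {k0 K ι : Type} [Field k0] [Field K] [Algebra k0 K] [IsAlgClosed K] [CharZero K]
  {y : ι → K} (E : IntermediateField (IntermediateField.adjoin k0 (Set.range y)) K)

/-- Finiteness of the integral points on the complement of the hypersurface. -/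
theorem fin_B {n d N : ℕ} [IsAlgClosed k0] [Finite ι] (hy : IsTranscendenceBasis k0 y)
    [FiniteDimensional (IntermediateField.adjoin k0 (Set.range y)) E]
    [IsGalois (IntermediateField.adjoin k0 (Set.range y)) E]
    {F : MvPolynomial (Fin (n + 1)) E.toSubfield}
    {DE : (Fin (n + 1) →₀ ℕ) → E.toSubfield → E.toSubfield}
    {Q : Fin (n + 1) → Fin (n + 1) → MvPolynomial (Fin (n + 1)) E.toSubfield}
    (hG : Gen F d DE N Q) (D : (Fin (n + 1) →₀ ℕ) → Derivation ℤ K K)
    (hDE : ∀ I (x : E.toSubfield), D I x = (DE I x : K))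
    (hDk : ∀ I (r : k0), D I (algebraMap k0 K r) = 0)
    (hDy : ∀ I j, ∃ r : k0, D I (y j) = algebraMap k0 K r) (hd : 2 * n + 2 ≤ d)
    (l0 : Fin (n + 1)) (T : Finset K) (hT : ∀ t ∈ T, t ∈ E) :
    {x : Fin (n + 1) → K | (∀ j, x j ∈ E) ∧ x l0 = 1 ∧
      eval x (map E.toSubfield.subtype F) ≠ 0 ∧
      ∀ j, x j ^ d / eval x (map E.toSubfield.subtype F) ∈
        Subring.closure (Set.range (algebraMap k0 K) ∪ (T : Set K))}.Finite := by
  by_contra hinf
  let f := Set.Infinite.natEmbedding _ hinf
  obtain ⟨x, hx⟩ : ∃ x : ℕ → Fin (n + 1) → K, ∀ n, x n = (f n).1 := ⟨_, fun _ => rfl⟩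
  have hxinj : Function.Injective x := by
    intro a b hab
    rw [hx, hx] at hab
    exact f.injective (Subtype.ext hab)
  have hxE : ∀ n j, x n j ∈ E := fun n j => by rw [hx]; exact (f n).2.1 j
  have hxl : ∀ n, x n l0 = 1 := fun n => by rw [hx]; exact (f n).2.2.1
  have hxF : ∀ n, eval (x n) (map E.toSubfield.subtype F) ≠ 0 := fun n => by
    rw [hx]; exact (f n).2.2.2.1
  have hxs : ∀ n j, x n j ^ d / eval (x n) (map E.toSubfield.subtype F) ∈
      Subring.closure (Set.range (algebraMap k0 K) ∪ (T : Set K)) := fun n j => by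
    rw [hx]; exact (f n).2.2.2.2 j
  have hcE : Subring.closure (Set.range (algebraMap k0 K) ∪ (T : Set K)) ≤
      E.toSubfield.toSubring := by
    rw [Subring.closure_le]
    rintro w (⟨r, rfl⟩ | hw)
    · exact k0_mem E r
    · exact hT w hw
  have hsE : ∀ n j, x n j ^ d / eval (x n) (map E.toSubfield.subtype F) ∈ E :=
    fun n j => hcE (hxs n j)
  choose B hB using fun i => heights_B E hy.1 hG D hDE hDk hDy hd l0 T hT i
  have hB' : ∀ n i j, hgt (kap k0 y i) (⟨x n j, subset_LL y _ i (hxE n j)⟩ :
        LL k0 y (E : Set K) i) ≤ B i ∧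
      hgt (kap k0 y i) (⟨x n j ^ d / eval (x n) (map E.toSubfield.subtype F),
        subset_LL y _ i (hsE n j)⟩ : LL k0 y (E : Set K) i) ≤ B i := fun n i j =>
    hB i (fun j => ⟨x n j, hxE n j⟩)
      (fun j => ⟨x n j ^ d / eval (x n) (map E.toSubfield.subtype F), hsE n j⟩)
      (Subtype.ext (hxl n)) (hxF n) (fun _ => rfl) (hxs n) j
  have hz : ∀ j, Om.mk (fun n => x n j) ∈ OE k0 ((E.toSubfield : Subfield K) : Set K) := fun j =>
    lim_mem E hy (fun n => ⟨x n j, hxE n j⟩) B fun n i => (hB' n i j).1
  have hev : eval (fun j => Om.mk fun n => x n j) (map ((cst K).comp E.toSubfield.subtype) F) =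
      Om.mk fun n => eval (x n) (map E.toSubfield.subtype F) := eval_mk F x
  have hacl := limit_B E.toSubfield (fun r => k0_mem E r) hG D hDE hDk hd
    (fun j => Om.mk fun n => x n j) hz (l0 := l0) (by
      have h1 : (fun n => x n l0) = fun _ => 1 := funext hxl
      rw [h1]; rfl) (by
      rw [hev]
      intro h0
      have h1 : (Om.mk fun n => eval (x n) (map E.toSubfield.subtype F)) = Om.mk fun _ => 0 := h0
      rw [Om.mk_eq] at h1
      obtain ⟨n, hn⟩ := h1.exists
      exact hxF n hn) (fun j => by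
      have h1 := lim_int E hy T (fun n => ⟨x n j ^ d / eval (x n) (map E.toSubfield.subtype F),
        hsE n j⟩) (fun n => hxs n j) B fun n i => (hB' n i j).2
      have h2 : (Om.mk fun n => x n j) ^ d /
          eval (fun j => Om.mk fun n => x n j) (map ((cst K).comp E.toSubfield.subtype) F) =
          Om.mk fun n => x n j ^ d / eval (x n) (map E.toSubfield.subtype F) := by
        rw [hev, ← Om.mk_div]
        congr 1
      rw [h2]
      exact h1)
  choose a ha using fun j => eventually_const (hacl j)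
  exact not_all_const hxinj a ha

end Pool.Agent.TH145.GH
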