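import Pool.Agent.TH145.GH.KL
import Pool.Agent.TH145.MG.Der
import Pool.Agent.TH145.MF.FF

/-!
A derivation that maps constants to constants and kills a subfield that generates the function
field over the constants preserves all local rings.
-/

set_option autoImplicit false

open Polynomial FF Pool.Agent.W603.LV

namespace Pool.Agent.TH145.GH

open Pool.Agent.TH145.MG

variable {k K : Type} [Field k] [Field K] [Algebra k K]

/-- Two constants with the same residue are equal. -/
theorem const_unique (P : Place k K) {f : K} {a b : k} (ha : Ge P 1 (f - algebraMap k K a))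
    (hb : Ge P 1 (f - algebraMap k K b)) : a = b := by
  by_contra hab
  have h1 := hb.sub ha
  have h2 : f - algebraMap k K b - (f - algebraMap k K a) = algebraMap k K (a - b) := by
    rw [map_sub]; ring
  rw [h2] at h1
  have h3 : a - b ≠ 0 := sub_ne_zero.2 hab
  rcases h1 with h | h
  · exact h3 ((map_eq_zero _).1 h)
  · rw [P.ord_const h3] at h
    omega

/-- If the residues of the elements of `M` lie in `kB`, then the elements of `k M` have the same
orders as the elements of `M`. -/
theorem span_val (P : Place k K) (M : Subfield K)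
    (hres : ∀ m ∈ M, P.ord m = 0 → ∃ c : k, algebraMap k K c ∈ M ∧
      Ge P 1 (m - algebraMap k K c)) {ι : Type} (n : ℕ) : ∀ (s : Finset ι), s.card = n →
      ∀ (c : ι → k) (m : ι → K), (∀ i ∈ s, m i ∈ M) → ∑ i ∈ s, c i • m i ≠ 0 →
      ∃ m' ∈ M, m' ≠ 0 ∧ P.ord m' = P.ord (∑ i ∈ s, c i • m i) := by
  classical
  induction n with
  | zero =>
    intro s hs c m _ h0
    rw [Finset.card_eq_zero] at hs
    rw [hs, Finset.sum_empty] at h0
    exact absurd rfl h0
  | succ n ih =>
    intro s hs c m hm h0
    by_cases hz : ∃ i ∈ s, m i = 0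
    · obtain ⟨i, hi, hi0⟩ := hz
      have h1 : ∑ i ∈ s, c i • m i = ∑ i ∈ s.erase i, c i • m i := by
        rw [← Finset.add_sum_erase s _ hi, hi0, smul_zero, zero_add]
      rw [h1] at h0 ⊢
      exact ih (s.erase i) (by rw [Finset.card_erase_of_mem hi, hs]; rfl) c m
        (fun j hj => hm j (Finset.mem_of_mem_erase hj)) h0
    · push Not at hz
      obtain ⟨i0, hi0, hmin⟩ := Finset.exists_min_image s (fun i => P.ord (m i))
        (Finset.card_pos.1 (by omega))
      have hc' : ∀ i ∈ s, ∃ c' : k, algebraMap k K c' ∈ M ∧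
          Ge P (P.ord (m i0) + 1) (m i - algebraMap k K c' * m i0) := by
        intro i hi
        rcases lt_or_eq_of_le (hmin i hi) with h | h
        · refine ⟨0, by rw [map_zero]; exact zero_mem _, ?_⟩
          rw [map_zero, zero_mul, sub_zero]
          exact Or.inr (by omega)
        · obtain ⟨c', hc1, hc2⟩ := hres (m i / m i0) (div_mem (hm i hi) (hm i0 hi0)) (by
            rw [P.ord_div (hz i hi) (hz i0 hi0)]
            omega)
          refine ⟨c', hc1, ?_⟩
          have h2 : Ge P (P.ord (m i0)) (m i0) := Or.inr le_rfl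
          have h1 := h2.mul hc2
          have h3 : m i0 * (m i / m i0 - algebraMap k K c') = m i - algebraMap k K c' * m i0 := by
            have := hz i0 hi0
            field_simp
          rwa [h3] at h1
      choose! c' hc1 hc2 using hc'
      have h1 : ∑ i ∈ s, c i • m i = (c i0 + ∑ i ∈ s.erase i0, c i * c' i) • m i0 +
          ∑ i ∈ s.erase i0, c i • (m i - algebraMap k K (c' i) * m i0) := by
        rw [← Finset.add_sum_erase s _ hi0, add_smul, Finset.sum_smul, add_assoc,
          ← Finset.sum_add_distrib]
        congr 1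
        refine Finset.sum_congr rfl fun i _ => ?_
        rw [Algebra.smul_def, Algebra.smul_def, Algebra.smul_def, map_mul]
        ring
      rw [h1] at h0 ⊢
      by_cases hC : c i0 + ∑ i ∈ s.erase i0, c i * c' i = 0
      · rw [hC, zero_smul, zero_add] at h0 ⊢
        exact ih (s.erase i0) (by rw [Finset.card_erase_of_mem hi0, hs]; rfl) c _
          (fun j hj => sub_mem (hm j (Finset.mem_of_mem_erase hj))
            (mul_mem (hc1 j (Finset.mem_of_mem_erase hj)) (hm i0 hi0))) h0
      · refine ⟨m i0, hm i0 hi0, hz i0 hi0, ?_⟩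
        have h2 : Ge P (P.ord (m i0) + 1)
            (∑ i ∈ s.erase i0, c i • (m i - algebraMap k K (c' i) * m i0)) := by
          refine Ge.sum _ _ fun i hi => ?_
          rw [Algebra.smul_def]
          have := (Ge.const (P := P) (c i)).mul (hc2 i (Finset.mem_of_mem_erase hi))
          rwa [zero_add] at this
        have h3 : (c i0 + ∑ i ∈ s.erase i0, c i * c' i) • m i0 ≠ 0 :=
          smul_ne_zero hC (hz i0 hi0)
        have h4 : P.ord ((c i0 + ∑ i ∈ s.erase i0, c i * c' i) • m i0) = P.ord (m i0) := by
          rw [Algebra.smul_def, P.ord_mul ((_root_.map_ne_zero _).2 hC) (hz i0 hi0), P.ord_const hC,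
            zero_add]
        rcases h2 with h2 | h2
        · rw [h2, add_zero, h4]
        · by_cases h5 : ∑ i ∈ s.erase i0, c i • (m i - algebraMap k K (c' i) * m i0) = 0
          · rw [h5, add_zero, h4]
          · rw [(P.ord_add_eq h3 h5 (by omega)).2, h4]

variable [CharZero k] [IsFF k K] [IsAlgClosed k]

/-- Uniformizers if `K = k M`: either the place is trivial on `M`, or there is a uniformizer in
`M`. -/
theorem unif_dich (kB M : Subfield K) (hBM : kB ≤ M)
    (hk : ∀ z ∈ kB, ∃ c : k, algebraMap k K c = z)
    (hcl : ∀ c : k, IsAlgebraic kB (algebraMap k K c) → algebraMap k K c ∈ kB)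
    (htr : ∀ m ∈ M, m ∉ kB → ∀ g ∈ M, IsAlgebraic (IntermediateField.adjoin kB {m}) g)
    {θ : K} (hθM : θ ∈ M) (hθ : ∀ c : k, θ ≠ algebraMap k K c)
    (hgen : ∀ f : K, ∃ a ∈ Submodule.span k (M : Set K), ∃ b ∈ Submodule.span k (M : Set K),
      b ≠ 0 ∧ f * b = a)
    (P : Place k K) : ((∀ m ∈ M, P.ord m = 0) ∧ ∃ c : k, P.ord (θ - algebraMap k K c) = 1) ∨
      ∃ π ∈ M, P.ord π = 1 := by
  classical
  have hcz : CharZero K := charZero_of_injective_algebraMap (algebraMap k K).injective
  by_cases htriv : ∀ m ∈ M, P.ord m = 0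
  · -- the moving case
    left
    refine ⟨htriv, ?_⟩
    have hθ0 : Ge P 0 θ := Or.inr (htriv θ hθM).ge
    obtain ⟨c, hc⟩ := exists_const P hθ0
    obtain ⟨u, hu⟩ : ∃ u, u = θ - algebraMap k K c := ⟨_, rfl⟩
    rw [← hu] at hc
    have hu0 : u ≠ 0 := by
      intro h0
      rw [hu] at h0
      exact hθ c (sub_eq_zero.1 h0)
    have hu1 : 0 < P.ord u := hc.resolve_left hu0
    obtain ⟨d, hd0⟩ := exists_der (k := k) (K := K)
    have hθt : Transcendental k θ := by
      intro hal
      have h1 : (minpoly k θ).degree = 1 :=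
        IsAlgClosed.degree_eq_one_of_irreducible _ (minpoly.irreducible hal.isIntegral)
      obtain ⟨c', hc'⟩ := minpoly.mem_range_of_degree_eq_one k θ h1
      exact hθ c' hc'.symm
    have hdθ : d θ ≠ 0 := der_ne_zero hd0 hθt
    obtain ⟨δ, hδ⟩ : ∃ δ : Derivation k K K, δ = (d θ)⁻¹ • d := ⟨_, rfl⟩
    have hδθ : δ θ = 1 := by rw [hδ]; simp [hdθ]
    have hδ0 : δ ≠ 0 := by
      rintro rfl
      simp at hδθ
    have hδu : δ u = 1 := by rw [hu, map_sub, δ.map_algebraMap, sub_zero, hδθ]
    -- `δ` preserves `M`
    have hder : IsDer (⊤ : Subfield K) δ :=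
      ⟨fun a _ b _ => map_add δ a b, fun a _ b _ => by
        rw [δ.leibniz]; simp⟩
    have hδM : ∀ m ∈ M, δ m ∈ M := by
      intro m hm
      refine hder.mem_of_alg M trivial hm ?_
      have hθB : θ ∉ kB := fun h => by
        obtain ⟨c', hc'⟩ := hk θ h
        exact hθ c' hc'.symm
      have h1 := htr θ hθM hθB m hm
      have h2 : ∀ z ∈ IntermediateField.adjoin kB {θ}, z ∈ hder.sub M := by
        intro z hz
        have h3 : (IntermediateField.adjoin kB {θ}).toSubfield ≤ hder.sub M := by
          rw [IntermediateField.adjoin_toSubfield]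
          rw [Subfield.closure_le]
          rintro w (⟨w', rfl⟩ | hw)
          · refine ⟨trivial, hBM w'.2, ?_⟩
            obtain ⟨c', hc'⟩ := hk _ w'.2
            change δ (w' : K) ∈ M
            rw [← hc', δ.map_algebraMap]
            exact zero_mem _
          · rw [Set.mem_singleton_iff] at hw
            subst hw
            refine ⟨trivial, hθM, ?_⟩
            rw [hδθ]
            exact one_mem _
        exact h3 hz
      have h3 : IsAlgebraic (IntermediateField.adjoin kB {θ}).toSubfield m := h1
      exact Pool.Agent.TH145.MF.alg_mono (fun z hz => h2 z hz) h3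
    have hδA : ∀ a ∈ Submodule.span k (M : Set K), δ a ∈ Submodule.span k (M : Set K) := by
      intro a ha
      induction ha using Submodule.span_induction with
      | mem x hx => exact Submodule.subset_span (hδM x hx)
      | zero => rw [map_zero]; exact zero_mem _
      | add x y _ _ hx hy => rw [map_add]; exact add_mem hx hy
      | smul c x _ hx =>
        rw [δ.map_smul]
        exact Submodule.smul_mem _ c hx
    have hAreg : ∀ a ∈ Submodule.span k (M : Set K), Ge P 0 a := by
      intro a ha
      induction ha using Submodule.span_induction with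
      | mem x hx => exact Or.inr (htriv x hx).ge
      | zero => exact Ge.zero
      | add x y _ _ hx hy => exact hx.add hy
      | smul c x _ hx =>
        rw [Algebra.smul_def]
        have := (Ge.const (P := P) c).mul hx
        rwa [add_zero] at this
    have h1 := (ord_der P hδ0 (f := u) hu1.ne').2
    rw [hδu, P.ord_one] at h1
    have hdvd : ∀ n : ℕ, ∀ a ∈ Submodule.span k (M : Set K), a ≠ 0 → P.ord a = n →
        P.ord u ∣ (n : ℤ) := by
      intro n
      induction n using Nat.strong_induction_on with
      | _ n ih =>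
        intro a ha ha0 han
        rcases Nat.eq_zero_or_pos n with hn | hn
        · rw [hn]; exact dvd_zero _
        · have h2 := ord_der P hδ0 (f := a) (by rw [han]; exact_mod_cast hn.ne')
          have h3 := (hAreg _ (hδA a ha)).resolve_left h2.1
          obtain ⟨m, hm⟩ := Int.eq_ofNat_of_zero_le h3
          have h4 : (m : ℤ) = n - P.ord u := by omega
          have h5 := ih m (by omega) _ (hδA a ha) h2.1 hm
          rw [h4] at h5
          exact (Int.dvd_iff_dvd_of_dvd_sub h5).2 dvd_rfl
    have hdvd' : ∀ a ∈ Submodule.span k (M : Set K), a ≠ 0 → P.ord u ∣ P.ord a := by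
      intro a ha ha0
      obtain ⟨n, hn⟩ := Int.eq_ofNat_of_zero_le ((hAreg a ha).resolve_left ha0)
      rw [hn]
      exact hdvd n a ha ha0 hn
    have hu2 : P.ord u = 1 := by
      obtain ⟨t, ht0, ht⟩ := P.surj
      obtain ⟨a, ha, b, hb, hb0, hab⟩ := hgen t
      have ha0 : a ≠ 0 := by rw [← hab]; exact mul_ne_zero ht0 hb0
      have h2 := hdvd' a ha ha0
      have h3 := hdvd' b hb hb0
      rw [← hab, P.ord_mul ht0 hb0, ht] at h2
      have h4 : P.ord u ∣ 1 := (Int.dvd_iff_dvd_of_dvd_add h2).2 h3
      exact Int.eq_one_of_dvd_one hu1.le h4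
    exact ⟨c, hu ▸ hu2⟩
  · -- the place is not trivial on `M`
    right
    push Not at htriv
    obtain ⟨π, hπM, hπ⟩ := htriv
    have hres : ∀ m ∈ M, P.ord m = 0 → ∃ c : k, algebraMap k K c ∈ M ∧
        Ge P 1 (m - algebraMap k K c) := by
      intro m hm hm0
      obtain ⟨c, hc⟩ := exists_const P (Or.inr hm0.ge : Ge P 0 m)
      by_cases hcB : algebraMap k K c ∈ kB
      · exact ⟨c, hBM hcB, hc⟩
      exfalso
      have hct : ¬ IsAlgebraic kB (algebraMap k K c) := fun h => hcB (hcl c h)
      have hmB : m ∉ kB := by
        intro h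
        obtain ⟨c', hc'⟩ := hk m h
        have h1 : c = c' := const_unique P hc (by rw [hc', sub_self]; exact Ge.zero)
        rw [h1, hc'] at hcB
        exact hcB h
      -- the place is trivial on `kB (m)`
      have hpol : ∀ p : Polynomial kB, p ≠ 0 → aeval m p ≠ 0 ∧ P.ord (aeval m p) = 0 := by
        intro p hp0
        have h1 : Ge P 1 (aeval m p - aeval (algebraMap k K c) p) := by
          rw [aeval_eq_sum_range, aeval_eq_sum_range, ← Finset.sum_sub_distrib]
          refine Ge.sum _ _ fun i _ => ?_
          rw [← smul_sub, Algebra.smul_def]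
          have h2 : Ge P 0 (algebraMap kB K (p.coeff i)) := by
            obtain ⟨c', hc'⟩ := hk _ (p.coeff i).2
            change Ge P 0 ((p.coeff i : kB) : K)
            rw [← hc']
            exact Ge.const c'
          have h3 : Ge P 1 (m ^ i - algebraMap k K c ^ i) := by
            obtain ⟨g, hg⟩ := sub_dvd_pow_sub_pow
              (⟨m, Or.inr hm0.ge⟩ : P.O) (⟨algebraMap k K c, P.reg_const c⟩ : P.O) i
            have h4 := congrArg (Subtype.val : P.O → K) hg
            change m ^ i - algebraMap k K c ^ i = (m - algebraMap k K c) * (g : K) at h4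
            rw [h4]
            have h5 : Ge P 0 (g : K) := g.2
            have := hc.mul h5
            rwa [add_zero] at this
          have := h2.mul h3
          rwa [zero_add] at this
        have h2 : aeval (algebraMap k K c) p ≠ 0 := fun h => hct ⟨p, hp0, h⟩
        have h3 : ∃ c' : k, aeval (algebraMap k K c) p = algebraMap k K c' := by
          rw [aeval_eq_sum_range]
          have h4 : ∀ i, ∃ c' : k, algebraMap k K c' = p.coeff i • (algebraMap k K c) ^ i := by
            intro i
            obtain ⟨c', hc'⟩ := hk _ (p.coeff i).2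
            refine ⟨c' * c ^ i, ?_⟩
            rw [map_mul, map_pow, hc', Algebra.smul_def]
            rfl
          choose c' hc' using h4
          refine ⟨∑ i ∈ Finset.range (p.natDegree + 1), c' i, ?_⟩
          rw [map_sum]
          exact Finset.sum_congr rfl fun i _ => (hc' i).symm
        obtain ⟨c', hc'⟩ := h3
        have hc'0 : c' ≠ 0 := by
          rintro rfl
          rw [hc', map_zero] at h2
          exact h2 rfl
        rw [hc'] at h1
        by_cases h5 : aeval m p - algebraMap k K c' = 0
        · rw [sub_eq_zero.1 h5]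
          exact ⟨(_root_.map_ne_zero _).2 hc'0, P.ord_const hc'0⟩
        · have h6 := h1.resolve_left h5
          have h7 := P.ord_add_eq (f := algebraMap k K c') (g := aeval m p - algebraMap k K c')
            ((_root_.map_ne_zero _).2 hc'0) h5 (by rw [P.ord_const hc'0]; omega)
          rw [add_sub_cancel, P.ord_const hc'0] at h7
          exact h7
      obtain ⟨F1, hF1⟩ : ∃ F1, F1 = IntermediateField.adjoin kB {m} := ⟨_, rfl⟩
      have hF1c : ∀ z : F1, z ≠ 0 → P.ord (z : K) = 0 := by
        rintro ⟨z, hz⟩ hz0
        rw [hF1, IntermediateField.mem_adjoin_simple_iff] at hz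
        obtain ⟨r, s, hrs⟩ := hz
        have hz0' : z ≠ 0 := fun h => hz0 (Subtype.ext h)
        by_cases hr : r = 0
        · rw [hr, map_zero, zero_div] at hrs
          exact absurd hrs hz0'
        by_cases hs : s = 0
        · rw [hs, map_zero, div_zero] at hrs
          exact absurd hrs hz0'
        change P.ord z = 0
        rw [hrs, P.ord_div (hpol r hr).1 (hpol s hs).1, (hpol r hr).2, (hpol s hs).2, sub_zero]
      let P1 : Place F1 K :=
        { ord := P.ord
          ord_zero := P.ord_zero
          ord_mul := P.ord_mul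
          ord_add := P.ord_add
          ord_const := fun {c} hc => hF1c c hc
          surj := P.surj }
      have hπ0 : π ≠ 0 := by
        rintro rfl
        exact hπ P.ord_zero
      have h8 : IsAlgebraic F1 π := by
        rw [hF1]
        exact htr m hm hmB π hπM
      exact hπ (P1.ord_eq_zero_of_isAlgebraic hπ0 h8)
    -- there is a uniformizer in `M`
    have hval : ∀ a ∈ Submodule.span k (M : Set K), a ≠ 0 → ∃ m' ∈ M, m' ≠ 0 ∧
        P.ord m' = P.ord a := by
      intro a ha ha0
      rw [Submodule.mem_span_iff_exists_finset_subset] at ha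
      obtain ⟨c, t, ht, -, hta⟩ := ha
      rw [← hta] at ha0 ⊢
      exact span_val P M hres t.card t rfl c id (fun i hi => ht hi) ha0
    obtain ⟨t, ht0, ht⟩ := P.surj
    obtain ⟨a, ha, b, hb, hb0, hab⟩ := hgen t
    have ha0 : a ≠ 0 := by rw [← hab]; exact mul_ne_zero ht0 hb0
    obtain ⟨m1, h1, h2, h3⟩ := hval a ha ha0
    obtain ⟨m2, h4, h5, h6⟩ := hval b hb hb0
    have h7 : P.ord (m1 / m2) = 1 := by
      rw [P.ord_div h2 h5, h3, h6, ← hab, P.ord_mul ht0 hb0, ht]
      ring
    exact ⟨m1 / m2, div_mem h1 h4, h7⟩

end Pool.Agent.TH145.GH
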