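import Pool.Agent.TH145.GH.DataE
import Pool.Agent.TH145.GH.Rig

/-!
Limit points are constant.
-/

set_option autoImplicit false

open MvPolynomial FF Pool.Agent.W603.LV Pool.Agent.W603.PV Pool.Agent.W602.RG

namespace Pool.Agent.TH145.GH

variable {k0 K : Type} [Field k0] [Field K] [Algebra k0 K] [IsAlgClosed k0] [IsAlgClosed K]
  [CharZero K]

theorem exists_rig_data {n d N : ℕ} (E : Subfield K) (hE : ∀ r : k0, algebraMap k0 K r ∈ E)
    {F : MvPolynomial (Fin (n + 1)) E} {DE : (Fin (n + 1) →₀ ℕ) → E → E}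
    {Q : Fin (n + 1) → Fin (n + 1) → MvPolynomial (Fin (n + 1)) E} (hG : Gen F d DE N Q)
    (D : (Fin (n + 1) →₀ ℕ) → Derivation ℤ K K) (hDE : ∀ I (x : E), D I x = (DE I x : K))
    (hDk : ∀ I (r : k0), D I (algebraMap k0 K r) = 0) {J : Type} [Finite J]
    (z : J → Om K) (hz : ∀ j, z j ∈ OE k0 (E : Set K)) (X : Finset (Om K))
    (hX : (X : Set (Om K)) ⊆ CC k0 K) (j1 : J) (hj1 : z j1 ∉ acl (cst K '' (E : Set K))) :
    ∃ (κ : Subfield (Om K)) (Λ : IntermediateField κ (Om K)) (M : Subfield Λ) (φ : E →+* Λ)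
      (D' : (Fin (n + 1) →₀ ℕ) → Derivation ℤ Λ Λ),
      IsAlgClosed κ ∧ IsFF κ Λ ∧ (∀ j, z j ∈ Λ) ∧ z j1 ∉ κ ∧
      (∀ x ∈ X, ∃ m ∈ M, ((m : Λ) : Om K) = x) ∧ (∀ x ∈ E, cst K x ∈ κ) ∧
      (∀ x : E, ((φ x : Λ) : Om K) = cst K x) ∧ Data κ (map φ F) d D' (fun _ => 0) (fun _ => 0) ∧
      ∀ P : Place κ Λ, (∀ m ∈ M, P.ord m = 0) ∨ ∀ I f, f ≠ 0 → Ge P (P.ord f) (D' I f) := by
  classical
  obtain ⟨κ, Λ, M, hac, hFF, hEκ, hzΛ, hzκ, hXM, hMC, hder, hplace⟩ :=
    exists_rig E hE z hz X hX j1 hj1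
  have hczOm : CharZero (Om K) :=
    charZero_of_injective_algebraMap (algebraMap K (Om K)).injective
  have hcz : CharZero κ := charZero_of_injective_algebraMap (algebraMap ℚ κ).injective
  let φ : E →+* Λ :=
    { toFun := fun x => ⟨cst K x, Λ.algebraMap_mem ⟨cst K x, hEκ x x.2⟩⟩
      map_one' := Subtype.ext (map_one (cst K))
      map_mul' := fun a b => Subtype.ext (map_mul (cst K) (a : K) b)
      map_zero' := Subtype.ext (map_zero (cst K))
      map_add' := fun a b => Subtype.ext (map_add (cst K) (a : K) b) }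
  have hd := fun I => hder (hat (D I)) (fun w hw => hat_CC (D I) (hDk I) hw)
    (fun x hx => ⟨(DE I ⟨x, hx⟩ : K), (DE I ⟨x, hx⟩).2, by
      rw [hat_cst, ← hDE I ⟨x, hx⟩]⟩)
  let D' : (Fin (n + 1) →₀ ℕ) → Derivation ℤ Λ Λ := fun I => resDer Λ (hat (D I)) (hd I).2
  have hD' : ∀ I (x : Λ), ((D' I x : Λ) : Om K) = hat (D I) x := fun I x => rfl
  have hS : ∀ I, Sem κ (D' I) := fun I c => ⟨⟨hat (D I) c, (hd I).1 c c.2⟩, rfl⟩
  have hM0 : ∀ I, ∀ m ∈ M, D' I m = 0 := by
    intro I m hm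
    apply Subtype.ext
    rw [hD']
    exact hat_CC (D I) (hDk I) (hMC m hm)
  refine ⟨κ, Λ, M, φ, D', hac, hFF, hzΛ, hzκ, hXM, hEκ, fun x => rfl, ?_, fun P => ?_⟩
  · refine hG.data φ D' (fun I x => ?_) (fun _ => le_rfl) (fun _ => le_rfl) ?_ ?_ ?_ ?_
    · apply Subtype.ext
      rw [hD']
      change hat (D I) (cst K x) = cst K (DE I x)
      rw [hat_cst, hDE]
    · intro P f hf I _
      rw [neg_zero]
      rcases hplace P with ⟨-, θ, hθM, c, hu⟩ | ⟨π, hπM, hπ⟩
      · refine reg_of_unif P hu (hS I) le_rfl ?_ hf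
        obtain ⟨c', hc'⟩ := hS I c
        rw [map_sub, hM0 I θ hθM, hc', zero_sub]
        exact (Ge.const c').neg
      · refine reg_of_unif P hπ (hS I) le_rfl ?_ hf
        rw [hM0 I π hπM]
        exact Ge.zero
    · simp
    · intro P u
      rw [neg_zero]
      exact Ge.const (⟨cst K ((F.coeff u : E) : K), hEκ _ (F.coeff u).2⟩ : κ)
    · intro P l i u
      rw [neg_zero]
      exact Ge.const (⟨cst K (((Q l i).coeff u : E) : K), hEκ _ ((Q l i).coeff u).2⟩ : κ)
  · rcases hplace P with ⟨h1, -⟩ | ⟨π, hπM, hπ⟩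
    · exact Or.inl h1
    · right
      intro I f hf
      have hπ0 : π ≠ 0 := by
        rintro rfl
        rw [P.ord_zero] at hπ
        exact absurd hπ (by norm_num)
      obtain ⟨g, hg⟩ : ∃ g, g = f / π ^ P.ord f := ⟨_, rfl⟩
      have hπz : π ^ P.ord f ≠ 0 := zpow_ne_zero _ hπ0
      have h1 : f = π ^ P.ord f * g := by
        rw [hg, mul_div_cancel₀ _ hπz]
      have h2 : Ge P 0 g := by
        right
        rw [hg, P.ord_div hf hπz, P.ord_zpow, hπ]
        linarith
      have h3 : Ge P 0 (D' I g) := by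
        refine reg_of_unif P hπ (hS I) le_rfl ?_ h2
        rw [hM0 I π hπM]
        exact Ge.zero
      have h4 : D' I f = π ^ P.ord f * D' I g := by
        conv_lhs => rw [h1]
        rw [(D' I).leibniz, hM0 I _ (zpow_mem hπM _)]
        simp
      rw [h4]
      have h5 : Ge P (P.ord f) (π ^ P.ord f) := by
        right
        rw [P.ord_zpow, hπ, mul_one]
      have := h5.mul h3
      rwa [add_zero] at this

omit [IsAlgClosed K] [CharZero K] in
theorem eval_lift {κ : Subfield (Om K)} {Λ : IntermediateField κ (Om K)} {n : ℕ} {E : Subfield K}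
    (φ : E →+* Λ) (hφ : ∀ x : E, ((φ x : Λ) : Om K) = cst K x) (F : MvPolynomial (Fin (n + 1)) E)
    (x : Fin (n + 1) → Λ) : ((eval x (map φ F) : Λ) : Om K) =
      eval (fun j => (x j : Om K)) (map ((cst K).comp E.subtype) F) := by
  rw [eval_map, eval_map]
  have h1 := hom_eval₂ F φ (algebraMap Λ (Om K)) x
  refine h1.trans ?_
  congr 1
  ext a
  exact hφ a

theorem const_of_pht {κ Λ : Type} [Field κ] [Field Λ] [Algebra κ Λ] [IsAlgClosed κ] [CharZero κ]
    [IsFF κ Λ] {n : ℕ} {x : Fin (n + 1) → Λ} (h : pht κ x ≤ 0) {l0 : Fin (n + 1)}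
    (hl0 : x l0 = 1) (j : Fin (n + 1)) : ∃ c : κ, x j = algebraMap κ Λ c := by
  by_cases hj : x j = 0
  · exact ⟨0, by rw [hj, map_zero]⟩
  · have h1 := Pool.Agent.W603.CX.hgt_le_pht (k := κ) x hj (l := l0) (by rw [hl0]; exact one_ne_zero)
    rw [hl0, div_one] at h1
    exact const_of_hgt (h1.trans h)

/-- Limit points of the hypersurface are constant. -/
theorem limit_A {m d N : ℕ} (E : Subfield K) (hE : ∀ r : k0, algebraMap k0 K r ∈ E)
    {F : MvPolynomial (Fin (m + 2)) E} {DE : (Fin (m + 2) →₀ ℕ) → E → E}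
    {Q : Fin (m + 2) → Fin (m + 2) → MvPolynomial (Fin (m + 2)) E} (hG : Gen F d DE N Q)
    (D : (Fin (m + 2) →₀ ℕ) → Derivation ℤ K K) (hDE : ∀ I (x : E), D I x = (DE I x : K))
    (hDk : ∀ I (r : k0), D I (algebraMap k0 K r) = 0) (hd : 2 * (m + 1) + 1 ≤ d)
    (z : Fin (m + 2) → Om K) (hz : ∀ j, z j ∈ OE k0 (E : Set K)) {l0 : Fin (m + 2)}
    (hl0 : z l0 = 1) (hzF : eval z (map ((cst K).comp E.subtype) F) = 0) (j : Fin (m + 2)) :
    z j ∈ acl (cst K '' (E : Set K)) := by
  classical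
  by_contra hj1
  obtain ⟨κ, Λ, M, φ, D', hac, hFF, hzΛ, hzκ, -, hEκ, hφ, hdat, -⟩ :=
    exists_rig_data E hE hG D hDE hDk z hz ∅ (by simp) j hj1
  have hczOm : CharZero (Om K) :=
    charZero_of_injective_algebraMap (algebraMap K (Om K)).injective
  have hcz : CharZero κ := charZero_of_injective_algebraMap (algebraMap ℚ κ).injective
  obtain ⟨x, hx⟩ : ∃ x : Fin (m + 2) → Λ, ∀ j, x j = ⟨z j, hzΛ j⟩ := ⟨_, fun _ => rfl⟩
  have hxl0 : x l0 = 1 := by
    rw [hx]
    exact Subtype.ext hl0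
  have hx0 : x ≠ 0 := by
    intro h0
    rw [h0] at hxl0
    exact zero_ne_one hxl0
  have hxF : eval x (map φ F) = 0 := by
    apply Subtype.ext
    rw [eval_lift φ hφ F x]
    have h1 : (fun j => ((x j : Λ) : Om K)) = z := by
      funext j
      rw [hx]
    rw [h1, hzF]
    rfl
  have h1 := ineqA hdat hd hx0 hxF
  simp only [add_zero, mul_zero, finsum_zero] at h1
  obtain ⟨c, hc⟩ := const_of_pht h1 hxl0 j
  apply hzκ
  have h2 := congrArg (fun w : Λ => (w : Om K)) hc
  rw [hx] at h2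
  change z j = (c : Om K) at h2
  rw [h2]
  exact c.2

/-- Finitely many elements suffice. -/
theorem fin_closure_ring {Ω : Type} [Field Ω] {A B : Set Ω} {x : Ω}
    (hx : x ∈ Subring.closure (A ∪ B)) :
    ∃ c : Finset Ω, (c : Set Ω) ⊆ A ∧ x ∈ Subring.closure ((c : Set Ω) ∪ B) := by
  classical
  have mono : ∀ (c d : Finset Ω) (x : Ω), x ∈ Subring.closure ((c : Set Ω) ∪ B) →
      x ∈ Subring.closure (((c ∪ d : Finset Ω) : Set Ω) ∪ B) := by
    intro c d x hx
    refine Subring.closure_mono ?_ hx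
    refine Set.union_subset_union_left _ ?_
    rw [Finset.coe_union]
    exact Set.subset_union_left
  have mono' : ∀ (c d : Finset Ω) (x : Ω), x ∈ Subring.closure ((d : Set Ω) ∪ B) →
      x ∈ Subring.closure (((c ∪ d : Finset Ω) : Set Ω) ∪ B) := by
    intro c d x hx
    rw [Finset.union_comm]
    exact mono d c x hx
  have hun : ∀ (c d : Finset Ω), (c : Set Ω) ⊆ A → (d : Set Ω) ⊆ A →
      ((c ∪ d : Finset Ω) : Set Ω) ⊆ A := by
    intro c d hc hd
    rw [Finset.coe_union]
    exact Set.union_subset hc hd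
  induction hx using Subring.closure_induction with
  | mem x hx =>
    rcases hx with hx | hx
    · refine ⟨{x}, by simpa using hx, Subring.subset_closure (Or.inl (by simp))⟩
    · exact ⟨∅, by simp, Subring.subset_closure (Or.inr hx)⟩
  | zero => exact ⟨∅, by simp, zero_mem _⟩
  | one => exact ⟨∅, by simp, one_mem _⟩
  | add x y _ _ hx hy =>
    obtain ⟨c, hc, h1⟩ := hx
    obtain ⟨d, hd, h2⟩ := hy
    exact ⟨c ∪ d, hun c d hc hd, add_mem (mono c d x h1) (mono' c d y h2)⟩
  | neg x _ hx =>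
    obtain ⟨c, hc, h1⟩ := hx
    exact ⟨c, hc, neg_mem h1⟩
  | mul x y _ _ hx hy =>
    obtain ⟨c, hc, h1⟩ := hx
    obtain ⟨d, hd, h2⟩ := hy
    exact ⟨c ∪ d, hun c d hc hd, mul_mem (mono c d x h1) (mono' c d y h2)⟩

/-- Limit points of the complement of the hypersurface are constant. -/
theorem limit_B {n d N : ℕ} (E : Subfield K) (hE : ∀ r : k0, algebraMap k0 K r ∈ E)
    {F : MvPolynomial (Fin (n + 1)) E} {DE : (Fin (n + 1) →₀ ℕ) → E → E}
    {Q : Fin (n + 1) → Fin (n + 1) → MvPolynomial (Fin (n + 1)) E} (hG : Gen F d DE N Q)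
    (D : (Fin (n + 1) →₀ ℕ) → Derivation ℤ K K) (hDE : ∀ I (x : E), D I x = (DE I x : K))
    (hDk : ∀ I (r : k0), D I (algebraMap k0 K r) = 0) (hd : 2 * n + 2 ≤ d)
    (z : Fin (n + 1) → Om K) (hz : ∀ j, z j ∈ OE k0 (E : Set K)) {l0 : Fin (n + 1)}
    (hl0 : z l0 = 1) (hzF : eval z (map ((cst K).comp E.subtype) F) ≠ 0)
    (hint : ∀ j, z j ^ d / eval z (map ((cst K).comp E.subtype) F) ∈
      Subring.closure (Set.range (mapOm k0 K) ∪ cst K '' (E : Set K))) (j : Fin (n + 1)) :
    z j ∈ acl (cst K '' (E : Set K)) := by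
  classical
  by_contra hj1
  have h0 : ∀ j, ∃ c : Finset (Om K), (c : Set (Om K)) ⊆ Set.range (mapOm k0 K) ∧
      z j ^ d / eval z (map ((cst K).comp E.subtype) F) ∈
        Subring.closure ((c : Set (Om K)) ∪ cst K '' (E : Set K)) := fun j =>
    fin_closure_ring (hint j)
  choose c hc hcz' using h0
  obtain ⟨X, hX⟩ : ∃ X : Finset (Om K), X = Finset.univ.biUnion c := ⟨_, rfl⟩
  obtain ⟨κ, Λ, M, φ, D', hac, hFF, hzΛ, hzκ, hXM, hEκ, hφ, hdat, hdich⟩ :=
    exists_rig_data E hE hG D hDE hDk z hz X (by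
      intro w hw
      rw [hX, Finset.mem_coe, Finset.mem_biUnion] at hw
      obtain ⟨j, -, hw⟩ := hw
      obtain ⟨u, hu⟩ := hc j hw
      exact ⟨u, hu⟩) j hj1
  have hczOm : CharZero (Om K) :=
    charZero_of_injective_algebraMap (algebraMap K (Om K)).injective
  have hcz : CharZero κ := charZero_of_injective_algebraMap (algebraMap ℚ κ).injective
  obtain ⟨x, hx⟩ : ∃ x : Fin (n + 1) → Λ, ∀ j, x j = ⟨z j, hzΛ j⟩ := ⟨_, fun _ => rfl⟩
  have hxz : (fun j => ((x j : Λ) : Om K)) = z := by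
    funext j
    rw [hx]
  have hxl0 : x l0 = 1 := by
    rw [hx]
    exact Subtype.ext hl0
  have hx0 : x ≠ 0 := by
    intro h0
    rw [h0] at hxl0
    exact zero_ne_one hxl0
  have hxF : eval x (map φ F) ≠ 0 := by
    intro h0
    have h1 := eval_lift φ hφ F x
    rw [h0, hxz] at h1
    exact hzF h1.symm
  have h1 := ineqB hdat hd hx0 hxF (fun P => by
    rcases hdich P with hP | hP
    · left
      -- integrality at the moving places
      have hreg : ∀ w ∈ Subring.closure ((X : Set (Om K)) ∪ cst K '' (E : Set K)),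
          ∃ a : Λ, (a : Om K) = w ∧ Ge P 0 a := by
        intro w hw
        induction hw using Subring.closure_induction with
        | mem w hw =>
          rcases hw with hw | ⟨y, hy, rfl⟩
          · obtain ⟨m, hm, hmw⟩ := hXM w hw
            exact ⟨m, hmw, Or.inr (hP m hm).ge⟩
          · exact ⟨algebraMap κ Λ ⟨cst K y, hEκ y hy⟩, rfl, Ge.const _⟩
        | zero => exact ⟨0, rfl, Ge.zero⟩
        | one => exact ⟨1, rfl, Ge.one⟩
        | add a b _ _ ha hb =>
          obtain ⟨a', rfl, ha⟩ := ha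
          obtain ⟨b', rfl, hb⟩ := hb
          exact ⟨a' + b', rfl, ha.add hb⟩
        | neg a _ ha =>
          obtain ⟨a', rfl, ha⟩ := ha
          exact ⟨-a', rfl, ha.neg⟩
        | mul a b _ _ ha hb =>
          obtain ⟨a', rfl, ha⟩ := ha
          obtain ⟨b', rfl, hb⟩ := hb
          refine ⟨a' * b', rfl, ?_⟩
          have := ha.mul hb
          rwa [add_zero] at this
      have hreg' : ∀ j, Ge P 0 (x j ^ d / eval x (map φ F)) := by
        intro j
        obtain ⟨a, ha, haP⟩ := hreg (z j ^ d / eval z (map ((cst K).comp E.subtype) F)) (by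
          refine Subring.closure_mono (Set.union_subset_union_left _ ?_) (hcz' j)
          intro w hw
          rw [hX, Finset.mem_coe, Finset.mem_biUnion]
          exact ⟨j, Finset.mem_univ _, hw⟩)
        have h2 : x j ^ d / eval x (map φ F) = a := by
          apply Subtype.ext
          rw [ha]
          have h3 := eval_lift φ hφ F x
          rw [hxz] at h3
          rw [← h3, ← show ((x j : Λ) : Om K) = z j from congrFun hxz j]
          rfl
        rw [h2]
        exact haP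
      obtain ⟨j2, hj2, hj2P⟩ := exists_pord P (Function.ne_iff.1 hx0)
      apply le_antisymm
      · have h2 := (hreg' j2).resolve_left (div_ne_zero (pow_ne_zero _ hj2) hxF)
        rw [P.ord_div (pow_ne_zero _ hj2) hxF, P.ord_pow, hj2P] at h2
        linarith
      · obtain ⟨lam, x', hlam, hlamP, hxx, hx', -⟩ := exists_scaled P hx0
        have h2 : Ge P 0 (eval x' (map φ F)) := by
          have := ge_eval P hx' (g := 0) (p := map φ F) (fun u => by
            have := hdat.coef P u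
            rwa [neg_zero] at this)
          exact this
        have h3 : eval x (map φ F) = lam ^ d * eval x' (map φ F) := by
          rw [hxx, eval_smul_hom hdat.hom]
        have h4 : eval x' (map φ F) ≠ 0 := by
          intro h0
          rw [h3, h0, mul_zero] at hxF
          exact hxF rfl
        rw [h3, P.ord_mul (pow_ne_zero _ hlam) h4, P.ord_pow, hlamP]
        have := h2.resolve_left h4
        linarith
    · right
      intro f hf I _
      rw [sub_zero]
      exact hP I f hf)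
  simp only [add_zero, mul_zero, finsum_zero] at h1
  obtain ⟨c, hc⟩ := const_of_pht h1 hxl0 j
  apply hzκ
  have h2 := congrArg (fun w : Λ => (w : Om K)) hc
  rw [hx] at h2
  change z j = (c : Om K) at h2
  rw [h2]
  exact c.2

end Pool.Agent.TH145.GH
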