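import Pool.Agent.TH145.MG.Der
import Pool.Agent.TH145.MF.FF
import Pool.Agent.TH145.MF.Pencil

/-!
Relative algebraic closures of subfields, and derivations.
-/

set_option autoImplicit false

open FF

namespace Pool.Agent.TH145.GH

open Pool.Agent.TH145.MG

variable {K : Type} [Field K]

/-- The relative algebraic closure of the field generated by `S`. -/
noncomputable def acl (S : Set K) : Subfield K :=
  (algebraicClosure (Subfield.closure S) K).toSubfield

theorem mem_acl {S : Set K} {x : K} : x ∈ acl S ↔ IsAlgebraic (Subfield.closure S) x :=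
  mem_algebraicClosure_iff

theorem closure_le_acl (S : Set K) : Subfield.closure S ≤ acl S := fun x hx =>
  mem_acl.2 (isAlgebraic_algebraMap (⟨x, hx⟩ : Subfield.closure S))

theorem subset_acl (S : Set K) : S ⊆ acl S := fun _ hx => closure_le_acl S (Subfield.subset_closure hx)

theorem mem_acl_of_alg {S : Set K} {F : Subfield K} (h : F ≤ acl S) {x : K}
    (hx : IsAlgebraic F x) : x ∈ acl S := by
  have h1 : IsAlgebraic (acl S) x := Pool.Agent.TH145.MF.alg_mono h hx
  have h2 : IsAlgebraic (algebraicClosure (Subfield.closure S) K) x := h1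
  exact mem_acl.2 (h2.restrictScalars (Subfield.closure S))

theorem acl_le {S T : Set K} (h : S ⊆ acl T) : acl S ≤ acl T := fun _ hx =>
  mem_acl_of_alg (Subfield.closure_le.2 h) (mem_acl.1 hx)

theorem acl_mono {S T : Set K} (h : S ⊆ T) : acl S ≤ acl T :=
  acl_le (h.trans (subset_acl T))

theorem acl_isAlgClosed [IsAlgClosed K] (S : Set K) : IsAlgClosed (acl S) :=
  (algebraicClosure.isAlgClosure (Subfield.closure S) K).isAlgClosed

/-- the exchange property -/
theorem acl_exch {S : Set K} {x y : K} (h : x ∈ acl (insert y S)) (hx : x ∉ acl S) :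
    y ∈ acl (insert x S) := by
  have h1 : Transcendental (Subfield.closure S) x := fun h => hx (mem_acl.2 h)
  have h2 : ∀ z : K, (IntermediateField.adjoin (Subfield.closure S) {z}).toSubfield =
      Subfield.closure (insert z S) := by
    intro z
    rw [IntermediateField.adjoin_toSubfield]
    apply le_antisymm
    · rw [Subfield.closure_le]
      rintro w (⟨w', rfl⟩ | hw)
      · exact Subfield.closure_mono (Set.subset_insert _ _) w'.2
      · rw [Set.mem_singleton_iff] at hw
        subst hw
        exact Subfield.subset_closure (Set.mem_insert _ _)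
    · rw [Subfield.closure_le]
      rintro w (rfl | hw)
      · exact Subfield.subset_closure (Or.inr rfl)
      · exact Subfield.subset_closure (Or.inl ⟨⟨w, Subfield.subset_closure hw⟩, rfl⟩)
  have h3 : IsAlgebraic (IntermediateField.adjoin (Subfield.closure S) {y}) x := by
    have h4 := mem_acl.1 h
    rw [← h2 y] at h4
    exact h4
  have h5 := Pool.Agent.TH145.MF.exch h1 h3
  rw [mem_acl, ← h2 x]
  exact h5

/-- An algebraically closed subfield is relatively algebraically closed. -/
theorem acl_of_isAlgClosed {C : Subfield K} (hC : IsAlgClosed C) {S : Set K} (hS : S ⊆ C) :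
    acl S ≤ C := by
  intro x hx
  by_contra hxC
  have h1 := Pool.Agent.TH145.MF.transcendental_of_notMem hC hxC
  exact h1 (Pool.Agent.TH145.MF.alg_mono (Subfield.closure_le.2 hS) (mem_acl.1 hx))

theorem isDer_top (D : Derivation ℤ K K) : IsDer (⊤ : Subfield K) D :=
  ⟨fun a _ b _ => map_add D a b, fun a _ b _ => by rw [D.leibniz]; simp⟩

/-- A derivation preserves a subfield if it maps generators into it. -/
theorem der_closure (D : Derivation ℤ K K) {S : Set K} {H : Subfield K}
    (hS : ∀ s ∈ S, s ∈ H ∧ D s ∈ H) {x : K} (hx : x ∈ Subfield.closure S) : D x ∈ H := by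
  have h1 : Subfield.closure S ≤ (isDer_top D).sub H := by
    rw [Subfield.closure_le]
    intro s hs
    exact ⟨trivial, (hS s hs).1, (hS s hs).2⟩
  exact (h1 hx).2.2

/-- A derivation preserves the relative algebraic closure. -/
theorem der_acl [CharZero K] (D : Derivation ℤ K K) {S : Set K}
    (hS : ∀ s ∈ S, D s ∈ acl S) {x : K} (hx : x ∈ acl S) : D x ∈ acl S := by
  refine (isDer_top D).mem_of_alg (acl S) trivial hx ?_
  refine Pool.Agent.TH145.MF.alg_mono ?_ (mem_acl.1 hx)
  rw [Subfield.closure_le]
  intro s hs
  exact ⟨trivial, subset_acl S hs, hS s hs⟩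

/-- The restriction of a derivation to a subfield that it preserves. -/
noncomputable def resDer {κ : Subfield K} (L : IntermediateField κ K) (D : Derivation ℤ K K)
    (hD : ∀ x ∈ L, D x ∈ L) : Derivation ℤ L L where
  toFun x := ⟨D x, hD x x.2⟩
  map_add' x y := by
    apply Subtype.ext
    exact map_add D (x : K) y
  map_smul' n x := by
    apply Subtype.ext
    change D ((n • x : L) : K) = ((RingHom.id ℤ n) • (⟨D x, hD x x.2⟩ : L) : L)
    push_cast
    rw [map_zsmul]
    rfl
  map_one_eq_zero' := by
    apply Subtype.ext
    exact D.map_one_eq_zero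
  leibniz' x y := by
    apply Subtype.ext
    exact D.leibniz (x : K) y

theorem resDer_coe {κ : Subfield K} (L : IntermediateField κ K) (D : Derivation ℤ K K)
    (hD : ∀ x ∈ L, D x ∈ L) (x : L) : ((resDer L D hD x : L) : K) = D x := rfl

/-- Function fields. -/
theorem isFF_adjoin (κ : Subfield K) (hκ : IsAlgClosed κ) (hcz : CharZero κ) {θ : K} (hθ : θ ∉ κ)
    (T : Finset K) (hT : ∀ t ∈ T, IsAlgebraic (IntermediateField.adjoin κ {θ}) t) :
    IsFF κ (IntermediateField.adjoin κ (insert θ (T : Set K))) := by
  have hθt : Transcendental κ θ := Pool.Agent.TH145.MF.transcendental_of_notMem hκ hθ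
  set E : IntermediateField κ K := IntermediateField.adjoin κ {θ} with hE
  let sE : E := ⟨θ, IntermediateField.subset_adjoin _ _ rfl⟩
  have hsE : Transcendental κ sE := by
    intro h
    exact hθt (h.algebraMap : IsAlgebraic κ (algebraMap E K sE))
  have hEFF : IsFF κ E := by
    apply IsFF.of_finite (f := sE) hsE
    have h1 : IntermediateField.adjoin κ {sE} = ⊤ := by
      rw [eq_top_iff]
      rintro ⟨x, hx⟩ -
      have h2 : (IntermediateField.adjoin κ {sE}).map E.val = E := by
        rw [IntermediateField.adjoin_map, Set.image_singleton]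
        rfl
      have h3 : x ∈ (IntermediateField.adjoin κ {sE}).map E.val := by
        rw [h2]; exact hx
      obtain ⟨y, hy, hyx⟩ := h3
      have h4 : y = ⟨x, hx⟩ := Subtype.ext hyx
      rw [← h4]
      exact hy
    rw [h1]
    apply FiniteDimensional.of_finrank_pos
    rw [IntermediateField.finrank_top]
    exact one_pos
  let L0 : IntermediateField E K := IntermediateField.adjoin E (T : Set K)
  have hfin : FiniteDimensional E L0 :=
    IntermediateField.finiteDimensional_adjoin fun t ht =>
      (hT t (by simpa using ht)).isIntegral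
  have hLFF : IsFF κ L0 := Pool.Agent.W603.PV.isFF_of_finite (F := E)
  have h1 : L0.restrictScalars κ = IntermediateField.adjoin κ (insert θ (T : Set K)) := by
    change (IntermediateField.adjoin (IntermediateField.adjoin κ {θ}) (T : Set K)).restrictScalars κ
      = _
    rw [IntermediateField.adjoin_adjoin_left, Set.singleton_union]
  rw [← h1]
  exact hLFF

end Pool.Agent.TH145.GH
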