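import Pool.Agent.TH145.GH.Scale
import Pool.Agent.TH145.GH.FinB2

/-!
Integral points on the complements of generic hypersurfaces of degree `d ≥ 2 n + 2`.
-/

set_option autoImplicit false

open MvPolynomial Pool.Agent.W602.GT LinearAlgebra.Projectivization

namespace Pool.Agent.TH145.GH

/-- The points of projective space, with coordinates in the field of fractions of `R`, which are
integral over `R` with respect to the hypersurface `F = 0` of degree `d`: the values of the regular
functions `x_i ^ d / F` on the complement lie in `R`. -/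
def HypInt {K : Type} [Field K] {n : ℕ} (F : MvPolynomial (Fin (n + 1)) K) (d : ℕ)
    (R : Subring K) : Set (ℙ K (Fin (n + 1) → K)) :=
  {p | ∃ (x : Fin (n + 1) → K) (hx : x ≠ 0), p = Projectivization.mk K x hx ∧
    (∀ i, x i ∈ Subfield.closure (R : Set K)) ∧ eval x F ≠ 0 ∧
    ∀ i, x i ^ d / eval x F ∈ R}

/-- Finiteness of integral points over a ring generated by a finite set over `k0`. -/
theorem fin_points_B {k0 K : Type} [Field k0] [Field K] [Algebra k0 K] [IsAlgClosed K]
    [CharZero K] [IsAlgClosed k0] {n d : ℕ} (hd : 2 * n + 2 ≤ d)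
    {F : MvPolynomial (Fin (n + 1)) K} (hF : F.IsHomogeneous d)
    (hind : AlgebraicIndependent k0 fun I : {I : Fin (n + 1) →₀ ℕ // I.degree = d} => F.coeff I.1)
    (T : Finset K) (l0 : Fin (n + 1)) :
    {x : Fin (n + 1) → K | (∀ j, x j ∈ IntermediateField.adjoin k0 (T : Set K)) ∧ x l0 = 1 ∧
      eval x F ≠ 0 ∧ ∀ j, x j ^ d / eval x F ∈
        Subring.closure (Set.range (algebraMap k0 K) ∪ (T : Set K))}.Finite := by
  classical
  obtain ⟨B, hB, K1, y, N, E, F1, DE, Q1, D, hK1, hc, hy, h1, h2, h3, h4, h5, h6, h7, h8⟩ :=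
    exists_all (by omega) hF hind T
  have : Finite B := hB
  obtain ⟨T1, hT1, hT1T⟩ : ∃ T1 : Finset K1, (∀ t ∈ T1, t ∈ E) ∧
      ∀ t ∈ T, ∃ t1 ∈ T1, (t1 : K) = t := by
    have h9 : ∀ t : {t // t ∈ T}, ∃ e : K1, e ∈ E ∧ (e : K) = t := fun t =>
      h8 t (IntermediateField.subset_adjoin _ _ t.2)
    choose e he het using h9
    refine ⟨T.attach.image e, ?_, fun t ht => ?_⟩
    · intro t ht
      obtain ⟨s, -, rfl⟩ := Finset.mem_image.1 ht
      exact he s
    · exact ⟨_, Finset.mem_image_of_mem _ (Finset.mem_attach _ ⟨t, ht⟩), het _⟩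
  have h9 := fin_B E hy h3 D h4 h5 h6 hd l0 T1 hT1
  refine (h9.image fun x j => (x j : K)).subset ?_
  rintro x ⟨hx, hxl, hxF, hxs⟩
  choose e he hex using fun j => h8 (x j) (hx j)
  have hev : algebraMap K1 K (eval e (map E.toSubfield.subtype F1)) = eval x F := by
    rw [← h7, eval_map, eval_map]
    have h10 := hom_eval₂ F1 E.toSubfield.subtype (algebraMap K1 K) e
    rw [h10]
    congr 1
    funext j
    exact hex j
  refine ⟨e, ⟨he, ?_, ?_, fun j => ?_⟩, funext hex⟩
  · apply Subtype.ext
    rw [hex, hxl]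
    rfl
  · intro h0
    rw [h0, map_zero] at hev
    exact hxF hev.symm
  · have h10 : Subring.closure (Set.range (algebraMap k0 K) ∪ (T : Set K)) ≤
        (Subring.closure (Set.range (algebraMap k0 K1) ∪ (T1 : Set K1))).map (algebraMap K1 K) := by
      rw [Subring.closure_le]
      rintro z (⟨r, rfl⟩ | hz)
      · exact ⟨algebraMap k0 K1 r, Subring.subset_closure (Or.inl ⟨r, rfl⟩), rfl⟩
      · obtain ⟨t1, ht1, htz⟩ := hT1T z hz
        exact ⟨t1, Subring.subset_closure (Or.inr ht1), htz⟩
    obtain ⟨w, hw, hwx⟩ := h10 (hxs j)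
    have h11 : w = e j ^ d / eval e (map E.toSubfield.subtype F1) := by
      apply (algebraMap K1 K).injective
      rw [hwx, map_div₀, hev, map_pow]
      congr 2
      exact (hex j).symm
    rw [← h11]
    exact hw

/-- The same, if the ratios of the coefficients are independent. -/
theorem fin_points_B' {k0 K : Type} [Field k0] [Field K] [Algebra k0 K] [IsAlgClosed K]
    [CharZero K] [IsAlgClosed k0] {n d : ℕ} (hd : 2 * n + 2 ≤ d)
    {F : MvPolynomial (Fin (n + 1)) K} (hF : F.IsHomogeneous d) (I0 : Fin (n + 1) →₀ ℕ)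
    (h0 : F.coeff I0 ≠ 0)
    (hind : AlgebraicIndependent k0 fun I : {I : Fin (n + 1) →₀ ℕ // I.degree = d ∧ I ≠ I0} =>
      F.coeff I.1 / F.coeff I0)
    (T : Finset K) (l0 : Fin (n + 1)) :
    {x : Fin (n + 1) → K | (∀ j, x j ∈ IntermediateField.adjoin k0 (T : Set K)) ∧ x l0 = 1 ∧
      eval x F ≠ 0 ∧ ∀ j, x j ^ d / eval x F ∈
        Subring.closure (Set.range (algebraMap k0 K) ∪ (T : Set K))}.Finite := by
  classical
  obtain ⟨K', _, _, hK', hc, t, ht⟩ := exists_big K
  let _ : Algebra k0 K' := ((algebraMap K K').comp (algebraMap k0 K)).toAlgebra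
  have hst : IsScalarTower k0 K K' := IsScalarTower.of_algebraMap_eq fun _ => rfl
  have hI0 : I0.degree = d := deg_of_mem hF (mem_support_iff.2 h0)
  have := finite_deg n d
  obtain ⟨e, he⟩ : ∃ e : {i : {I : Fin (n + 1) →₀ ℕ // I.degree = d} // i ≠ ⟨I0, hI0⟩} →
      {I : Fin (n + 1) →₀ ℕ // I.degree = d ∧ I ≠ I0}, ∀ i, (e i).1 = i.1.1 :=
    ⟨fun i => ⟨i.1.1, i.1.2, fun h => i.2 (Subtype.ext h)⟩, fun _ => rfl⟩
  have hei : Function.Injective e := by
    intro i j hij
    have h1 := congrArg Subtype.val hij
    rw [he, he] at h1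
    exact Subtype.ext (Subtype.ext h1)
  have hi1 := hind.comp e hei
  have hi2 : (fun i : {i : {I : Fin (n + 1) →₀ ℕ // I.degree = d} // i ≠ ⟨I0, hI0⟩} =>
      F.coeff i.1.1 / F.coeff I0) = (fun I : {I : Fin (n + 1) →₀ ℕ // I.degree = d ∧ I ≠ I0} =>
      F.coeff I.1 / F.coeff I0) ∘ e := by
    funext i
    rw [Function.comp_apply, he]
  rw [← hi2] at hi1
  have h1 := indep_scale (k0 := k0) (K' := K')
    (fun I : {I : Fin (n + 1) →₀ ℕ // I.degree = d} => F.coeff I.1) ⟨I0, hI0⟩ h0 hi1 ht
  have h2 : (C (t / algebraMap K K' (F.coeff I0)) * map (algebraMap K K') F).IsHomogeneous d := by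
    have := (isHomogeneous_C (Fin (n + 1)) (t / algebraMap K K' (F.coeff I0))).mul
      (hF.map (algebraMap K K'))
    rwa [zero_add] at this
  have h4 : (fun I : {I : Fin (n + 1) →₀ ℕ // I.degree = d} =>
      (C (t / algebraMap K K' (F.coeff I0)) * map (algebraMap K K') F).coeff I.1) =
      fun I => t / algebraMap K K' (F.coeff I0) * algebraMap K K' (F.coeff I.1) := by
    funext I
    rw [coeff_C_mul, coeff_map]
  have h5 : AlgebraicIndependent k0 (fun I : {I : Fin (n + 1) →₀ ℕ // I.degree = d} =>
      (C (t / algebraMap K K' (F.coeff I0)) * map (algebraMap K K') F).coeff I.1) := by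
    rw [h4]
    exact h1
  have ha0 : algebraMap K K' (F.coeff I0) ≠ 0 := by
    rw [Ne, map_eq_zero]; exact h0
  have ht0 : t ≠ 0 := by
    rintro rfl
    exact ht (by
      have := isAlgebraic_algebraMap (R := K) (A := K') 0
      rwa [map_zero] at this)
  have h3 := fin_points_B (k0 := k0) hd h2 h5
    (insert (algebraMap K K' (F.coeff I0) / t) (T.image (algebraMap K K'))) l0
  have hev : ∀ x : Fin (n + 1) → K, eval (fun j => algebraMap K K' (x j))
      (C (t / algebraMap K K' (F.coeff I0)) * map (algebraMap K K') F) =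
      t / algebraMap K K' (F.coeff I0) * algebraMap K K' (eval x F) := by
    intro x
    rw [map_mul, eval_map, eval_C]
    have h5 := eval₂_comp_left (algebraMap K K') (RingHom.id K) x F
    rw [RingHom.comp_id] at h5
    congr 1
    exact h5.symm
  refine Set.Finite.of_finite_image (f := fun x j => algebraMap K K' (x j)) (h3.subset ?_) ?_
  · rintro _ ⟨x, ⟨hx, hxl, hxF, hxs⟩, rfl⟩
    refine ⟨fun j => ?_, ?_, ?_, fun j => ?_⟩
    · have h4 : (IntermediateField.adjoin k0 (T : Set K)).map (IsScalarTower.toAlgHom k0 K K') =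
          IntermediateField.adjoin k0 ((T.image (algebraMap K K') : Finset K') : Set K') := by
        rw [IntermediateField.adjoin_map, Finset.coe_image]
        rfl
      have h6 : algebraMap K K' (x j) ∈
          IntermediateField.adjoin k0 ((T.image (algebraMap K K') : Finset K') : Set K') := by
        rw [← h4]
        exact ⟨x j, hx j, rfl⟩
      refine IntermediateField.adjoin.mono _ _ _ ?_ h6
      rw [Finset.coe_insert]
      exact Set.subset_insert _ _
    · dsimp only
      rw [hxl, map_one]
    · rw [hev]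
      exact mul_ne_zero (div_ne_zero ht0 ha0) (by rw [Ne, map_eq_zero]; exact hxF)
    · rw [hev]
      have h6 : algebraMap K K' (x j) ^ d /
          (t / algebraMap K K' (F.coeff I0) * algebraMap K K' (eval x F)) =
          algebraMap K K' (F.coeff I0) / t * algebraMap K K' (x j ^ d / eval x F) := by
        rw [map_div₀, map_pow]
        have : algebraMap K K' (eval x F) ≠ 0 := by rw [Ne, map_eq_zero]; exact hxF
        field_simp
      rw [h6]
      refine mul_mem (Subring.subset_closure (Or.inr ?_)) ?_
      · rw [Finset.coe_insert]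
        exact Set.mem_insert _ _
      · have h7 : Subring.closure (Set.range (algebraMap k0 K) ∪ (T : Set K)) ≤
            (Subring.closure (Set.range (algebraMap k0 K') ∪
              ((insert (algebraMap K K' (F.coeff I0) / t) (T.image (algebraMap K K')) :
                Finset K') : Set K'))).comap (algebraMap K K') := by
          rw [Subring.closure_le]
          rintro z (⟨r, rfl⟩ | hz)
          · exact Subring.subset_closure (Or.inl ⟨r, rfl⟩)
          · refine Subring.subset_closure (Or.inr ?_)
            rw [Finset.coe_insert]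
            exact Set.mem_insert_of_mem _ (Finset.mem_image_of_mem _ hz)
        exact h7 (hxs j)
  · intro x _ x' _ hxx
    funext j
    exact (algebraMap K K').injective (congrFun hxx j)

/-- Complements of generic hypersurfaces: finiteness of integral points. -/
theorem fin_generic_B {k K : Type} [Field k] [Field K] [IsAlgClosed K] [CharZero K] [Algebra k K]
    {n d : ℕ} (hd : 2 * n + 2 ≤ d) (F : MvPolynomial (Fin (n + 1)) K) (hF : F.IsHomogeneous d)
    (I0 : Fin (n + 1) →₀ ℕ) (h0 : F.coeff I0 ≠ 0)
    (hind : AlgebraicIndependent k fun I : {I : Fin (n + 1) →₀ ℕ // I.degree = d ∧ I ≠ I0} =>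
      F.coeff I.1 / F.coeff I0) (T : Finset K) (R : Subring K)
    (hR : R ≤ Subring.closure ((algebraicClosure k K : Set K) ∪ (T : Set K))) :
    (HypInt F d R).Finite := by
  classical
  have hac : IsAlgClosed (algebraicClosure k K) := (algebraicClosure.isAlgClosure k K).isAlgClosed
  have hR' : R ≤ Subring.closure
      (Set.range (algebraMap (algebraicClosure k K) K) ∪ (T : Set K)) := by
    refine hR.trans (Subring.closure_mono (Set.union_subset_union_left _ ?_))
    intro x hx
    exact ⟨⟨x, hx⟩, rfl⟩
  have hRf : Subfield.closure (R : Set K) ≤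
      (IntermediateField.adjoin (algebraicClosure k K) (T : Set K)).toSubfield := by
    rw [Subfield.closure_le]
    refine Set.Subset.trans hR' ?_
    have h1 : Subring.closure (Set.range (algebraMap (algebraicClosure k K) K) ∪ (T : Set K)) ≤
        (IntermediateField.adjoin (algebraicClosure k K) (T : Set K)).toSubfield.toSubring := by
      rw [Subring.closure_le]
      rintro x (⟨r, rfl⟩ | hx)
      · exact (IntermediateField.adjoin (algebraicClosure k K) (T : Set K)).algebraMap_mem r
      · exact IntermediateField.subset_adjoin _ _ hx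
    exact h1
  have h1 := proj_finite (IntermediateField.adjoin (algebraicClosure k K) (T : Set K)).toSubfield
    {x | eval x F ≠ 0 ∧ ∀ i, x i ^ d / eval x F ∈
      Subring.closure (Set.range (algebraMap (algebraicClosure k K) K) ∪ (T : Set K))}
    (fun x hx a ha => by
      have h2 : eval (a • x) F = a ^ d * eval x F := eval_smul_hom hF x a
      refine ⟨?_, fun i => ?_⟩
      · rw [h2]
        exact mul_ne_zero (pow_ne_zero _ ha) hx.1
      · have h3 : (a • x) i ^ d / eval (a • x) F = x i ^ d / eval x F := by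
          rw [h2, Pi.smul_apply, smul_eq_mul, mul_pow,
            mul_div_mul_left _ _ (pow_ne_zero _ ha)]
        rw [h3]
        exact hx.2 i) fun l0 => by
      exact fin_points_B' hd hF I0 h0 hind.algebraicClosure T l0
  refine h1.subset ?_
  rintro p ⟨x, hx, hp, hxR, hxF, hxs⟩
  exact ⟨x, ⟨hxF, fun i => hR' (hxs i)⟩, fun i => hRf (hxR i), hx, hp⟩

end Pool.Agent.TH145.GH
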