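import Pool.Agent.TH145.GH.Ineq
import Pool.Agent.TH145.MG.Cnt

/-!
Forms with algebraically independent coefficients define smooth hypersurfaces.
-/

set_option autoImplicit false

open MvPolynomial

namespace Pool.Agent.TH145.GH

open Pool.Agent.TH145.MG

variable {k K : Type} [Field k] [Field K] [Algebra k K]

theorem mem_of_sum_mem {α : Type} {H : IntermediateField k K} (s : Finset α) (f : α → K) {a : α}
    (ha : a ∈ s) (h : ∑ i ∈ s, f i ∈ H) (hi : ∀ i ∈ s, i ≠ a → f i ∈ H) : f a ∈ H := by
  classical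
  rw [← Finset.add_sum_erase s f ha] at h
  have h1 : ∑ i ∈ s.erase a, f i ∈ H := sum_mem fun i hi' =>
    hi i (Finset.mem_of_mem_erase hi') (Finset.ne_of_mem_erase hi')
  have h2 := sub_mem h h1
  rwa [add_sub_cancel_right] at h2

omit [Field k] [Algebra k K] in
theorem eval_pderiv_eq {n : ℕ} (F : MvPolynomial (Fin (n + 1)) K) (z : Fin (n + 1) → K)
    (j : Fin (n + 1)) : eval z (pderiv j F) =
      ∑ u ∈ F.support, F.coeff u * u j * mon z (u - Finsupp.single j 1) := by
  conv_lhs => rw [F.as_sum]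
  rw [map_sum, map_sum]
  refine Finset.sum_congr rfl fun u _ => ?_
  rw [pderiv_monomial, eval_monomial']

/-- The gradient of a form with independent coefficients has no zeros. -/
theorem smooth_aux {n d : ℕ} [CharZero K] (hd : 0 < d) {F : MvPolynomial (Fin (n + 1)) K}
    (hF : F.IsHomogeneous d)
    (hind : AlgebraicIndependent k fun I : {I : Fin (n + 1) →₀ ℕ // I.degree = d} => F.coeff I.1)
    (z : Fin (n + 1) → K) (hz : ∀ j, eval z (pderiv j F) = 0) (l : Fin (n + 1)) (hl : z l = 1) :
    False := by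
  classical
  obtain ⟨J, hJ⟩ : ∃ J : Fin (n + 1) → Fin (n + 1) →₀ ℕ,
    ∀ j, J j = Finsupp.single l (d - 1) + Finsupp.single j 1 := ⟨_, fun _ => rfl⟩
  have hJinj : Function.Injective J := by
    intro i j hij
    rw [hJ, hJ] at hij
    exact (Finsupp.single_left_injective one_ne_zero) (add_left_cancel hij)
  have hJd : ∀ j, (J j).degree = d := by
    intro j
    rw [hJ, map_add, Finsupp.degree_single, Finsupp.degree_single]
    omega
  obtain ⟨G, hG⟩ : ∃ G : {I : Fin (n + 1) →₀ ℕ // I.degree = d ∧ ∀ j, I ≠ J j} ⊕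
    {i : Fin (n + 1) // i ≠ l} → K, G = Sum.elim (fun I => F.coeff I.1) (fun i => z i.1) :=
      ⟨_, rfl⟩
  obtain ⟨H, hH⟩ : ∃ H : IntermediateField k K, H = cl k (Set.range G) := ⟨_, rfl⟩
  have h1 : ∀ u : Fin (n + 1) →₀ ℕ, u.degree = d → (∀ j, u ≠ J j) → F.coeff u ∈ H := by
    intro u hu huJ
    rw [hH]
    exact subset_cl ⟨Sum.inl ⟨u, hu, huJ⟩, by rw [hG]; rfl⟩
  have h2 : ∀ i, z i ∈ H := by
    intro i
    by_cases hi : i = l
    · rw [hi, hl]; exact one_mem _
    · rw [hH]
      exact subset_cl ⟨Sum.inr ⟨i, hi⟩, by rw [hG]; rfl⟩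
  have h3 : ∀ u, mon z u ∈ H := fun u => prod_mem fun i _ => pow_mem (h2 i) _
  have h4 : ∀ j, j ≠ l → F.coeff (J j) ∈ H := by
    intro j hj
    by_cases hs : J j ∈ F.support
    · have h5 := mem_of_sum_mem (H := H) F.support
        (fun u => F.coeff u * u j * mon z (u - Finsupp.single j 1)) hs
        (by rw [← eval_pderiv_eq, hz j]; exact zero_mem _) (fun u hu hne => by
          by_cases hex : ∃ i, u = J i
          · obtain ⟨i, rfl⟩ := hex
            have hij : i ≠ j := fun h => hne (by rw [h])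
            have h0 : (J i) j = 0 := by
              rw [hJ, Finsupp.add_apply, Finsupp.single_eq_of_ne (by exact hj),
                Finsupp.single_eq_of_ne (by exact fun h => hij h.symm), add_zero]
            rw [h0, Nat.cast_zero, mul_zero, zero_mul]
            exact zero_mem _
          · push Not at hex
            exact mul_mem (mul_mem (h1 u (deg_of_mem hF hu) hex) (natCast_mem _ _)) (h3 _))
      have h6 : (J j) j = 1 := by
        rw [hJ, Finsupp.add_apply, Finsupp.single_eq_of_ne (by exact hj), Finsupp.single_eq_same,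
          zero_add]
      have h7 : J j - Finsupp.single j 1 = Finsupp.single l (d - 1) := by
        rw [hJ, add_tsub_cancel_right]
      rw [h6, h7, mon_single, hl, one_pow, mul_one, Nat.cast_one, mul_one] at h5
      exact h5
    · rw [notMem_support_iff.1 hs]; exact zero_mem _
  have hF0 : eval z F = 0 := by
    have h5 := congrArg (eval z) hF.sum_X_mul_pderiv
    rw [map_sum, nsmul_eq_mul, map_mul, map_natCast] at h5
    have h6 : ∑ i, eval z (X i * pderiv i F) = 0 :=
      Finset.sum_eq_zero fun i _ => by rw [map_mul, hz, mul_zero]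
    rw [h6] at h5
    rcases mul_eq_zero.1 h5.symm with h | h
    · exact absurd (Nat.cast_eq_zero.1 h) (by omega)
    · exact h
  have h5 : F.coeff (J l) ∈ H := by
    by_cases hs : J l ∈ F.support
    · have h5 := mem_of_sum_mem (H := H) F.support (fun u => F.coeff u * mon z u) hs
        (by rw [← eval_mon, hF0]; exact zero_mem _) (fun u hu hne => by
          refine mul_mem ?_ (h3 _)
          by_cases hex : ∃ i, u = J i
          · obtain ⟨i, rfl⟩ := hex
            exact h4 i fun h => hne (by rw [h])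
          · push Not at hex
            exact h1 u (deg_of_mem hF hu) hex)
      have h6 : mon z (J l) = 1 := by
        rw [hJ, mon_add, mon_single, mon_single, hl, one_pow, one_pow, one_mul]
      rw [h6, mul_one] at h5
      exact h5
    · rw [notMem_support_iff.1 hs]; exact zero_mem _
  have h6 : ∀ I : {I : Fin (n + 1) →₀ ℕ // I.degree = d}, F.coeff I.1 ∈ cl k (Set.range G) := by
    rintro ⟨I, hI⟩
    rw [← hH]
    by_cases hex : ∃ i, I = J i
    · obtain ⟨i, rfl⟩ := hex
      by_cases hi : i = l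
      · subst hi; exact h5
      · exact h4 i hi
    · push Not at hex
      exact h1 I hI hex
  have hfin : {I : Fin (n + 1) →₀ ℕ | I.degree = d}.Finite :=
    (Finsupp.finite_of_degree_le d).subset fun I hI => le_of_eq hI
  have hfin1 : Finite {I : Fin (n + 1) →₀ ℕ // I.degree = d} := hfin
  have hfin2 : Finite {I : Fin (n + 1) →₀ ℕ // I.degree = d ∧ ∀ j, I ≠ J j} :=
    hfin.subset fun I hI => hI.1
  have h7 := card_le _ hind G h6
  have h8 : Nat.card ({I : Fin (n + 1) →₀ ℕ // I.degree = d ∧ ∀ j, I ≠ J j} ⊕ Fin (n + 1)) ≤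
      Nat.card {I : Fin (n + 1) →₀ ℕ // I.degree = d} := by
    refine Nat.card_le_card_of_injective
      (Sum.elim (fun I => ⟨I.1, I.2.1⟩) (fun j => ⟨J j, hJd j⟩)) ?_
    rintro (I | i) (I' | i') h
    · simp only [Sum.elim_inl, Subtype.mk.injEq] at h
      exact congrArg Sum.inl (Subtype.ext h)
    · simp only [Sum.elim_inl, Sum.elim_inr, Subtype.mk.injEq] at h
      exact absurd h (I.2.2 i')
    · simp only [Sum.elim_inl, Sum.elim_inr, Subtype.mk.injEq] at h
      exact absurd h.symm (I'.2.2 i)
    · simp only [Sum.elim_inr, Subtype.mk.injEq] at h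
      exact congrArg Sum.inr (hJinj h)
  have h9 : Nat.card {i : Fin (n + 1) // i ≠ l} = n := by
    rw [Nat.card_eq_fintype_card]
    simp
  rw [Nat.card_sum, Nat.card_fin] at h8
  rw [Nat.card_sum, h9] at h7
  omega

/-- The gradient of a form with independent coefficients has no zeros. -/
theorem smooth_of_indep {n d : ℕ} [CharZero K] (hd : 0 < d) {F : MvPolynomial (Fin (n + 1)) K}
    (hF : F.IsHomogeneous d)
    (hind : AlgebraicIndependent k fun I : {I : Fin (n + 1) →₀ ℕ // I.degree = d} => F.coeff I.1)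
    (z : Fin (n + 1) → K) (hz : ∀ j, eval z (pderiv j F) = 0) : z = 0 := by
  by_contra hz0
  obtain ⟨l, hl⟩ : ∃ l, z l ≠ 0 := Function.ne_iff.1 hz0
  refine smooth_aux hd hF hind ((z l)⁻¹ • z) (fun j => ?_) l ?_
  · have h1 : (pderiv j F).IsHomogeneous (d - 1) := hF.pderiv
    rw [eval_smul_hom h1, hz, mul_zero]
  · rw [Pi.smul_apply, smul_eq_mul, inv_mul_cancel₀ hl]

/-- The Nullstellensatz for the gradient of a form with independent coefficients. -/
theorem exists_null {n d : ℕ} [CharZero K] [IsAlgClosed K] (hd : 0 < d)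
    {F : MvPolynomial (Fin (n + 1)) K} (hF : F.IsHomogeneous d)
    (hind : AlgebraicIndependent k fun I : {I : Fin (n + 1) →₀ ℕ // I.degree = d} => F.coeff I.1) :
    ∃ (N : ℕ) (Q : Fin (n + 1) → Fin (n + 1) → MvPolynomial (Fin (n + 1)) K),
      ∀ l, X l ^ N = ∑ i, Q l i * pderiv i F := by
  classical
  obtain ⟨I, hI⟩ : ∃ I : Ideal (MvPolynomial (Fin (n + 1)) K),
    I = Ideal.span (Set.range fun i => pderiv i F) := ⟨_, rfl⟩
  have h1 : ∀ l, X l ∈ I.radical := by
    intro l
    rw [← vanishingIdeal_zeroLocus_eq_radical (K := K)]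
    intro z hz
    have h2 : z = 0 := by
      refine smooth_of_indep hd hF hind z fun j => ?_
      have h3 : pderiv j F ∈ I := by
        rw [hI]; exact Ideal.subset_span ⟨j, rfl⟩
      have h4 := hz _ h3
      rwa [aeval_eq_eval] at h4
    rw [h2, aeval_X]
    rfl
  choose N hN using h1
  refine ⟨∑ l, N l, ?_⟩
  have h2 : ∀ l, ∃ Q : Fin (n + 1) → MvPolynomial (Fin (n + 1)) K,
      X l ^ (∑ l, N l) = ∑ i, Q i * pderiv i F := by
    intro l
    have h3 : (X l : MvPolynomial (Fin (n + 1)) K) ^ (∑ l, N l) ∈ I := by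
      have h4 : ∑ l, N l = (∑ l, N l - N l) + N l := by
        have := Finset.single_le_sum (f := N) (fun _ _ => Nat.zero_le _) (Finset.mem_univ l)
        omega
      rw [h4, pow_add]
      exact I.mul_mem_left _ (hN l)
    rw [hI, Ideal.mem_span_range_iff_exists_fun] at h3
    obtain ⟨c, hc⟩ := h3
    exact ⟨c, hc.symm⟩
  choose Q hQ using h2
  exact ⟨Q, hQ⟩

end Pool.Agent.TH145.GH
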