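import Pool.Agent.TH145.GH.FinA
import Pool.Agent.TH145.GH.Smooth
import Pool.Agent.W602.GT.Der

/-!
The finitely generated fields, and derivations dual to the coefficients of the form.
-/

set_option autoImplicit false

open MvPolynomial

namespace Pool.Agent.TH145.GH

/-- The algebraic closure of a finitely generated field. -/
theorem exists_closed {k0 K α : Type} [Field k0] [Field K] [Algebra k0 K] [IsAlgClosed K]
    [Finite α] {a : α → K} (ha : AlgebraicIndependent k0 a) (T : Finset K) :
    ∃ (B : Set K) (_ : B.Finite) (K1 : IntermediateField (IntermediateField.adjoin k0 B) K)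
      (y : B → K1) (s : α → B), IsAlgClosed K1 ∧ IsTranscendenceBasis k0 y ∧
        (∀ i, (y (s i) : K) = a i) ∧ Function.Injective s ∧ ∀ t ∈ T, t ∈ K1 := by
  classical
  have h1 : (AlgebraicIndependent.matroid k0 K).Indep (Set.range a) := ha.to_subtype_range
  obtain ⟨B, hB, haB⟩ := h1.subset_isBasis_of_subset (X := Set.range a ∪ (T : Set K))
    Set.subset_union_left (by
      intro x _
      simp)
  have hBf : B.Finite := ((Set.finite_range a).union T.finite_toSet).subset hB.subset
  rw [AlgebraicIndependent.matroid_isBasis_iff] at hB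
  obtain ⟨hBi, hBs, hBa⟩ := hB
  refine ⟨B, hBf, algebraicClosure (IntermediateField.adjoin k0 B) K,
    fun b => ⟨b, mem_algebraicClosure_iff.2 (isAlgebraic_algebraMap
      (⟨b, IntermediateField.subset_adjoin _ _ b.2⟩ : IntermediateField.adjoin k0 B))⟩,
    fun i => ⟨a i, haB ⟨i, rfl⟩⟩, ?_, ?_, fun _ => rfl, ?_, ?_⟩
  · exact (algebraicClosure.isAlgClosure _ K).isAlgClosed
  · obtain ⟨y0, hy0⟩ : ∃ y0 : B → IntermediateField.adjoin k0 B,
      ∀ b, (y0 b : K) = b := ⟨fun b => ⟨b, IntermediateField.subset_adjoin _ _ b.2⟩, fun _ => rfl⟩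
    have h2 : IntermediateField.adjoin k0 (Set.range y0) = ⊤ := by
      rw [eq_top_iff]
      rintro ⟨x, hx⟩ -
      have h2 : (IntermediateField.adjoin k0 (Set.range y0)).map
          (IntermediateField.adjoin k0 B).val = IntermediateField.adjoin k0 B := by
        rw [IntermediateField.adjoin_map]
        congr 1
        ext z
        constructor
        · rintro ⟨_, ⟨b, rfl⟩, rfl⟩
          change (y0 b : K) ∈ B
          rw [hy0]
          exact b.2
        · intro hz
          exact ⟨_, ⟨⟨z, hz⟩, rfl⟩, hy0 _⟩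
      have h3 : x ∈ (IntermediateField.adjoin k0 (Set.range y0)).map
          (IntermediateField.adjoin k0 B).val := by rw [h2]; exact hx
      obtain ⟨w, hw, hwx⟩ := h3
      have h4 : w = ⟨x, hx⟩ := Subtype.ext hwx
      rw [← h4]
      exact hw
    have h3 : IsTranscendenceBasis k0 y0 := by
      rw [isTranscendenceBasis_iff_algebraicIndependent_isAlgebraic]
      refine ⟨?_, ?_⟩
      · refine AlgebraicIndependent.of_comp (IntermediateField.adjoin k0 B).val ?_
        have h4 : (IntermediateField.adjoin k0 B).val ∘ y0 = fun b : B => (b : K) := by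
          funext b
          exact hy0 b
        rw [h4]
        exact hBi
      · rw [← IntermediateField.isAlgebraic_adjoin_iff_top, h2]
        exact ⟨fun x => isAlgebraic_algebraMap (⟨x, trivial⟩ :
          (⊤ : IntermediateField k0 (IntermediateField.adjoin k0 B)))⟩
    have h4 := h3.algebraMap_comp (A := algebraicClosure (IntermediateField.adjoin k0 B) K)
    convert h4 using 1
    funext b
    apply Subtype.ext
    exact (hy0 b).symm
  · intro i j hij
    exact ha.injective (congrArg Subtype.val hij)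
  · intro t ht
    have h2 := hBa t (Or.inr ht)
    rw [← IntermediateField.isAlgebraic_adjoin_iff] at h2
    exact mem_algebraicClosure_iff.2 h2

theorem lift_poly' {σ K L : Type} [Field K] [Field L] (f : L →+* K) (p : MvPolynomial σ K)
    (h : ∀ u, p.coeff u ∈ Set.range f) : ∃ p0 : MvPolynomial σ L, map f p0 = p := by
  have h1 : p ∈ Set.range (map (σ := σ) f) := by
    rw [mem_range_map_iff_coeffs_subset]
    intro c hc
    rw [Finset.mem_coe, mem_coeffs_iff] at hc
    obtain ⟨u, -, rfl⟩ := hc
    exact h u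
  exact h1

theorem lift_poly {σ K : Type} [Field K] (E : Subfield K) (p : MvPolynomial σ K)
    (h : ∀ u, p.coeff u ∈ E) : ∃ p0 : MvPolynomial σ E, map E.subtype p0 = p := by
  have h1 : p ∈ Set.range (map (σ := σ) E.subtype) := by
    rw [mem_range_map_iff_coeffs_subset]
    intro c hc
    rw [Finset.mem_coe, mem_coeffs_iff] at hc
    obtain ⟨u, -, rfl⟩ := hc
    exact ⟨⟨_, h u⟩, rfl⟩
  exact h1

/-- The finite Galois extension, and the dual derivations. -/
theorem exists_setup {k0 K ι : Type} [Field k0] [Field K] [Algebra k0 K] [IsAlgClosed K]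
    [CharZero K] {y : ι → K} (hy : IsTranscendenceBasis k0 y) {n d N : ℕ} (hd : 0 < d)
    {F : MvPolynomial (Fin (n + 1)) K} (hF : F.IsHomogeneous d)
    (s : {I : Fin (n + 1) →₀ ℕ // I.degree = d} → ι) (hs : Function.Injective s)
    (hFs : ∀ I, F.coeff I.1 = y (s I))
    (Q : Fin (n + 1) → Fin (n + 1) → MvPolynomial (Fin (n + 1)) K)
    (hQ : ∀ l, X l ^ N = ∑ i, Q l i * pderiv i F) (T : Finset K) :
    ∃ (E : IntermediateField (IntermediateField.adjoin k0 (Set.range y)) K)
      (F1 : MvPolynomial (Fin (n + 1)) E.toSubfield)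
      (DE : (Fin (n + 1) →₀ ℕ) → E.toSubfield → E.toSubfield)
      (Q1 : Fin (n + 1) → Fin (n + 1) → MvPolynomial (Fin (n + 1)) E.toSubfield)
      (D : (Fin (n + 1) →₀ ℕ) → Derivation ℤ K K),
      FiniteDimensional (IntermediateField.adjoin k0 (Set.range y)) E ∧
      IsGalois (IntermediateField.adjoin k0 (Set.range y)) E ∧ Gen F1 d DE N Q1 ∧
      (∀ I (x : E.toSubfield), D I x = (DE I x : K)) ∧
      (∀ I (r : k0), D I (algebraMap k0 K r) = 0) ∧
      (∀ I j, ∃ r : k0, D I (y j) = algebraMap k0 K r) ∧
      map E.toSubfield.subtype F1 = F ∧ ∀ t ∈ T, t ∈ E := by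
  classical
  have hck : CharZero k0 := by
    constructor
    intro a b hab
    have h1 := congrArg (algebraMap k0 K) hab
    rw [map_natCast, map_natCast] at h1
    exact Nat.cast_injective h1
  set R := IntermediateField.adjoin k0 (Set.range y) with hR
  have hcR : CharZero R := charZero_of_injective_algebraMap (algebraMap k0 R).injective
  have halg : Algebra.IsAlgebraic R K := hy.isAlgebraic_field
  obtain ⟨T', hT'⟩ : ∃ T' : Finset K, T' = T ∪ Finset.univ.biUnion
    fun p : Fin (n + 1) × Fin (n + 1) => (Q p.1 p.2).support.image fun u => (Q p.1 p.2).coeff u :=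
      ⟨_, rfl⟩
  have hfin0 : FiniteDimensional R (IntermediateField.adjoin R (T' : Set K)) := by
    have : Finite (T' : Set K) := T'.finite_toSet
    exact IntermediateField.finiteDimensional_adjoin fun x _ =>
      (halg.isAlgebraic x).isIntegral
  obtain ⟨E, hE⟩ : ∃ E : IntermediateField R K,
    E = IntermediateField.normalClosure R (IntermediateField.adjoin R (T' : Set K)) K := ⟨_, rfl⟩
  have hclo : IsAlgClosure R K := ⟨inferInstance, halg⟩
  have hnK : Normal R K := IsAlgClosure.normal R K
  have hfin : FiniteDimensional R E := by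
    rw [hE]; infer_instance
  have hnE : Normal R E := by
    rw [hE]; infer_instance
  have hgal : IsGalois R E := { }
  have hTE : ∀ t ∈ T', t ∈ E := by
    intro t ht
    rw [hE]
    exact (IntermediateField.le_normalClosure _) (IntermediateField.subset_adjoin _ _ ht)
  -- the derivations
  have hD : ∀ I : Fin (n + 1) →₀ ℕ, ∃ D : Derivation k0 K K, ∀ j, D (y j) =
      if ∃ h : I.degree = d, s ⟨I, h⟩ = j then 1 else 0 := fun I =>
    Pool.Agent.W602.GT.exists_der y hy _
  choose D hD using hD
  have hD' : ∀ I (r : k0), D I (algebraMap k0 K r) = 0 := fun I r => (D I).map_algebraMap r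
  have hDy : ∀ I j, ∃ r : k0, D I (y j) = algebraMap k0 K r := by
    intro I j
    rw [hD]
    split_ifs
    · exact ⟨1, (map_one _).symm⟩
    · exact ⟨0, (map_zero _).symm⟩
  have hDR : ∀ I x, x ∈ R.toSubfield → (D I).restrictScalars ℤ x ∈ R.toSubfield := by
    intro I x hx
    rw [hR, IntermediateField.adjoin_toSubfield] at hx
    refine der_closure ((D I).restrictScalars ℤ) ?_ hx
    rintro z (⟨r, rfl⟩ | ⟨j, rfl⟩)
    · refine ⟨R.algebraMap_mem r, ?_⟩
      change D I _ ∈ _
      rw [hD']
      exact zero_mem _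
    · refine ⟨IntermediateField.subset_adjoin _ _ ⟨j, rfl⟩, ?_⟩
      change D I _ ∈ _
      obtain ⟨r, hr⟩ := hDy I j
      rw [hr]
      exact R.algebraMap_mem r
  have hDE : ∀ I x, x ∈ E.toSubfield → (D I).restrictScalars ℤ x ∈ E.toSubfield := by
    intro I x hx
    refine (isDer_top ((D I).restrictScalars ℤ)).mem_of_alg E.toSubfield trivial hx ?_
    have h1 : IsAlgebraic R.toSubfield x := halg.isAlgebraic x
    refine Pool.Agent.TH145.MF.alg_mono ?_ h1
    intro z hz
    exact ⟨trivial, E.algebraMap_mem ⟨z, hz⟩, E.algebraMap_mem ⟨_, hDR I z hz⟩⟩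
  have hFE : ∀ u, F.coeff u ∈ E.toSubfield := by
    intro u
    by_cases hu : u ∈ F.support
    · rw [hFs ⟨u, deg_of_mem hF hu⟩]
      exact E.algebraMap_mem ⟨_, IntermediateField.subset_adjoin _ _ ⟨_, rfl⟩⟩
    · rw [notMem_support_iff.1 hu]; exact zero_mem _
  have hQE : ∀ l i u, (Q l i).coeff u ∈ E.toSubfield := by
    intro l i u
    by_cases hu : u ∈ (Q l i).support
    · refine hTE _ ?_
      rw [hT']
      refine Finset.mem_union_right _ (Finset.mem_biUnion.2 ⟨(l, i), Finset.mem_univ _, ?_⟩)
      exact Finset.mem_image.2 ⟨u, hu, rfl⟩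
    · rw [notMem_support_iff.1 hu]; exact zero_mem _
  obtain ⟨F1, hF1⟩ := lift_poly E.toSubfield F hFE
  choose Q1 hQ1 using fun l i => lift_poly E.toSubfield (Q l i) (hQE l i)
  have hinj : Function.Injective (map (σ := Fin (n + 1)) E.toSubfield.subtype) :=
    map_injective _ Subtype.val_injective
  refine ⟨E, F1, fun I x => ⟨_, hDE I x x.2⟩, Q1, fun I => (D I).restrictScalars ℤ, hfin, hgal,
    ⟨hd, ?_, ?_, ?_⟩, fun _ _ => rfl, hD', hDy, hF1, fun t ht => hTE t ?_⟩
  · refine MvPolynomial.IsHomogeneous.of_map (f := E.toSubfield.subtype) Subtype.val_injective ?_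
    rw [hF1]
    exact hF
  · intro I J hI hJ
    have h1 : ((F1.coeff J : E.toSubfield) : K) = y (s ⟨J, hJ⟩) := by
      rw [← hFs, ← hF1, coeff_map]
      rfl
    constructor
    · intro hIJ
      apply Subtype.ext
      change D I ((F1.coeff J : E.toSubfield) : K) = 1
      rw [h1, hD, if_pos]
      subst hIJ
      exact ⟨hI, rfl⟩
    · intro hIJ
      apply Subtype.ext
      change D I ((F1.coeff J : E.toSubfield) : K) = 0
      rw [h1, hD, if_neg]
      rintro ⟨h2, h3⟩
      exact hIJ (congrArg Subtype.val (hs h3))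
  · intro l
    apply hinj
    rw [map_pow, map_X, hQ l, map_sum]
    refine Finset.sum_congr rfl fun i _ => ?_
    rw [map_mul, hQ1, ← hF1, pderiv_map]
  · rw [hT']
    exact Finset.mem_union_left _ ht

end Pool.Agent.TH145.GH
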