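import Pool.Agent.TH145.MG.Bdd
import Pool.Agent.W603.CX.Basic

/-!
Coprime polynomials, and the heights of their quotients.
-/

set_option autoImplicit false

open Polynomial FF Pool.Agent.W603.LV

open scoped nonZeroDivisors

namespace Pool.Agent.TH145.GH

/-- Coprime polynomials over a unique factorisation domain are coprime over a field. -/
theorem isCoprime_map {A κ : Type} [CommRing A] [IsDomain A] [IsGCDMonoid A] [Field κ]
    (φ : A →+* κ) (hφ : Function.Injective φ) {p q : A[X]} (h : IsRelPrime p q) :
    IsCoprime (p.map φ) (q.map φ) := by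
  let : NormalizedGCDMonoid A := Nonempty.some inferInstance
  obtain ⟨F, hF⟩ : ∃ F, F = FractionRing A := ⟨_, rfl⟩
  have h1 : IsCoprime (p.map (algebraMap A (FractionRing A)))
      (q.map (algebraMap A (FractionRing A))) := by
    apply IsRelPrime.isCoprime
    intro d hdp hdq
    by_cases hd0 : d = 0
    · exfalso
      rw [hd0, zero_dvd_iff] at hdp hdq
      have h2 : p = 0 := (Polynomial.map_eq_zero_iff (IsFractionRing.injective A _)).1 hdp
      have h3 : q = 0 := (Polynomial.map_eq_zero_iff (IsFractionRing.injective A _)).1 hdq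
      rw [h2, h3] at h
      exact not_isUnit_zero (h dvd_rfl dvd_rfl)
    obtain ⟨b, hb0, hb⟩ := IsLocalization.integerNormalization_spec A⁰ d
    obtain ⟨g, hg⟩ : ∃ g, g = (IsLocalization.integerNormalization A⁰ d).primPart := ⟨_, rfl⟩
    have hgp : g.IsPrimitive := hg ▸ isPrimitive_primPart _
    have hdvd : ∀ r : A[X], d ∣ r.map (algebraMap A (FractionRing A)) → g ∣ r := by
      intro r hr
      apply hgp.dvd_of_fraction_map_dvd_fraction_map (K := FractionRing A)
      have h2 : g.map (algebraMap A (FractionRing A)) ∣ b • d := by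
        rw [← hb, hg]
        exact Polynomial.map_dvd _ (primPart_dvd _)
      have h3 : (b • d) ∣ r.map (algebraMap A (FractionRing A)) := by
        rw [← algebraMap_smul (FractionRing A) b d, ← C_mul']
        have h4 : IsUnit (C (algebraMap A (FractionRing A) b)) := by
          rw [isUnit_C, isUnit_iff_ne_zero]
          intro h0
          exact nonZeroDivisors.ne_zero hb0
            ((injective_iff_map_eq_zero _).1 (IsFractionRing.injective A _) _ h0)
        exact (h4.mul_left_dvd).2 hr
      exact h2.trans h3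
    have h2 : IsUnit g := h (hdvd p hdp) (hdvd q hdq)
    exact isUnit_or_eq_zero_of_isUnit_integerNormalization_primPart hd0 (hg ▸ h2)
  have h2 := h1.map (mapRingHom (IsFractionRing.lift hφ : FractionRing A →+* κ))
  rw [coe_mapRingHom, map_map, map_map] at h2
  have h3 : (IsFractionRing.lift hφ : FractionRing A →+* κ).comp (algebraMap A (FractionRing A)) =
      φ := by
    ext a
    rw [RingHom.comp_apply, IsFractionRing.lift_algebraMap]
  rwa [h3] at h2

variable {k K : Type} [Field k] [Field K] [Algebra k K]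

/-- The order of a polynomial at a pole of the variable. -/
theorem ord_aeval_pole (P : Place k K) {t : K} (ht : P.ord t < 0) (p : k[X]) (hp : p ≠ 0) :
    aeval t p ≠ 0 ∧ P.ord (aeval t p) = p.natDegree * P.ord t := by
  have ht0 : t ≠ 0 := by
    rintro rfl
    rw [P.ord_zero] at ht
    exact lt_irrefl _ ht
  rw [aeval_eq_sum_range, Finset.sum_range_succ]
  have h1 : Ge P (p.natDegree * P.ord t + 1) (∑ i ∈ Finset.range p.natDegree, p.coeff i • t ^ i) := by
    refine Ge.sum _ _ fun i hi => ?_
    rw [Algebra.smul_def]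
    have h2 : Ge P (P.ord t) t := Or.inr le_rfl
    have h3 := (Ge.const (P := P) (p.coeff i)).mul (h2.pow i)
    refine h3.mono ?_
    have h4 : (i : ℤ) + 1 ≤ p.natDegree := by exact_mod_cast Finset.mem_range.1 hi
    nlinarith
  have hc : p.coeff p.natDegree ≠ 0 := by
    rw [coeff_natDegree]
    exact leadingCoeff_ne_zero.2 hp
  have h2 : p.coeff p.natDegree • t ^ p.natDegree ≠ 0 := smul_ne_zero hc (pow_ne_zero _ ht0)
  have h3 : P.ord (p.coeff p.natDegree • t ^ p.natDegree) = p.natDegree * P.ord t := by
    rw [Algebra.smul_def, P.ord_mul ((_root_.map_ne_zero _).2 hc) (pow_ne_zero _ ht0),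
      P.ord_const hc, P.ord_pow, zero_add]
  rcases h1 with h1 | h1
  · rw [h1, zero_add]
    exact ⟨h2, h3⟩
  · by_cases h4 : ∑ i ∈ Finset.range p.natDegree, p.coeff i • t ^ i = 0
    · rw [h4, zero_add]
      exact ⟨h2, h3⟩
    · rw [add_comm]
      have h5 := P.ord_add_eq h2 h4 (by rw [h3]; omega)
      rw [h3] at h5
      exact h5

variable [IsAlgClosed k] [CharZero k] [IsFF k K]

theorem one_le_hgt {t : K} (ht : Transcendental k t) : 1 ≤ hgt k t := by
  by_contra hcon
  push Not at hcon
  obtain ⟨c, hc⟩ := const_of_hgt (k := k) (f := t) (by omega)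
  apply ht
  rw [hc]
  exact isAlgebraic_algebraMap c

theorem natDegree_le_hgt {t : K} (ht : Transcendental k t) (p : k[X]) (hp : p ≠ 0) :
    (p.natDegree : ℤ) ≤ hgt k (aeval t p) := by
  classical
  obtain ⟨T, hT⟩ := exists_supp (k := k) (Finset.univ : Finset (Fin 2)) ![t, aeval t p]
  have h1 : ∀ P : Place k K, P.ord t ≠ 0 → P ∈ T := fun P => hT 0 (Finset.mem_univ _) P
  have h2 : ∀ P : Place k K, P.ord (aeval t p) ≠ 0 → P ∈ T := fun P => hT 1 (Finset.mem_univ _) P
  have h3 : (p.natDegree : ℤ) * hgt k t ≤ hgt k (aeval t p) := by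
    rw [hgt_finset _ T h1, hgt_finset _ T h2, Finset.mul_sum]
    refine Finset.sum_le_sum fun P _ => ?_
    by_cases hP : P.ord t < 0
    · rw [(ord_aeval_pole P hP p hp).2]
      rw [max_eq_left (by omega)]
      have h4 : (p.natDegree : ℤ) * -P.ord t = -(p.natDegree * P.ord t) := by ring
      rw [h4]
      exact le_max_left _ _
    · push Not at hP
      rw [max_eq_right (by omega), mul_zero]
      exact le_max_right _ _
  have h4 := one_le_hgt ht
  nlinarith

theorem coprime_hgt {t : K} (ht : Transcendental k t) {p q : k[X]} (h : IsCoprime p q)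
    (hp : p ≠ 0) (hq : q ≠ 0) : (q.natDegree : ℤ) ≤ hgt k (aeval t p / aeval t q) := by
  classical
  have hinj : Function.Injective (aeval t : k[X] →ₐ[k] K) := transcendental_iff_injective.1 ht
  have hp0 : aeval t p ≠ 0 := (map_ne_zero_iff _ hinj).2 hp
  have hq0 : aeval t q ≠ 0 := (map_ne_zero_iff _ hinj).2 hq
  refine (natDegree_le_hgt ht q hq).trans ?_
  rw [← hgt_inv (k := k) (aeval t q)]
  obtain ⟨T, hT⟩ := exists_supp (k := k) (Finset.univ : Finset (Fin 2))
    ![(aeval t q)⁻¹, aeval t p / aeval t q]
  have h1 : ∀ P : Place k K, P.ord (aeval t q)⁻¹ ≠ 0 → P ∈ T := fun P => hT 0 (Finset.mem_univ _) P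
  have h2 : ∀ P : Place k K, P.ord (aeval t p / aeval t q) ≠ 0 → P ∈ T :=
    fun P => hT 1 (Finset.mem_univ _) P
  rw [hgt_finset _ T h1, hgt_finset _ T h2]
  refine Finset.sum_le_sum fun P _ => ?_
  rw [P.ord_inv, P.ord_div hp0 hq0]
  by_cases hP : 0 < P.ord (aeval t q)
  · -- the variable is regular
    have htP : Ge P 0 t := by
      right
      by_contra hcon
      push Not at hcon
      have h3 := (ord_aeval_pole P hcon q hq).2
      rw [h3] at hP
      have h4 : (0 : ℤ) ≤ q.natDegree := by positivity
      nlinarith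
    obtain ⟨a, b, hab⟩ := h
    have h3 := congrArg (aeval t) hab
    rw [map_add, map_mul, map_mul, map_one] at h3
    have h4 : P.ord (aeval t p) = 0 := by
      have h5 : Ge P 0 (aeval t p) := ge_aeval P htP p
      have h6 := h5.resolve_left hp0
      by_contra hne
      have h7 : Ge P 1 (aeval t p) := Or.inr (by omega)
      have h8 : Ge P 1 (aeval t q) := Or.inr (by omega)
      have h9 : Ge P 1 (1 : K) := by
        rw [← h3]
        refine Ge.add ?_ ?_
        · have := (ge_aeval P htP a).mul h7
          rwa [zero_add] at this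
        · have := (ge_aeval P htP b).mul h8
          rwa [zero_add] at this
      rcases h9 with h9 | h9
      · exact one_ne_zero h9
      · rw [P.ord_one] at h9; omega
    rw [h4]
    exact max_le_max (by omega) le_rfl
  · push Not at hP
    rw [max_eq_right (a := -(-P.ord (aeval t q))) (by omega)]
    exact le_max_right _ _

theorem coprime_hgt' {t : K} (ht : Transcendental k t) {p q : k[X]} (h : IsCoprime p q)
    (hp : p ≠ 0) (hq : q ≠ 0) : (p.natDegree : ℤ) ≤ hgt k (aeval t p / aeval t q) := by
  have h1 := coprime_hgt ht h.symm hq hp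
  rwa [← hgt_inv, inv_div] at h1

end Pool.Agent.TH145.GH
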