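import Pool.Agent.TH145.GH.KL

/-!
The loss of a derivation of a function field that preserves the field of constants.
-/

set_option autoImplicit false

open Polynomial FF Pool.Agent.W603.LV

namespace Pool.Agent.TH145.GH

variable {k K : Type*} [Field k] [Field K] [Algebra k K] [CharZero k] [IsFF k K] [IsAlgClosed k]

theorem exists_loss {D : Derivation ℤ K K} (hS : Sem k D) : ∃ e : Place k K → ℤ,
    (∀ P, 0 ≤ e P) ∧ {P | e P ≠ 0}.Finite ∧ ∀ P f, Ge P 0 f → Ge P (-e P) (D f) := by
  classical
  obtain ⟨δ, hδ⟩ := exists_der (k := k) (K := K)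
  obtain ⟨t, ht⟩ := IsFF.exists_transcendental (k := k) (K := K)
  have hfin : ({P : Place k K | P.ord t ≠ 0} ∪ {P | vo P δ ≠ 0} ∪
      {P | P.ord (δ t) ≠ 0} ∪ {P | P.ord (D t) ≠ 0}).Finite :=
    (((finite_support t).union (vo_finite hδ)).union (finite_support _)).union
      (finite_support _)
  refine ⟨fun P => if P ∈ ({P : Place k K | P.ord t ≠ 0} ∪ {P | vo P δ ≠ 0} ∪
      {P | P.ord (δ t) ≠ 0} ∪ {P | P.ord (D t) ≠ 0}) then max (- P.ord (D (unif P))) 0 else 0,
      ?_, ?_, ?_⟩
  · intro P
    dsimp only
    split_ifs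
    · exact le_max_right _ _
    · exact le_rfl
  · refine hfin.subset fun P hP => ?_
    by_contra hcon
    exact hP (if_neg hcon)
  · intro P f hf
    dsimp only
    split_ifs with h
    · refine reg_of_unif P (ord_unif P) hS (by have := le_max_right (- P.ord (D (unif P))) 0; omega)
        ?_ hf
      right
      have := le_max_left (- P.ord (D (unif P))) 0
      omega
    · simp only [Set.mem_union, Set.mem_ofPred_eq, not_or, not_not] at h
      obtain ⟨⟨⟨h1, h2⟩, h3⟩, h4⟩ := h
      have ht0 : Ge P 0 t := Or.inr h1.ge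
      obtain ⟨c, hc⟩ := exists_const P ht0
      have hc0 : t - algebraMap k K c ≠ 0 := by
        intro h0
        apply ht
        rw [sub_eq_zero.1 h0]
        exact isAlgebraic_algebraMap c
      have hc1 : 0 < P.ord (t - algebraMap k K c) := hc.resolve_left hc0
      have h6 := (ord_der P hδ (f := t - algebraMap k K c) (by omega)).2
      rw [map_sub, Derivation.map_algebraMap, sub_zero, h3, h2] at h6
      have h7 : P.ord (t - algebraMap k K c) = 1 := by omega
      rw [neg_zero]
      refine reg_of_unif P h7 hS le_rfl ?_ hf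
      obtain ⟨c', hc'⟩ := hS c
      rw [map_sub, hc']
      exact Ge.sub (Or.inr h4.ge) (Ge.const _)

/-- The loss of finitely many derivations. -/
theorem exists_loss_fin {ι : Type*} [Finite ι] {D : ι → Derivation ℤ K K}
    (hS : ∀ i, Sem k (D i)) : ∃ e : Place k K → ℤ,
    (∀ P, 0 ≤ e P) ∧ {P | e P ≠ 0}.Finite ∧ ∀ P f, Ge P 0 f → ∀ i, Ge P (-e P) (D i f) := by
  classical
  have := Fintype.ofFinite ι
  choose e he0 hef he using fun i => exists_loss (hS i)
  refine ⟨fun P => ∑ i, e i P, fun P => Finset.sum_nonneg fun i _ => he0 i P, ?_, ?_⟩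
  · refine (Set.finite_iUnion hef).subset fun P hP => ?_
    by_contra hcon
    simp only [Set.mem_iUnion, not_exists, Set.mem_ofPred_eq, not_not] at hcon
    exact hP (Finset.sum_eq_zero fun i _ => hcon i)
  · intro P f hf i
    refine (he i P f hf).mono ?_
    have := Finset.single_le_sum (f := fun i => e i P) (fun i _ => he0 i P) (Finset.mem_univ i)
    dsimp only at this ⊢
    omega

end Pool.Agent.TH145.GH
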