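import Pool.Agent.TH145.GH.Limit

/-!
Finiteness of rational points on the hypersurface over a finitely generated field.
-/

set_option autoImplicit false

open MvPolynomial FF Pool.Agent.W603.LV Pool.Agent.W603.PV Pool.Agent.W602.RG

namespace Pool.Agent.TH145.GH

section alg

variable {K : Type} [Field K]

/-- An algebraic element of the ultrapower is a constant sequence. -/
theorem eventually_const {E : Subfield K} {u : ℕ → K} (h : Om.mk u ∈ acl (cst K '' (E : Set K))) :
    ∃ a : K, ∀ᶠ m in (Filter.hyperfilter ℕ : Filter ℕ), u m = a := by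
  classical
  obtain ⟨p, hp0, hp⟩ := mem_acl.1 h
  have h1 : ∀ z ∈ Subfield.closure (cst K '' (E : Set K)), ∃ a : K, cst K a = z := by
    intro z hz
    have h2 : Subfield.closure (cst K '' (E : Set K)) ≤ (cst K).fieldRange := by
      rw [Subfield.closure_le]
      rintro _ ⟨x, -, rfl⟩
      exact ⟨x, rfl⟩
    exact h2 hz
  choose! a ha using h1
  obtain ⟨q, hq⟩ : ∃ q : Polynomial K, q = ∑ i ∈ Finset.range (p.natDegree + 1),
    Polynomial.monomial i (a (p.coeff i)) := ⟨_, rfl⟩
  have hcoef : ∀ i, cst K (a (p.coeff i : Om K)) = (p.coeff i : Om K) := fun i =>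
    ha _ (p.coeff i).2
  have hq0 : q ≠ 0 := by
    intro h0
    apply hp0
    have h2 := congrArg (fun r => Polynomial.coeff r p.natDegree) h0
    simp only [hq, Polynomial.finsetSum_coeff, Polynomial.coeff_monomial, Finset.sum_ite_eq',
      Polynomial.coeff_zero] at h2
    rw [if_pos (by simp)] at h2
    have h3 := hcoef p.natDegree
    rw [h2, map_zero] at h3
    rw [← Polynomial.leadingCoeff_eq_zero]
    exact (Subtype.ext h3.symm)
  have hev : Om.mk (fun m => Polynomial.eval (u m) q) = Om.mk fun _ => 0 := by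
    have h2 : (fun m => Polynomial.eval (u m) q) = fun m =>
        ∑ i ∈ Finset.range (p.natDegree + 1), a (p.coeff i) * u m ^ i := by
      funext m
      rw [hq, Polynomial.eval_finsetSum]
      exact Finset.sum_congr rfl fun i _ => Polynomial.eval_monomial
    rw [h2, Pool.Agent.W61.RG.GSP.mk_sum _ (fun i m => a (p.coeff i) * u m ^ i)]
    change _ = (0 : Om K)
    rw [← hp, Polynomial.aeval_eq_sum_range]
    refine Finset.sum_congr rfl fun i _ => ?_
    rw [Algebra.smul_def]
    change _ = (p.coeff i : Om K) * (Om.mk u) ^ i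
    have e2 : (Om.mk u) ^ i = Om.mk (fun m => u m ^ i) := by
      rw [← Pool.Agent.TH145.MF.mkHom_apply (k := K) u, ← map_pow]; rfl
    have e3 : cst K (a (p.coeff i : Om K)) * Om.mk (fun m => u m ^ i) =
        Om.mk (fun m => a (p.coeff i : Om K) * u m ^ i) := by
      rw [cst_apply, ← Om.mk_mul]
    rw [e2, ← e3, hcoef]
  rw [Om.mk_eq] at hev
  have h2 : ∀ᶠ m in (Filter.hyperfilter ℕ : Filter ℕ), ∃ r ∈ (q.roots.toFinset : Set K),
      u m = r := by
    refine hev.mono fun m hm => ⟨u m, ?_, rfl⟩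
    rw [Finset.mem_coe, Multiset.mem_toFinset, Polynomial.mem_roots hq0]
    exact hm
  obtain ⟨r, -, hr⟩ := (Ultrafilter.eventually_exists_mem_iff (f := Filter.hyperfilter ℕ)
    (P := fun r m => u m = r) (Finset.finite_toSet _)).1 h2
  exact ⟨r, hr⟩

end alg

/-- Sequences of different elements do not have a constant limit. -/
theorem not_all_const {K J : Type} [Field K] [Finite J] {x : ℕ → J → K}
    (hx : Function.Injective x) (a : J → K)
    (h : ∀ j, ∀ᶠ m in (Filter.hyperfilter ℕ : Filter ℕ), x m j = a j) : False := by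
  have h1 : ∀ᶠ m in (Filter.hyperfilter ℕ : Filter ℕ), ∀ j, x m j = a j :=
    Filter.eventually_all.2 h
  have h2 : {m | ∀ j, x m j = a j}.Finite := by
    apply Set.Subsingleton.finite
    intro m hm m' hm'
    apply hx
    funext j
    rw [hm j, hm' j]
  exact (Filter.notMem_hyperfilter_of_finite h2) h1

variable {k0 K ι : Type} [Field k0] [Field K] [Algebra k0 K] [IsAlgClosed K] [CharZero K]
  {y : ι → K} (E : IntermediateField (IntermediateField.adjoin k0 (Set.range y)) K)

omit [IsAlgClosed K] in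
/-- The derivations preserve the structures. -/
theorem der_kap (D : Derivation ℤ K K) (hDk : ∀ r : k0, D (algebraMap k0 K r) = 0)
    (hDy : ∀ j, ∃ r : k0, D (y j) = algebraMap k0 K r) (i : ι) {x : K} (hx : x ∈ kap k0 y i) :
    D x ∈ kap k0 y i := by
  refine der_acl D ?_ hx
  rintro s (⟨r, rfl⟩ | ⟨j, -, rfl⟩)
  · rw [hDk]; exact zero_mem _
  · obtain ⟨r, hr⟩ := hDy j
    rw [hr]
    exact kap_base y i r

theorem der_LL (D : Derivation ℤ K K) (hDk : ∀ r : k0, D (algebraMap k0 K r) = 0)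
    (hDy : ∀ j, ∃ r : k0, D (y j) = algebraMap k0 K r) (hDE : ∀ x ∈ E, D x ∈ E) (i : ι) {x : K}
    (hx : x ∈ LL k0 y (E : Set K) i) : D x ∈ LL k0 y (E : Set K) i := by
  have hx' : x ∈ Subfield.closure (Set.range (algebraMap (kap k0 y i) K) ∪ (E : Set K)) := by
    rw [← IntermediateField.adjoin_toSubfield]
    exact hx
  refine der_closure D (H := (LL k0 y (E : Set K) i).toSubfield) ?_ hx'
  rintro s (⟨c, rfl⟩ | hs)
  · refine ⟨(LL k0 y (E : Set K) i).algebraMap_mem c, ?_⟩
    exact (LL k0 y (E : Set K) i).algebraMap_mem ⟨_, der_kap D hDk hDy i c.2⟩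
  · exact ⟨subset_LL y _ i hs, subset_LL y _ i (hDE s hs)⟩

/-- The data in the structure of a variable. -/
theorem exists_data_L {n d N : ℕ} (hy : AlgebraicIndependent k0 y)
    [FiniteDimensional (IntermediateField.adjoin k0 (Set.range y)) E]
    {F : MvPolynomial (Fin (n + 1)) E.toSubfield}
    {DE : (Fin (n + 1) →₀ ℕ) → E.toSubfield → E.toSubfield}
    {Q : Fin (n + 1) → Fin (n + 1) → MvPolynomial (Fin (n + 1)) E.toSubfield}
    (hG : Gen F d DE N Q)
    (D : (Fin (n + 1) →₀ ℕ) → Derivation ℤ K K)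
    (hDE : ∀ I (x : E.toSubfield), D I x = (DE I x : K))
    (hDk : ∀ I (r : k0), D I (algebraMap k0 K r) = 0)
    (hDy : ∀ I j, ∃ r : k0, D I (y j) = algebraMap k0 K r) (i : ι) :
    ∃ (φ : E.toSubfield →+* LL k0 y (E : Set K) i)
      (D' : (Fin (n + 1) →₀ ℕ) → Derivation ℤ (LL k0 y (E : Set K) i) (LL k0 y (E : Set K) i))
      (e g : Place (kap k0 y i) (LL k0 y (E : Set K) i) → ℤ),
      (∀ x, (φ x : K) = x) ∧ Data (kap k0 y i) (map φ F) d D' e g := by
  have hFF : IsFF (kap k0 y i) (LL k0 y (E : Set K) i) := LL_ff E hy i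
  have hac : IsAlgClosed (kap k0 y i) := acl_isAlgClosed _
  have hcz : CharZero (kap k0 y i) := charZero_of_injective_algebraMap
    (algebraMap ℚ (kap k0 y i)).injective
  let φ : E.toSubfield →+* LL k0 y (E : Set K) i :=
    { toFun := fun x => ⟨x, subset_LL y _ i x.2⟩
      map_one' := rfl
      map_mul' := fun _ _ => rfl
      map_zero' := rfl
      map_add' := fun _ _ => rfl }
  have hDE' : ∀ I, ∀ x ∈ E, D I x ∈ E := by
    intro I x hx
    rw [hDE I ⟨x, hx⟩]
    exact (DE I ⟨x, hx⟩).2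
  let D' : (Fin (n + 1) →₀ ℕ) → Derivation ℤ (LL k0 y (E : Set K) i) (LL k0 y (E : Set K) i) :=
    fun I => resDer _ (D I) fun x hx => der_LL E (D I) (hDk I) (hDy I) (hDE' I) i hx
  obtain ⟨e, g, hdat⟩ := hG.exists_data (κ := kap k0 y i) φ D' (fun I x => by
    apply Subtype.ext
    exact hDE I x) (fun I c => ⟨⟨_, der_kap (D I) (hDk I) (hDy I) i c.2⟩, rfl⟩)
  exact ⟨φ, D', e, g, fun _ => rfl, hdat⟩

omit [IsAlgClosed K] [CharZero K] in
theorem eval_incl {n : ℕ} {L : Type} [Field L] [Algebra L K] {E : Subfield K}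
    (φ : E →+* L) (hφ : ∀ x : E, algebraMap L K (φ x) = x) (F : MvPolynomial (Fin (n + 1)) E)
    (x : Fin (n + 1) → L) : algebraMap L K (eval x (map φ F)) =
      eval (fun j => algebraMap L K (x j)) (map E.subtype F) := by
  rw [eval_map, eval_map]
  have h1 := hom_eval₂ F φ (algebraMap L K) x
  refine h1.trans ?_
  congr 1
  ext a
  exact hφ a

/-- The heights of the points of the hypersurface are bounded. -/
theorem heights_A {m d N : ℕ} (hy : AlgebraicIndependent k0 y)
    [FiniteDimensional (IntermediateField.adjoin k0 (Set.range y)) E]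
    {F : MvPolynomial (Fin (m + 2)) E.toSubfield}
    {DE : (Fin (m + 2) →₀ ℕ) → E.toSubfield → E.toSubfield}
    {Q : Fin (m + 2) → Fin (m + 2) → MvPolynomial (Fin (m + 2)) E.toSubfield}
    (hG : Gen F d DE N Q) (D : (Fin (m + 2) →₀ ℕ) → Derivation ℤ K K)
    (hDE : ∀ I (x : E.toSubfield), D I x = (DE I x : K))
    (hDk : ∀ I (r : k0), D I (algebraMap k0 K r) = 0)
    (hDy : ∀ I j, ∃ r : k0, D I (y j) = algebraMap k0 K r) (hd : 2 * (m + 1) + 1 ≤ d)
    (l0 : Fin (m + 2)) (i : ι) : ∃ B : ℤ, ∀ x : Fin (m + 2) → E, x l0 = 1 →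
      eval (fun j => (x j : K)) (map E.toSubfield.subtype F) = 0 →
      ∀ j, hgt (kap k0 y i) (⟨(x j : K), subset_LL y _ i (x j).2⟩ :
        LL k0 y (E : Set K) i) ≤ B := by
  have hFF : IsFF (kap k0 y i) (LL k0 y (E : Set K) i) := LL_ff E hy i
  have hac : IsAlgClosed (kap k0 y i) := acl_isAlgClosed _
  have hcz : CharZero (kap k0 y i) := charZero_of_injective_algebraMap
    (algebraMap ℚ (kap k0 y i)).injective
  obtain ⟨φ, D', e, g, hφ, hdat⟩ := exists_data_L E hy hG D hDE hDk hDy i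
  refine ⟨max (∑ᶠ P, ((m + 1) * (e P + g P) + g P)) 0, fun x hx hxF j => ?_⟩
  obtain ⟨x', hx'⟩ : ∃ x' : Fin (m + 2) → LL k0 y (E : Set K) i,
    ∀ j, x' j = ⟨(x j : K), subset_LL y _ i (x j).2⟩ := ⟨_, fun _ => rfl⟩
  have hxl0 : x' l0 = 1 := by
    rw [hx']
    apply Subtype.ext
    change (x l0 : K) = 1
    rw [hx]; rfl
  have hx0 : x' ≠ 0 := by
    intro h0
    rw [h0] at hxl0
    exact zero_ne_one hxl0
  have hxF' : eval x' (map φ F) = 0 := by
    apply (algebraMap (LL k0 y (E : Set K) i) K).injective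
    rw [map_zero, eval_incl φ hφ F x', ← hxF]
    congr 2
    funext j
    rw [hx']
    rfl
  have h1 := ineqA hdat hd hx0 hxF'
  rw [← hx']
  by_cases hj : x' j = 0
  · rw [hj]
    have := Pool.Agent.TH145.MG.hgt_const (k := kap k0 y i) (L := LL k0 y (E : Set K) i) 0
    rw [map_zero] at this
    rw [this]
    exact le_max_right _ _
  · have h2 := Pool.Agent.W603.CX.hgt_le_pht (k := kap k0 y i) x' hj (l := l0)
      (by rw [hxl0]; exact one_ne_zero)
    rw [hxl0, div_one] at h2
    exact (h2.trans h1).trans (le_max_left _ _)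

omit [IsAlgClosed K] [CharZero K] in
theorem eval_mk {n : ℕ} {E : Subfield K} (F : MvPolynomial (Fin (n + 1)) E)
    (x : ℕ → Fin (n + 1) → K) :
    eval (fun j => Om.mk fun m => x m j) (map ((cst K).comp E.subtype) F) =
      Om.mk fun m => eval (x m) (map E.subtype F) := by
  rw [← map_map, eval_map, Pool.Agent.TH145.MG.eval_mk]

/-- Finiteness of the rational points on the hypersurface. -/
theorem fin_A {m d N : ℕ} [IsAlgClosed k0] [Finite ι] (hy : IsTranscendenceBasis k0 y)
    [FiniteDimensional (IntermediateField.adjoin k0 (Set.range y)) E]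
    [IsGalois (IntermediateField.adjoin k0 (Set.range y)) E]
    {F : MvPolynomial (Fin (m + 2)) E.toSubfield}
    {DE : (Fin (m + 2) →₀ ℕ) → E.toSubfield → E.toSubfield}
    {Q : Fin (m + 2) → Fin (m + 2) → MvPolynomial (Fin (m + 2)) E.toSubfield}
    (hG : Gen F d DE N Q) (D : (Fin (m + 2) →₀ ℕ) → Derivation ℤ K K)
    (hDE : ∀ I (x : E.toSubfield), D I x = (DE I x : K))
    (hDk : ∀ I (r : k0), D I (algebraMap k0 K r) = 0)
    (hDy : ∀ I j, ∃ r : k0, D I (y j) = algebraMap k0 K r) (hd : 2 * (m + 1) + 1 ≤ d)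
    (l0 : Fin (m + 2)) : {x : Fin (m + 2) → K | (∀ j, x j ∈ E) ∧ x l0 = 1 ∧
      eval x (map E.toSubfield.subtype F) = 0}.Finite := by
  by_contra hinf
  let f := Set.Infinite.natEmbedding _ hinf
  obtain ⟨x, hx⟩ : ∃ x : ℕ → Fin (m + 2) → K, ∀ n, x n = (f n).1 := ⟨_, fun _ => rfl⟩
  have hxinj : Function.Injective x := by
    intro a b hab
    rw [hx, hx] at hab
    exact f.injective (Subtype.ext hab)
  have hxE : ∀ n j, x n j ∈ E := fun n j => by rw [hx]; exact (f n).2.1 j
  have hxl : ∀ n, x n l0 = 1 := fun n => by rw [hx]; exact (f n).2.2.1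
  have hxF : ∀ n, eval (x n) (map E.toSubfield.subtype F) = 0 := fun n => by
    rw [hx]; exact (f n).2.2.2
  choose B hB using fun i => heights_A E hy.1 hG D hDE hDk hDy hd l0 i
  have hz : ∀ j, Om.mk (fun n => x n j) ∈ OE k0 ((E.toSubfield : Subfield K) : Set K) := fun j =>
    lim_mem E hy (fun n => ⟨x n j, hxE n j⟩) B fun n i =>
      hB i (fun j => ⟨x n j, hxE n j⟩) (Subtype.ext (hxl n)) (hxF n) j
  have hacl := limit_A E.toSubfield (fun r => k0_mem E r) hG D hDE hDk hd
    (fun j => Om.mk fun n => x n j) hz (l0 := l0) (by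
      have h1 : (fun n => x n l0) = fun _ => 1 := funext hxl
      rw [h1]; rfl) (by
      rw [eval_mk F x]
      have h1 : (fun n => eval (x n) (map E.toSubfield.subtype F)) = fun _ => 0 := funext hxF
      rw [h1]; rfl)
  choose a ha using fun j => eventually_const (hacl j)
  exact not_all_const hxinj a ha

end Pool.Agent.TH145.GH
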