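import Pool.Agent.TH145.GH.LossB
import Pool.Agent.TH145.GH.FinA

/-!
Heights of integral points on the complement of the hypersurface.
-/

set_option autoImplicit false

open MvPolynomial FF Pool.Agent.W603.LV Pool.Agent.W603.PV Pool.Agent.W602.RG

namespace Pool.Agent.TH145.GH

/-- The height of the value of a polynomial. -/
theorem hgt_eval_le {κ L : Type} [Field κ] [Field L] [Algebra κ L] [IsAlgClosed κ] [CharZero κ]
    [IsFF κ L] {n : ℕ} (H : ℤ) (F : MvPolynomial (Fin (n + 1)) L) :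
    ∃ B : ℤ, ∀ x : Fin (n + 1) → L, (∀ j, hgt κ (x j) ≤ H) → hgt κ (eval x F) ≤ B := by
  induction F using MvPolynomial.induction_on with
  | C a => exact ⟨hgt κ a, fun x _ => by rw [eval_C]⟩
  | add p q hp hq =>
    obtain ⟨B1, h1⟩ := hp
    obtain ⟨B2, h2⟩ := hq
    refine ⟨B1 + B2, fun x hx => ?_⟩
    rw [map_add]
    exact (Pool.Agent.TH145.MW.hgt_add_le (k := κ) _ _).trans (add_le_add (h1 x hx) (h2 x hx))
  | mul_X p i hp =>
    obtain ⟨B1, h1⟩ := hp
    refine ⟨B1 + H, fun x hx => ?_⟩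
    rw [map_mul, eval_X]
    exact (Pool.Agent.TH145.MW.hgt_mul_le (k := κ) _ _).trans (add_le_add (h1 x hx) (hx i))

/-- The order of the value of the form at a place where all coordinates have integral powers. -/
theorem ord_of_int {κ L : Type} [Field κ] [Field L] [Algebra κ L] (P : Place κ L) {n d : ℕ}
    {F : MvPolynomial (Fin (n + 1)) L} (hF : F.IsHomogeneous d) (hc : ∀ u, Ge P 0 (F.coeff u))
    {x : Fin (n + 1) → L} (hx0 : x ≠ 0) (hxF : eval x F ≠ 0)
    (hint : ∀ j, Ge P 0 (x j ^ d / eval x F)) : P.ord (eval x F) = d * pord P x := by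
  obtain ⟨lam, x', hlam, hlo, hxl, hx', -⟩ := exists_scaled P hx0
  have h1 : eval x F = lam ^ d * eval x' F := by rw [hxl, eval_smul_hom hF]
  have h2 : eval x' F ≠ 0 := by
    intro h0
    rw [h1, h0, mul_zero] at hxF
    exact hxF rfl
  have h3 : Ge P 0 (eval x' F) := by
    have := ge_eval P hx' hc
    exact this
  have h4 : 0 ≤ P.ord (eval x' F) := h3.resolve_left h2
  have h5 : P.ord (eval x F) = d * P.ord lam + P.ord (eval x' F) := by
    rw [h1, P.ord_mul (pow_ne_zero _ hlam) h2, P.ord_pow]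
  obtain ⟨j, hj, hjP⟩ := exists_pord P (Function.ne_iff.1 hx0)
  have h6 : 0 ≤ P.ord (x j ^ d / eval x F) :=
    (hint j).resolve_left (div_ne_zero (pow_ne_zero _ hj) hxF)
  rw [P.ord_div (pow_ne_zero _ hj) hxF, P.ord_pow, hjP] at h6
  rw [hlo] at h5
  omega

variable {k0 K ι : Type} [Field k0] [Field K] [Algebra k0 K] [IsAlgClosed K] [CharZero K]
  {y : ι → K} (E : IntermediateField (IntermediateField.adjoin k0 (Set.range y)) K)

omit [IsAlgClosed K] [CharZero K] in
/-- Integral elements are regular outside of the poles of the generators. -/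
theorem ge_of_closure (i : ι) (P : Place (kap k0 y i) (LL k0 y (E : Set K) i)) {T : Finset K}
    (hT : ∀ t ∈ T, t ∈ E)
    (hP : ∀ t (ht : t ∈ T), Ge P 0 (⟨t, subset_LL y _ i (hT t ht)⟩ : LL k0 y (E : Set K) i))
    {w : K} (hw : w ∈ Subring.closure (Set.range (algebraMap k0 K) ∪ (T : Set K))) :
    ∃ a : LL k0 y (E : Set K) i, (a : K) = w ∧ Ge P 0 a := by
  induction hw using Subring.closure_induction with
  | mem w hw =>
    rcases hw with ⟨r, rfl⟩ | hw
    · exact ⟨algebraMap (kap k0 y i) _ ⟨_, kap_base y i r⟩, rfl, Ge.const _⟩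
    · exact ⟨_, rfl, hP w hw⟩
  | zero => exact ⟨0, rfl, Ge.zero⟩
  | one => exact ⟨1, rfl, Ge.one⟩
  | add a b _ _ ha hb =>
    obtain ⟨a', rfl, ha⟩ := ha
    obtain ⟨b', rfl, hb⟩ := hb
    exact ⟨a' + b', rfl, ha.add hb⟩
  | neg a _ ha =>
    obtain ⟨a', rfl, ha⟩ := ha
    exact ⟨-a', rfl, ha.neg⟩
  | mul a b _ _ ha hb =>
    obtain ⟨a', rfl, ha⟩ := ha
    obtain ⟨b', rfl, hb⟩ := hb
    exact ⟨a' * b', rfl, (ha.mul hb).mono (by omega)⟩

/-- The heights of the integral points are bounded. -/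
theorem heights_B {n d N : ℕ} (hy : AlgebraicIndependent k0 y)
    [FiniteDimensional (IntermediateField.adjoin k0 (Set.range y)) E]
    {F : MvPolynomial (Fin (n + 1)) E.toSubfield}
    {DE : (Fin (n + 1) →₀ ℕ) → E.toSubfield → E.toSubfield}
    {Q : Fin (n + 1) → Fin (n + 1) → MvPolynomial (Fin (n + 1)) E.toSubfield}
    (hG : Gen F d DE N Q) (D : (Fin (n + 1) →₀ ℕ) → Derivation ℤ K K)
    (hDE : ∀ I (x : E.toSubfield), D I x = (DE I x : K))
    (hDk : ∀ I (r : k0), D I (algebraMap k0 K r) = 0)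
    (hDy : ∀ I j, ∃ r : k0, D I (y j) = algebraMap k0 K r) (hd : 2 * n + 2 ≤ d)
    (l0 : Fin (n + 1)) (T : Finset K) (hT : ∀ t ∈ T, t ∈ E) (i : ι) :
    ∃ B : ℤ, ∀ (x : Fin (n + 1) → E) (s : Fin (n + 1) → E), x l0 = 1 →
      eval (fun j => (x j : K)) (map E.toSubfield.subtype F) ≠ 0 →
      (∀ j, (s j : K) = (x j : K) ^ d / eval (fun j => (x j : K)) (map E.toSubfield.subtype F)) →
      (∀ j, (s j : K) ∈ Subring.closure (Set.range (algebraMap k0 K) ∪ (T : Set K))) →
      ∀ j, hgt (kap k0 y i) (⟨(x j : K), subset_LL y _ i (x j).2⟩ :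
        LL k0 y (E : Set K) i) ≤ B ∧ hgt (kap k0 y i) (⟨(s j : K), subset_LL y _ i (s j).2⟩ :
        LL k0 y (E : Set K) i) ≤ B := by
  classical
  have hFF : IsFF (kap k0 y i) (LL k0 y (E : Set K) i) := LL_ff E hy i
  have hac : IsAlgClosed (kap k0 y i) := acl_isAlgClosed _
  have hcz : CharZero (kap k0 y i) := charZero_of_injective_algebraMap
    (algebraMap ℚ (kap k0 y i)).injective
  obtain ⟨φ, D', e, g, hφ, hdat⟩ := exists_data_L E hy hG D hDE hDk hDy i
  obtain ⟨Z, hZ⟩ : ∃ Z : Finset (LL k0 y (E : Set K) i), ∀ t (ht : t ∈ T),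
      (⟨t, subset_LL y _ i (hT t ht)⟩ : LL k0 y (E : Set K) i) ∈ Z := by
    refine ⟨T.attach.image (fun t : {t // t ∈ T} =>
      (⟨t.1, subset_LL y _ i (hT t.1 t.2)⟩ : LL k0 y (E : Set K) i)), fun t ht => ?_⟩
    exact Finset.mem_image.2 ⟨⟨t, ht⟩, Finset.mem_attach _ _, rfl⟩
  obtain ⟨g1, hg1, hg1f, hg1T⟩ := exists_poles (κ := kap k0 y i) Z
  obtain ⟨e', he'⟩ : ∃ e' : Place (kap k0 y i) (LL k0 y (E : Set K) i) → ℤ,
    ∀ P, e' P = if g1 P ≠ 0 ∨ g P ≠ 0 then e P + 1 else e P := ⟨_, fun _ => rfl⟩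
  have hdat' : Data (kap k0 y i) (map φ F) d D' e' g := by
    refine hdat.mono (fun P => ?_) ((hg1f.union hdat.fin).subset fun P hP => ?_)
    · rw [he']; split_ifs <;> omega
    · by_contra hcon
      apply hP
      rw [Set.mem_union, not_or] at hcon
      have h1 : ¬ (e P ≠ 0 ∨ g P ≠ 0) := hcon.2
      have h2 : ¬ (g1 P ≠ 0) := hcon.1
      rw [he', if_neg (by tauto)]
      tauto
  obtain ⟨H, hH⟩ : ∃ H : ℤ, H = max (∑ᶠ P, ((n + 1) * (e' P + g P) + g P)) 0 := ⟨_, rfl⟩
  obtain ⟨B1, hB1⟩ := hgt_eval_le (κ := kap k0 y i) H (map φ F)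
  refine ⟨max H (d * H + B1), fun x s hx hxF hs hsT j => ?_⟩
  obtain ⟨x', hx'⟩ : ∃ x' : Fin (n + 1) → LL k0 y (E : Set K) i,
    ∀ j, x' j = ⟨(x j : K), subset_LL y _ i (x j).2⟩ := ⟨_, fun _ => rfl⟩
  have hxl0 : x' l0 = 1 := by
    rw [hx']
    apply Subtype.ext
    change (x l0 : K) = 1
    rw [hx]; rfl
  have hx0 : x' ≠ 0 := by
    intro h0
    rw [h0] at hxl0
    exact zero_ne_one hxl0
  have hev : algebraMap (LL k0 y (E : Set K) i) K (eval x' (map φ F)) =
      eval (fun j => (x j : K)) (map E.toSubfield.subtype F) := by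
    rw [eval_incl φ hφ F x']
    congr 2
    funext j
    rw [hx']
    rfl
  have hxF' : eval x' (map φ F) ≠ 0 := by
    intro h0
    rw [h0, map_zero] at hev
    exact hxF hev.symm
  have hsx : ∀ j, (⟨(s j : K), subset_LL y _ i (s j).2⟩ : LL k0 y (E : Set K) i) =
      x' j ^ d / eval x' (map φ F) := by
    intro j
    apply (algebraMap (LL k0 y (E : Set K) i) K).injective
    rw [map_div₀, hev, map_pow, hx']
    exact hs j
  have h1 : pht (kap k0 y i) x' ≤ H := by
    rw [hH]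
    refine (ineqB hdat' hd hx0 hxF' fun P => ?_).trans (le_max_left _ _)
    by_cases hP : g1 P ≠ 0 ∨ g P ≠ 0
    · right
      intro f hf I hI
      rw [he', if_pos hP]
      exact loss_all P (fun f hf => hdat.loss P f hf I hI) hf
    · left
      have hP1 : g1 P = 0 := by tauto
      have hP2 : g P = 0 := by tauto
      refine ord_of_int P hdat.hom (fun u => ?_) hx0 hxF' fun j => ?_
      · have := hdat.coef P u
        rwa [hP2, neg_zero] at this
      · rw [← hsx]
        obtain ⟨a, ha, haP⟩ := ge_of_closure E i P hT (fun t ht => by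
          have := hg1T P _ (hZ t ht)
          rwa [hP1, neg_zero] at this) (hsT j)
        have : a = ⟨(s j : K), subset_LL y _ i (s j).2⟩ := Subtype.ext ha
        rw [← this]
        exact haP
  have h2 : ∀ j, hgt (kap k0 y i) (x' j) ≤ H := by
    intro j
    by_cases hj : x' j = 0
    · rw [hj]
      have := Pool.Agent.TH145.MG.hgt_const (k := kap k0 y i) (L := LL k0 y (E : Set K) i) 0
      rw [map_zero] at this
      rw [this, hH]
      exact le_max_right _ _
    · have h2 := Pool.Agent.W603.CX.hgt_le_pht (k := kap k0 y i) x' hj (l := l0)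
        (by rw [hxl0]; exact one_ne_zero)
      rw [hxl0, div_one] at h2
      exact h2.trans h1
  refine ⟨?_, ?_⟩
  · rw [← hx']
    exact (h2 j).trans (le_max_left _ _)
  · rw [hsx, div_eq_mul_inv]
    refine (Pool.Agent.TH145.MW.hgt_mul_le (k := kap k0 y i) _ _).trans ?_
    rw [hgt_inv]
    refine (add_le_add ((Pool.Agent.TH145.MW.hgt_pow_le (k := kap k0 y i) _ _).trans
      (mul_le_mul_of_nonneg_left (h2 j) (by positivity))) (hB1 x' h2)).trans (le_max_right _ _)

end Pool.Agent.TH145.GH
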