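import Pool.Agent.TH145.GH.Acl
import Pool.Agent.TH145.MG.Bdd
import Pool.Agent.W917.RG.GAC

/-!
The ultrapower of the constants and the field are free over the constants; derivations of the
ultrapower.
-/

set_option autoImplicit false

open FF Pool.Agent.W602.RG

namespace Pool.Agent.TH145.GH

/-- The derivation of the ultrapower induced by a derivation. -/
noncomputable def hat {K : Type} [Field K] (D : Derivation ℤ K K) : Derivation ℤ (Om K) (Om K) where
  toFun := Filter.Germ.map D
  map_add' x y := by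
    obtain ⟨x, rfl⟩ := Om.mk_surj x
    obtain ⟨y, rfl⟩ := Om.mk_surj y
    change Om.mk (fun n => D (x n + y n)) = Om.mk fun n => D (x n) + D (y n)
    simp only [map_add]
  map_smul' r x := by
    obtain ⟨x, rfl⟩ := Om.mk_surj x
    have h1 : r • Om.mk x = Om.mk fun n => r • x n := by
      rw [zsmul_eq_mul]
      have h2 : ((r : ℤ) : Om K) = Om.mk fun _ => (r : K) := by
        rw [← cst_apply, map_intCast]
      rw [h2, Om.mk_mul]
      congr 1
      funext n
      rw [zsmul_eq_mul]
    rw [h1]
    change Om.mk (fun n => D (r • x n)) = (RingHom.id ℤ r) • Om.mk fun n => D (x n)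
    have h2 : ∀ y : ℕ → K, (RingHom.id ℤ r) • Om.mk y = Om.mk fun n => r • y n := by
      intro y
      rw [RingHom.id_apply, zsmul_eq_mul]
      have h2 : ((r : ℤ) : Om K) = Om.mk fun _ => (r : K) := by
        rw [← cst_apply, map_intCast]
      rw [h2, Om.mk_mul]
      congr 1
      funext n
      rw [zsmul_eq_mul]
    rw [h2]
    simp only [map_zsmul]
  map_one_eq_zero' := by
    change Om.mk (fun _ => D 1) = Om.mk fun _ => 0
    rw [D.map_one_eq_zero]
  leibniz' x y := by
    obtain ⟨x, rfl⟩ := Om.mk_surj x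
    obtain ⟨y, rfl⟩ := Om.mk_surj y
    change Om.mk (fun n => D (x n * y n)) =
      Om.mk x * Om.mk (fun n => D (y n)) + Om.mk y * Om.mk fun n => D (x n)
    rw [Om.mk_mul, Om.mk_mul, Om.mk_add]
    congr 1
    funext n
    rw [D.leibniz]
    simp

theorem hat_mk {K : Type} [Field K] (D : Derivation ℤ K K) (u : ℕ → K) :
    hat D (Om.mk u) = Om.mk fun n => D (u n) := rfl

theorem hat_cst {K : Type} [Field K] (D : Derivation ℤ K K) (x : K) :
    hat D (cst K x) = cst K (D x) := rfl

variable {k0 K : Type} [Field k0] [Field K] [Algebra k0 K]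

theorem hat_mapOm (D : Derivation ℤ K K) (hD : ∀ r : k0, D (algebraMap k0 K r) = 0) (w : Om k0) :
    hat D (mapOm k0 K w) = 0 := by
  obtain ⟨u, rfl⟩ := Om.mk_surj w
  rw [mapOm_mk, hat_mk]
  simp only [hD]
  rfl

variable (k0 K) in
/-- the ultrapower of the constants -/
noncomputable def CC : Subfield (Om K) := (mapOm k0 K).fieldRange

theorem mem_CC (w : Om k0) : mapOm k0 K w ∈ CC k0 K := ⟨w, rfl⟩

theorem cst_mem_CC (r : k0) : cst K (algebraMap k0 K r) ∈ CC k0 K := ⟨cst k0 r, rfl⟩

theorem hat_CC (D : Derivation ℤ K K) (hD : ∀ r : k0, D (algebraMap k0 K r) = 0) {w : Om K}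
    (hw : w ∈ CC k0 K) : hat D w = 0 := by
  obtain ⟨u, rfl⟩ := hw
  exact hat_mapOm D hD u

theorem CC_ac [IsAlgClosed k0] : IsAlgClosed (CC k0 K) := by
  have hacOm : IsAlgClosed (Om k0) := Pool.Agent.W917.RG.GAC.main k0
  let e1 : Om k0 →+* CC k0 K := (mapOm k0 K).rangeRestrictField
  have hbij : Function.Bijective e1 := by
    refine ⟨e1.injective, ?_⟩
    rintro ⟨w, v, hv⟩
    exact ⟨v, Subtype.ext hv⟩
  exact IsAlgClosed.of_ringEquiv (Om k0) (CC k0 K) (RingEquiv.ofBijective e1 hbij)

/-- Linear disjointness. -/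
theorem lin_disj {J : Type} {ε : J → K} (hε : LinearIndependent k0 ε) (s : Finset J)
    (c : J → Om K) (hc : ∀ j ∈ s, c j ∈ CC k0 K) (h : ∑ j ∈ s, c j * cst K (ε j) = 0) :
    ∀ j ∈ s, c j = 0 := by
  classical
  have h1 : ∀ j, ∃ u : ℕ → k0, j ∈ s → c j = Om.mk fun m => algebraMap k0 K (u m) := by
    intro j
    by_cases hj : j ∈ s
    · obtain ⟨w, hw⟩ := hc j hj
      obtain ⟨u, rfl⟩ := Om.mk_surj w
      exact ⟨u, fun _ => hw.symm⟩
    · exact ⟨fun _ => 0, fun h => absurd h hj⟩
  choose u hu using h1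
  have h2 : Om.mk (fun m => ∑ j ∈ s, algebraMap k0 K (u j m) * ε j) = Om.mk fun _ => 0 := by
    rw [Pool.Agent.W61.RG.GSP.mk_sum s (fun j m => algebraMap k0 K (u j m) * ε j)]
    change _ = (0 : Om K)
    rw [← h]
    refine Finset.sum_congr rfl fun j hj => ?_
    rw [hu j hj, cst_apply, Om.mk_mul]
  rw [Om.mk_eq] at h2
  intro j hj
  rw [hu j hj]
  change _ = Om.mk fun _ => (0 : K)
  rw [Om.mk_eq]
  refine h2.mono fun m hm => ?_
  have h3 : ∑ j ∈ s, u j m • ε j = 0 := by
    rw [← hm]
    exact Finset.sum_congr rfl fun j _ => Algebra.smul_def _ _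
  have h4 : u j m = 0 := (linearIndependent_iff'.1 hε) s (fun j => u j m) h3 j hj
  rw [h4, map_zero]

/-- Elements of the ultrapower of the constants that are independent over the constants are
independent over the field. -/
theorem free (E : Set K) {S : Set (Om K)} (hS : S ⊆ CC k0 K) {θ : Om K} (hθ : θ ∈ CC k0 K)
    (h : θ ∈ acl (cst K '' E ∪ S)) :
    θ ∈ acl (cst K '' Set.range (algebraMap k0 K) ∪ S) := by
  classical
  by_contra hcon
  obtain ⟨F1, hF1⟩ : ∃ F1 : Subfield (Om K), F1 =
    Subfield.closure (cst K '' Set.range (algebraMap k0 K) ∪ S) := ⟨_, rfl⟩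
  have hF1C : F1 ≤ CC k0 K := by
    rw [hF1, Subfield.closure_le]
    rintro w (⟨_, ⟨r, rfl⟩, rfl⟩ | hw)
    · exact cst_mem_CC r
    · exact hS hw
  have htr : ¬ IsAlgebraic F1 θ := fun h => hcon (mem_acl.2 (hF1 ▸ h))
  -- algebraic over the field generated by the field
  have h1 : IsAlgebraic (Algebra.adjoin F1 (cst K '' (Set.univ : Set K))) θ := by
    apply IntermediateField.isAlgebraic_adjoin_iff.1
    refine Pool.Agent.TH145.MF.alg_mono (F1 := Subfield.closure (cst K '' E ∪ S))
      (F2 := (IntermediateField.adjoin F1 (cst K '' (Set.univ : Set K))).toSubfield) ?_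
      (mem_acl.1 h)
    rw [Subfield.closure_le]
    rintro w (⟨x, -, rfl⟩ | hw)
    · exact IntermediateField.subset_adjoin _ _ ⟨x, trivial, rfl⟩
    · have h2 : w ∈ F1 := hF1 ▸ Subfield.subset_closure (Or.inr hw)
      exact IntermediateField.algebraMap_mem _ (⟨w, h2⟩ : F1)
  obtain ⟨p, hp0, hp⟩ := h1
  let β := Module.Basis.ofVectorSpace k0 K
  -- the coefficients in terms of a basis
  have hspan : ∀ a ∈ Algebra.adjoin F1 (cst K '' (Set.univ : Set K)),
      a ∈ Submodule.span F1 (Set.range fun b => cst K (β b)) := by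
    intro a ha
    have h2 : a ∈ Submodule.span F1 (cst K '' (Set.univ : Set K)) := by
      have h3 : (cst K '' (Set.univ : Set K)) =
          (((⊤ : Submonoid K).map (cst K : K →* Om K) : Submonoid (Om K)) : Set (Om K)) := by
        ext w; simp
      have h4 := Algebra.adjoin_eq_span F1 (cst K '' (Set.univ : Set K))
      have h5 : Submonoid.closure (cst K '' (Set.univ : Set K)) =
          (⊤ : Submonoid K).map (cst K : K →* Om K) := by
        rw [h3, Submonoid.closure_eq]
      rw [h5, ← h3] at h4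
      rw [← h4]
      exact ha
    refine (Submodule.span_le.2 ?_) h2
    rintro _ ⟨x, -, rfl⟩
    have h3 := β.linearCombination_repr x
    rw [Finsupp.linearCombination_apply, Finsupp.sum] at h3
    change cst K x ∈ Submodule.span F1 (Set.range fun b => cst K (β b))
    rw [← h3, map_sum]
    refine Submodule.sum_mem _ fun b _ => ?_
    have h4 : cst K (β.repr x b • β b) = (⟨cst K (algebraMap k0 K (β.repr x b)), by
        rw [hF1]
        exact Subfield.subset_closure (Or.inl ⟨_, ⟨_, rfl⟩, rfl⟩)⟩ : F1) • cst K (β b) := by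
      rw [Algebra.smul_def, map_mul]
      rfl
    rw [h4]
    exact Submodule.smul_mem _ _ (Submodule.subset_span ⟨b, rfl⟩)
  have hco : ∀ j, ∃ φ : (Module.Basis.ofVectorSpaceIndex k0 K) →₀ F1,
      (φ.sum fun b r => r • cst K (β b)) = (p.coeff j : Om K) := by
    intro j
    exact (Finsupp.mem_span_range_iff_exists_finsupp).1 (hspan _ (p.coeff j).2)
  choose φ hφ using hco
  obtain ⟨U, hU⟩ : ∃ U : Finset (Module.Basis.ofVectorSpaceIndex k0 K),
    U = (Finset.range (p.natDegree + 1)).biUnion fun j => (φ j).support := ⟨_, rfl⟩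
  have hco' : ∀ j ∈ Finset.range (p.natDegree + 1), (p.coeff j : Om K) =
      ∑ b ∈ U, (φ j b : Om K) * cst K (β b) := by
    intro j hj
    rw [← hφ j, Finsupp.sum]
    refine (Finset.sum_subset (s₁ := (φ j).support) (s₂ := U) ?_ ?_).trans ?_
    · intro b hb
      rw [hU, Finset.mem_biUnion]
      exact ⟨j, hj, hb⟩
    · intro b _ hb
      rw [Finsupp.notMem_support_iff.1 hb, zero_smul]
    · exact Finset.sum_congr rfl fun b _ => Algebra.smul_def _ _
  have hsum : ∑ b ∈ U, (∑ j ∈ Finset.range (p.natDegree + 1), (φ j b : Om K) * θ ^ j) *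
      cst K (β b) = 0 := by
    rw [Polynomial.aeval_eq_sum_range] at hp
    rw [← hp]
    simp only [Finset.sum_mul]
    rw [Finset.sum_comm]
    refine Finset.sum_congr rfl fun j hj => ?_
    rw [Algebra.smul_def]
    change _ = (p.coeff j : Om K) * θ ^ j
    rw [hco' j hj, Finset.sum_mul]
    exact Finset.sum_congr rfl fun b _ => by ring
  have hz := lin_disj β.linearIndependent U _ (fun b _ => sum_mem fun j _ =>
    mul_mem (hF1C (φ j b).2) (pow_mem hθ j)) hsum
  apply hp0
  ext j
  rw [Polynomial.coeff_zero]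
  by_cases hj : j ∈ Finset.range (p.natDegree + 1)
  · rw [hco' j hj]
    change _ = (0 : Om K)
    refine Finset.sum_eq_zero fun b hb => ?_
    have h2 := hz b hb
    have h3 : φ j b = 0 := by
      by_contra hne
      apply htr
      refine ⟨∑ j ∈ Finset.range (p.natDegree + 1), Polynomial.monomial j (φ j b), ?_, ?_⟩
      · intro h0
        have h4 := congrArg (fun q => Polynomial.coeff q j) h0
        simp only [Polynomial.finsetSum_coeff, Polynomial.coeff_monomial, Finset.sum_ite_eq',
          Polynomial.coeff_zero, if_pos hj] at h4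
        exact hne h4
      · rw [map_sum, ← h2]
        refine Finset.sum_congr rfl fun j _ => ?_
        rw [Polynomial.aeval_monomial]
        rfl
    rw [h3]
    change (0 : Om K) * _ = 0
    rw [zero_mul]
  · rw [Polynomial.coeff_eq_zero_of_natDegree_lt (by
      rw [Finset.mem_range] at hj; omega)]

end Pool.Agent.TH145.GH
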