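import Pool.Agent.TH145.GH.Span

/-!
Linear algebra of the tangent vector fields.
-/

set_option autoImplicit false

open MvPolynomial

namespace Pool.Agent.TH145.GH

variable {K : Type} [Field K]

theorem det_scale {m : ℕ} (r r' : Fin (m + 1) → Fin (m + 1) → K) (lam : K) (g : Fin (m + 1) → ℕ)
    (s : Fin (m + 1) → K) (hs : s 0 = 0) (h : ∀ k, r k = lam ^ g k • r' k + s k • r' 0) :
    (Matrix.of r).det = (∏ k, lam ^ g k) * (Matrix.of r').det := by
  classical
  obtain ⟨T, hT⟩ : ∃ T : Matrix (Fin (m + 1)) (Fin (m + 1)) K,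
    ∀ k j, T k j = (if k = j then lam ^ g k else 0) + if j = 0 then s k else 0 :=
    ⟨Matrix.of fun k j => (if k = j then lam ^ g k else 0) + if j = 0 then s k else 0,
      fun _ _ => rfl⟩
  have h1 : Matrix.of r = T * Matrix.of r' := by
    ext k l
    rw [Matrix.mul_apply]
    simp only [hT, Matrix.of_apply, add_mul, ite_mul, zero_mul, Finset.sum_add_distrib,
      Finset.sum_ite_eq, Finset.sum_ite_eq', Finset.mem_univ, if_true]
    rw [h k]
    simp
  have h2 : T.BlockTriangular OrderDual.toDual := by
    intro i j hij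
    have hij' : i < j := hij
    rw [hT, if_neg hij'.ne, if_neg (by
      rintro rfl
      exact absurd hij' (Fin.not_lt_zero i)), add_zero]
  rw [h1, Matrix.det_mul, Matrix.det_of_isLowerTriangular T h2]
  congr 1
  refine Finset.prod_congr rfl fun k _ => ?_
  rw [hT, if_pos rfl]
  by_cases hk : k = 0
  · rw [if_pos hk, hk, hs, add_zero]
  · rw [if_neg hk, add_zero]

/-- Selection of linearly independent vectors. -/
theorem select {V ι : Type} [AddCommGroup V] [Module K V] [FiniteDimensional K V]
    (w : Option ι → V) (h0 : w none ≠ 0) (H : Submodule K V)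
    (hH : H ≤ Submodule.span K (Set.range w)) (N : ℕ) (hN : Module.finrank K H = N + 1) :
    ∀ j ≤ N, ∃ v : Fin (j + 1) → Option ι, v 0 = none ∧ LinearIndependent K (w ∘ v) := by
  intro j
  induction j with
  | zero =>
    intro _
    refine ⟨fun _ => none, rfl, ?_⟩
    have : Unique (Fin (0 + 1)) := inferInstanceAs (Unique (Fin 1))
    rw [linearIndependent_unique_iff]
    exact h0
  | succ j ih =>
    intro hj
    obtain ⟨v, hv0, hv⟩ := ih (by omega)
    obtain ⟨a, ha⟩ : ∃ a, w a ∉ Submodule.span K (Set.range (w ∘ v)) := by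
      by_contra hcon
      push Not at hcon
      have h1 : H ≤ Submodule.span K (Set.range (w ∘ v)) :=
        hH.trans (Submodule.span_le.2 (by rintro _ ⟨a, rfl⟩; exact hcon a))
      have h2 := Submodule.finrank_mono h1
      have h3 := finrank_range_le_card (R := K) (w ∘ v)
      rw [Fintype.card_fin] at h3
      rw [Set.finrank] at h3
      omega
    refine ⟨Fin.snoc v a, ?_, ?_⟩
    · have : (0 : Fin (j + 1 + 1)) = Fin.castSucc 0 := rfl
      rw [this, Fin.snoc_castSucc, hv0]
    · rw [Fin.comp_snoc]
      exact linearIndependent_finSnoc.2 ⟨hv, ha⟩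

/-- The maximal minors of a matrix with one row less than columns. -/
noncomputable def minor {n : ℕ} (r : Fin n → Fin (n + 1) → K) (j : Fin (n + 1)) : K :=
  (-1) ^ (n + j : ℕ) * (Matrix.of fun k l => r k (j.succAbove l)).det

theorem det_snoc {n : ℕ} (r : Fin n → Fin (n + 1) → K) (z : Fin (n + 1) → K) :
    (Matrix.of (Fin.snoc r z : Fin (n + 1) → Fin (n + 1) → K)).det = ∑ j, minor r j * z j := by
  rw [Matrix.det_succ_row _ (Fin.last n)]
  refine Finset.sum_congr rfl fun j _ => ?_
  have h1 : (Matrix.of (Fin.snoc r z : Fin (n + 1) → Fin (n + 1) → K)) (Fin.last n) j = z j := by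
    rw [Matrix.of_apply, Fin.snoc_last]
  have h2 : (Matrix.of (Fin.snoc r z : Fin (n + 1) → Fin (n + 1) → K)).submatrix
      (Fin.last n).succAbove j.succAbove = Matrix.of fun k l => r k (j.succAbove l) := by
    ext k l
    rw [Matrix.submatrix_apply, Fin.succAbove_last, Matrix.of_apply, Fin.snoc_castSucc]
    rfl
  rw [h1, h2, minor, Fin.val_last]
  ring

/-- The minors of a basis of the kernel of a linear form are proportional to the linear form. -/
theorem exists_theta {n : ℕ} (c : Fin (n + 1) → K) (hc : c ≠ 0) (r : Fin n → Fin (n + 1) → K)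
    (hr : LinearIndependent K r) (hrc : ∀ k, ∑ l, c l * r k l = 0) :
    ∃ Θ : K, Θ ≠ 0 ∧ ∀ j, minor r j = Θ * c j := by
  classical
  obtain ⟨φ, hφ⟩ : ∃ φ : (Fin (n + 1) → K) →ₗ[K] K, ∀ z, φ z = ∑ l, c l * z l :=
    ⟨∑ l, c l • LinearMap.proj l, fun z => by simp⟩
  have hφ0 : φ ≠ 0 := by
    intro h0
    apply hc
    funext l
    have h1 := hφ (Pi.single l 1)
    rw [h0, LinearMap.zero_apply, Finset.sum_eq_single l] at h1
    · rw [Pi.single_eq_same, mul_one] at h1
      exact h1.symm
    · intro j _ hj
      rw [Pi.single_eq_of_ne hj, mul_zero]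
    · intro h; exact absurd (Finset.mem_univ l) h
  have h1 : Module.finrank K (LinearMap.ker φ) = n := by
    have h2 := LinearMap.finrank_range_add_finrank_ker φ
    have h3 : LinearMap.range φ = ⊤ := LinearMap.range_eq_top.2 (LinearMap.surjective hφ0)
    rw [h3, finrank_top, Module.finrank_self, Module.finrank_fin_fun] at h2
    omega
  have h2 : Submodule.span K (Set.range r) = LinearMap.ker φ := by
    apply Submodule.eq_of_le_of_finrank_eq
    · rw [Submodule.span_le]
      rintro _ ⟨k, rfl⟩
      change φ (r k) = 0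
      rw [hφ, hrc]
    · rw [finrank_span_eq_card hr, Fintype.card_fin, h1]
  have hzero : ∀ z, φ z = 0 → ∑ j, minor r j * z j = 0 := by
    intro z hz
    rw [← det_snoc]
    apply Matrix.det_eq_zero_of_not_linearIndependent_rows
    intro h3
    have h4 : LinearIndependent K (Fin.snoc r z : Fin (n + 1) → Fin (n + 1) → K) := h3
    rw [linearIndependent_finSnoc] at h4
    apply h4.2
    rw [h2]
    exact hz
  have hne : ∃ z : Fin (n + 1) → K, ∑ j, minor r j * z j ≠ 0 := by
    obtain ⟨z, hz⟩ : ∃ z, φ z ≠ 0 := by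
      by_contra hcon
      push Not at hcon
      exact hφ0 (LinearMap.ext hcon)
    refine ⟨z, ?_⟩
    rw [← det_snoc]
    have h3 : LinearIndependent K (Fin.snoc r z : Fin (n + 1) → Fin (n + 1) → K) := by
      rw [linearIndependent_finSnoc]
      refine ⟨hr, ?_⟩
      rw [h2]
      exact hz
    have h4 : IsUnit (Matrix.of (Fin.snoc r z : Fin (n + 1) → Fin (n + 1) → K)) :=
      Matrix.linearIndependent_rows_iff_isUnit.1 h3
    exact ((Matrix.isUnit_iff_isUnit_det _).1 h4).ne_zero
  obtain ⟨i0, hi0⟩ := Function.ne_iff.1 hc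
  have hi0' : c i0 ≠ 0 := hi0
  have hprop : ∀ j, minor r j * c i0 = minor r i0 * c j := by
    intro j
    by_cases hj : j = i0
    · rw [hj]
    have h3 := hzero (fun l => c i0 * (Pi.single j 1 : Fin (n + 1) → K) l -
      c j * (Pi.single i0 1 : Fin (n + 1) → K) l) (by
        rw [hφ]
        simp only [mul_sub, Finset.sum_sub_distrib]
        rw [Finset.sum_eq_single j, Finset.sum_eq_single i0]
        · rw [Pi.single_eq_same, Pi.single_eq_same]; ring
        · intro l _ hl
          rw [Pi.single_eq_of_ne hl]; ring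
        · intro h; exact absurd (Finset.mem_univ _) h
        · intro l _ hl
          rw [Pi.single_eq_of_ne hl]; ring
        · intro h; exact absurd (Finset.mem_univ _) h)
    simp only [mul_sub, Finset.sum_sub_distrib] at h3
    rw [Finset.sum_eq_single j, Finset.sum_eq_single i0] at h3
    · rw [Pi.single_eq_same, Pi.single_eq_same] at h3
      linear_combination h3
    · intro l _ hl
      rw [Pi.single_eq_of_ne hl]; ring
    · intro h; exact absurd (Finset.mem_univ _) h
    · intro l _ hl
      rw [Pi.single_eq_of_ne hl]; ring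
    · intro h; exact absurd (Finset.mem_univ _) h
  refine ⟨minor r i0 / c i0, ?_, fun j => ?_⟩
  · intro h0
    obtain ⟨z, hz⟩ := hne
    apply hz
    have h3 : minor r i0 = 0 := by
      rcases div_eq_zero_iff.1 h0 with h | h
      · exact h
      · exact absurd h hi0'
    refine Finset.sum_eq_zero fun j _ => ?_
    have h4 := hprop j
    rw [h3, zero_mul] at h4
    rw [(mul_eq_zero.1 h4).resolve_right hi0', zero_mul]
  · field_simp
    exact hprop j

theorem minor_scale {m : ℕ} (r r' : Fin (m + 1) → Fin (m + 2) → K) (lam : K)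
    (g : Fin (m + 1) → ℕ) (s : Fin (m + 1) → K) (hs : s 0 = 0)
    (h : ∀ k, r k = lam ^ g k • r' k + s k • r' 0) (j : Fin (m + 2)) :
    minor r j = (∏ k, lam ^ g k) * minor r' j := by
  unfold minor
  rw [det_scale (fun k l => r k (j.succAbove l)) (fun k l => r' k (j.succAbove l)) lam g s hs]
  · ring
  · intro k
    funext l
    rw [h k]
    rfl

/-- The differential of `F` on the vector fields. -/
noncomputable def tau {n : ℕ} (F : MvPolynomial (Fin (n + 1)) K) (d : ℕ)
    (D : (Fin (n + 1) →₀ ℕ) → Derivation ℤ K K) (x : Fin (n + 1) → K) : Gi n → K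
  | none => d * eval x F
  | some (Sum.inl pq) => ∑ J ∈ (X pq.2 * pderiv pq.1 F).support,
      (X pq.2 * pderiv pq.1 F).coeff J * D J (eval x F)
  | some (Sum.inr M) => if M.1.degree + 1 = d then
      x M.2.2 * D (M.1 + Finsupp.single M.2.1 1) (eval x F) -
        x M.2.1 * D (M.1 + Finsupp.single M.2.2 1) (eval x F) else 0

theorem deg_X_pderiv {n : ℕ} {F : MvPolynomial (Fin (n + 1)) K} {d : ℕ} (hd : 0 < d)
    (hF : F.IsHomogeneous d) (q p : Fin (n + 1)) {J : Fin (n + 1) →₀ ℕ}
    (hJ : J ∈ (X q * pderiv p F).support) : J.degree = d := by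
  have h8 : (X q * pderiv p F).IsHomogeneous (1 + (d - 1)) :=
    (isHomogeneous_X _ _).mul hF.pderiv
  have := deg_of_mem h8 hJ
  omega

theorem dF_gx {n : ℕ} {F : MvPolynomial (Fin (n + 1)) K} {d : ℕ} (hd : 0 < d)
    {D : (Fin (n + 1) →₀ ℕ) → Derivation ℤ K K} (hF : F.IsHomogeneous d) (hD : Dual F d D)
    (x : Fin (n + 1) → K) (a : Gi n) : dF F x (gx F d D x a) = tau F d D x a := by
  classical
  rcases a with _ | pq | M
  · have h1 := congrArg (eval x) hF.sum_X_mul_pderiv
    rw [map_sum, map_nsmul, nsmul_eq_mul] at h1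
    simp only [tau, gx, dF]
    rw [← h1]
    refine Finset.sum_congr rfl fun l _ => ?_
    rw [map_mul, eval_X]
    ring
  · obtain ⟨G, hG⟩ : ∃ G, G = X pq.2 * pderiv pq.1 F := ⟨_, rfl⟩
    have h1 : gx F d D x (some (Sum.inl pq)) =
        x pq.2 • (Pi.single pq.1 1 : Fin (n + 1) → K) +
          ∑ J ∈ G.support, G.coeff J • fun l => D J (x l) := by
      funext l
      simp only [gx, Pi.add_apply, Pi.smul_apply, smul_eq_mul, Finset.sum_apply, ← hG]
    have h2 : ∀ (s : Finset (Fin (n + 1) →₀ ℕ)) (f : (Fin (n + 1) →₀ ℕ) → Fin (n + 1) → K),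
        dF F x (∑ J ∈ s, f J) = ∑ J ∈ s, dF F x (f J) := by
      intro s f
      unfold dF
      rw [Finset.sum_comm]
      refine Finset.sum_congr rfl fun l _ => ?_
      rw [Finset.sum_apply, Finset.mul_sum]
    have h3 : dF F x (Pi.single pq.1 1) = eval x (pderiv pq.1 F) := by
      have := dF_single F x pq.1 1
      simpa using this
    rw [h1, dF_add, dF_smul, h2, h3]
    simp only [tau, ← hG]
    have h4 : ∑ J ∈ G.support, dF F x (G.coeff J • fun l => D J (x l)) =
        (∑ J ∈ G.support, G.coeff J * D J (eval x F)) - eval x G := by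
      rw [eval_mon x G, ← Finset.sum_sub_distrib]
      refine Finset.sum_congr rfl fun J hJ => ?_
      rw [dF_smul, dF_D hF hD x (deg_X_pderiv hd hF pq.2 pq.1 (hG ▸ hJ))]
      ring
    rw [h4, hG, map_mul, eval_X]
    ring
  · simp only [tau]
    split_ifs with hM
    · have h1 : gx F d D x (some (Sum.inr M)) =
          x M.2.2 • (fun l => D (M.1 + Finsupp.single M.2.1 1) (x l)) +
            (-x M.2.1) • (fun l => D (M.1 + Finsupp.single M.2.2 1) (x l)) := by
        funext l
        simp only [gx, if_pos hM, Pi.add_apply, Pi.smul_apply, smul_eq_mul]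
        ring
      rw [h1, dF_add, dF_smul, dF_smul, dF_D hF hD x (by rw [map_add, Finsupp.degree_single, hM]),
        dF_D hF hD x (by rw [map_add, Finsupp.degree_single, hM]), mon_add, mon_add, mon_single,
        mon_single]
      ring
    · have h1 : gx F d D x (some (Sum.inr M)) = 0 := by
        funext l
        simp only [gx, if_neg hM]
        rfl
      rw [h1]
      unfold dF
      simp

end Pool.Agent.TH145.GH
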