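import Pool.Agent.TH145.GH.Cost
import Pool.Agent.TH145.GH.Lin
import Pool.Agent.W603.PV.Main
import Pool.Agent.W603.CX.Basic

/-!
The height inequality for points on a hypersurface, or on its complement, over a function field with
derivations that move the coefficients of the hypersurface independently.
-/

set_option autoImplicit false

open MvPolynomial FF Pool.Agent.W603.LV Pool.Agent.W603.PV

namespace Pool.Agent.TH145.GH

variable {k K : Type} [Field k] [Field K] [Algebra k K]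

theorem ge_mon (P : Place k K) {n : ℕ} {x : Fin (n + 1) → K} (hx : ∀ l, Ge P 0 (x l))
    (u : Fin (n + 1) →₀ ℕ) : Ge P 0 (mon x u) := by
  have h1 := Ge.prod (P := P) Finset.univ (fun i => x i ^ u i) (fun _ => 0) (fun i _ => by
    have := (hx i).pow (u i)
    rwa [mul_zero] at this)
  rwa [Finset.sum_const_zero] at h1

theorem ge_eval (P : Place k K) {n : ℕ} {x : Fin (n + 1) → K} (hx : ∀ l, Ge P 0 (x l))
    {p : MvPolynomial (Fin (n + 1)) K} {g : ℤ} (hp : ∀ u, Ge P g (p.coeff u)) :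
    Ge P g (eval x p) := by
  rw [eval_mon]
  refine Ge.sum _ _ fun u _ => ?_
  have := (hp u).mul (ge_mon P hx u)
  rwa [add_zero] at this

theorem ge_pderiv (P : Place k K) {n : ℕ} {p : MvPolynomial (Fin (n + 1)) K} {g : ℤ}
    (hp : ∀ u, Ge P g (p.coeff u)) (i : Fin (n + 1)) (u : Fin (n + 1) →₀ ℕ) :
    Ge P g ((pderiv i p).coeff u) := by
  rw [coeff_pderiv]
  have h1 : Ge P 0 (((u i : ℕ) : K) + 1) := by
    have := Ge.natCast (P := P) (u i + 1)
    push_cast at this
    exact this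
  have := (hp (u + Finsupp.single i 1)).mul h1
  rwa [add_zero] at this

theorem ge_X_mul (P : Place k K) {n : ℕ} {p : MvPolynomial (Fin (n + 1)) K} {g : ℤ}
    (hp : ∀ u, Ge P g (p.coeff u)) (i : Fin (n + 1)) (u : Fin (n + 1) →₀ ℕ) :
    Ge P g ((X i * p).coeff u) := by
  classical
  rw [coeff_X_mul']
  split_ifs
  · exact hp _
  · exact Ge.zero

theorem ge_gx (P : Place k K) {n d : ℕ} {F : MvPolynomial (Fin (n + 1)) K}
    {D : (Fin (n + 1) →₀ ℕ) → Derivation ℤ K K} (hd : 0 < d) (hF : F.IsHomogeneous d)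
    {e g : ℤ} (he0 : 0 ≤ e) (hg0 : 0 ≤ g)
    (he : ∀ f, Ge P 0 f → ∀ I : Fin (n + 1) →₀ ℕ, I.degree = d → Ge P (-e) (D I f))
    (hg : ∀ u, Ge P (-g) (F.coeff u)) {x : Fin (n + 1) → K} (hx : ∀ l, Ge P 0 (x l)) (a : Gi n)
    (l : Fin (n + 1)) : Ge P (-(e + g)) (gx F d D x a l) := by
  classical
  rcases a with _ | pq | M
  · exact (hx l).mono (by omega)
  · simp only [gx]
    refine Ge.add ?_ (Ge.sum _ _ fun J hJ => ?_)
    · refine Ge.mono (by omega : -(e + g) ≤ 0) ?_
      by_cases hl : l = pq.1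
      · rw [hl, Pi.single_eq_same, mul_one]; exact hx _
      · rw [Pi.single_eq_of_ne hl, mul_zero]; exact Ge.zero
    · have h1 := (ge_X_mul P (ge_pderiv P hg pq.1) pq.2 J).mul
        (he _ (hx l) J (deg_X_pderiv hd hF pq.2 pq.1 hJ))
      exact h1.mono (by omega)
  · simp only [gx]
    split_ifs with hM
    · refine Ge.mono (by omega : -(e + g) ≤ 0 + -e) (Ge.sub ?_ ?_)
      · exact (hx _).mul (he _ (hx l) _ (by rw [map_add, Finsupp.degree_single, hM]))
      · exact (hx _).mul (he _ (hx l) _ (by rw [map_add, Finsupp.degree_single, hM]))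
    · exact Ge.zero

/-- The data of the inequality at the places. -/
structure Data (k : Type) {K : Type} [Field k] [Field K] [Algebra k K] {n : ℕ}
    (F : MvPolynomial (Fin (n + 1)) K) (d : ℕ) (D : (Fin (n + 1) →₀ ℕ) → Derivation ℤ K K)
    (e g : Place k K → ℤ) : Prop where
  pos : 0 < d
  hom : F.IsHomogeneous d
  dual : Dual F d D
  e_nonneg : ∀ P, 0 ≤ e P
  g_nonneg : ∀ P, 0 ≤ g P
  loss : ∀ P f, Ge P 0 f → ∀ I : Fin (n + 1) →₀ ℕ, I.degree = d → Ge P (-e P) (D I f)
  coef : ∀ P u, Ge P (-g P) (F.coeff u)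
  fin : {P | e P ≠ 0 ∨ g P ≠ 0}.Finite
  smooth : ∀ P (x : Fin (n + 1) → K), (∀ l, Ge P 0 (x l)) → (∃ l, x l = 1) →
    ∃ i, eval x (pderiv i F) ≠ 0 ∧ P.ord (eval x (pderiv i F)) ≤ g P

theorem Data.of_null {n : ℕ} {F : MvPolynomial (Fin (n + 1)) K} {d : ℕ}
    {D : (Fin (n + 1) →₀ ℕ) → Derivation ℤ K K} {e g : Place k K → ℤ}
    (hpos : 0 < d) (hom : F.IsHomogeneous d) (dual : Dual F d D) (he : ∀ P, 0 ≤ e P)
    (hg : ∀ P, 0 ≤ g P)
    (loss : ∀ P f, Ge P 0 f → ∀ I : Fin (n + 1) →₀ ℕ, I.degree = d → Ge P (-e P) (D I f))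
    (coef : ∀ P u, Ge P (-g P) (F.coeff u)) (fin : {P | e P ≠ 0 ∨ g P ≠ 0}.Finite)
    (N : ℕ) (Q : Fin (n + 1) → Fin (n + 1) → MvPolynomial (Fin (n + 1)) K)
    (hQ : ∀ l, X l ^ N = ∑ i, Q l i * pderiv i F) (hQg : ∀ P l i u, Ge P (-g P) ((Q l i).coeff u)) :
    Data k F d D e g := by
  refine ⟨hpos, hom, dual, he, hg, loss, coef, fin, ?_⟩
  rintro P x hx ⟨l, hl⟩
  by_contra hcon
  push Not at hcon
  have h1 : ∀ i, Ge P (g P + 1) (eval x (pderiv i F)) := by
    intro i
    by_cases h0 : eval x (pderiv i F) = 0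
    · exact Or.inl h0
    · exact Or.inr (hcon i h0)
  have h2 := congrArg (eval x) (hQ l)
  rw [map_pow, eval_X, hl, one_pow, map_sum] at h2
  have h3 : Ge P 1 (1 : K) := by
    rw [h2]
    refine Ge.sum _ _ fun i _ => ?_
    rw [map_mul]
    have := (ge_eval P hx (hQg P l i)).mul (h1 i)
    exact this.mono (by omega)
  rcases h3 with h | h
  · exact one_ne_zero h
  · rw [P.ord_one] at h; omega

/-- Scaling of the point at a place. -/
theorem exists_scaled (P : Place k K) {n : ℕ} {x : Fin (n + 1) → K} (hx : x ≠ 0) :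
    ∃ (lam : K) (x' : Fin (n + 1) → K), lam ≠ 0 ∧ P.ord lam = pord P x ∧ x = lam • x' ∧
      (∀ l, Ge P 0 (x' l)) ∧ ∃ l, x' l = 1 := by
  obtain ⟨j, hj, hjP⟩ := exists_pord P (Function.ne_iff.1 hx)
  refine ⟨x j, (x j)⁻¹ • x, hj, hjP, ?_, fun l => ?_, j, ?_⟩
  · rw [smul_smul, mul_inv_cancel₀ hj, one_smul]
  · by_cases hl : x l = 0
    · left
      rw [Pi.smul_apply, hl, smul_zero]
    · right
      rw [Pi.smul_apply, smul_eq_mul, P.ord_mul (inv_ne_zero hj) hl, P.ord_inv, hjP]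
      have := pord_le P hl
      omega
  · rw [Pi.smul_apply, smul_eq_mul, inv_mul_cancel₀ hj]

theorem eval_smul_hom {n m : ℕ} {p : MvPolynomial (Fin (n + 1)) K} (hp : p.IsHomogeneous m)
    (x : Fin (n + 1) → K) (lam : K) : eval (lam • x) p = lam ^ m * eval x p := by
  rw [eval_mon, eval_mon, Finset.mul_sum]
  refine Finset.sum_congr rfl fun u hu => ?_
  have h1 : mon (lam • x) u = lam ^ m * mon x u := by
    rw [← deg_of_mem hp hu, Finsupp.degree_eq_sum]
    unfold mon
    rw [← Finset.prod_pow_eq_pow_sum, ← Finset.prod_mul_distrib]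
    exact Finset.prod_congr rfl fun i _ => by rw [Pi.smul_apply, smul_eq_mul, mul_pow]
  rw [h1]
  ring

theorem prod_pow_ne {m : ℕ} {lam : K} (h : lam ≠ 0) (g : Fin m → ℕ) :
    (∏ k, lam ^ g k) ≠ 0 := Finset.prod_ne_zero_iff.2 fun _ _ => pow_ne_zero _ h

theorem ord_prod_pow (P : Place k K) {m : ℕ} {lam : K} (g : Fin m → ℕ) :
    P.ord (∏ k, lam ^ g k) = (∑ k, g k : ℕ) * P.ord lam := by
  rw [Finset.prod_pow_eq_pow_sum, P.ord_pow]

/-- The local inequality on the hypersurface. -/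
theorem local_A {m d : ℕ} {F : MvPolynomial (Fin (m + 2)) K}
    {D : (Fin (m + 2) →₀ ℕ) → Derivation ℤ K K} {e g : Place k K → ℤ} (hdat : Data k F d D e g)
    {x : Fin (m + 2) → K} (hx0 : x ≠ 0) (v : Fin (m + 1) → Gi (m + 1))
    (hv : v 0 = none) {Θ : K} (hΘ : Θ ≠ 0)
    (h : ∀ j, minor (gx F d D x ∘ v) j = Θ * eval x (pderiv j F)) (P : Place k K) :
    ((∑ k, gd (v k) : ℕ) - ((d - 1 : ℕ) : ℤ)) * pord P x - ((m + 1) * (e P + g P) + g P) ≤
      P.ord Θ := by
  obtain ⟨lam, x', hlam, hlamP, hxx, hx', hx1⟩ := exists_scaled P hx0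
  obtain ⟨i, hi0, hi⟩ := hdat.smooth P x' hx' hx1
  obtain ⟨s, hs0, hs⟩ := gx_scale F d D x' lam
  have h1 := minor_scale (gx F d D x ∘ v) (gx F d D x' ∘ v) lam (fun k => gd (v k))
    (fun k => s (v k)) (by rw [hv, hs0]) (by
      intro k
      have h2 : (gx F d D x' ∘ v) 0 = x' := by
        rw [Function.comp_apply, hv]; rfl
      rw [h2, hxx]
      exact hs (v k)) i
  rw [h i, hxx, eval_smul_hom hdat.hom.pderiv] at h1
  -- the orders
  have h3 : Ge P ((m + 1) * (-(e P + g P))) (minor (gx F d D x' ∘ v) i) := by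
    unfold minor
    have h4 : Ge P ((m + 1) * (-(e P + g P)))
        (Matrix.of fun k l => (gx F d D x' ∘ v) k (i.succAbove l)).det := by
      refine ge_det P _ _ (fun _ _ => -(e P + g P)) (fun k l => ?_) (fun σ => ?_)
      · exact ge_gx P hdat.pos hdat.hom (hdat.e_nonneg P) (hdat.g_nonneg P)
          (hdat.loss P) (hdat.coef P) hx' _ _
      · rw [Finset.sum_const, Finset.card_univ, Fintype.card_fin]
        simp
    have h5 : Ge P 0 ((-1 : K) ^ (m + 1 + i : ℕ)) := by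
      have := (Ge.one (P := P)).neg.pow (m + 1 + i)
      simpa using this
    have := h5.mul h4
    rwa [zero_add] at this
  have hne1 : Θ * (lam ^ (d - 1) * eval x' (pderiv i F)) ≠ 0 :=
    mul_ne_zero hΘ (mul_ne_zero (pow_ne_zero _ hlam) hi0)
  have hm0 : minor (gx F d D x' ∘ v) i ≠ 0 := by
    intro h0
    rw [h0, mul_zero] at h1
    exact hne1 h1
  have h4 := congrArg P.ord h1
  rw [P.ord_mul hΘ (mul_ne_zero (pow_ne_zero _ hlam) hi0), P.ord_mul (pow_ne_zero _ hlam) hi0,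
    P.ord_mul (prod_pow_ne hlam _) hm0, ord_prod_pow, P.ord_pow, hlamP] at h4
  have h5 := h3.resolve_left hm0
  rw [sub_mul]
  linarith

variable [IsAlgClosed k] [CharZero k] [IsFF k K]

/-- Summation of the local inequalities. -/
theorem sum_local {n : ℕ} {x : Fin (n + 1) → K} (hx0 : x ≠ 0) {Θ : K} {a : ℤ} (ha : 1 ≤ a)
    {C : Place k K → ℤ} (hC : {P | C P ≠ 0}.Finite)
    (h : ∀ P : Place k K, (- a) * pord P x - C P ≤ P.ord Θ) (hpht : 0 ≤ pht k x) :
    pht k x ≤ ∑ᶠ P, C P := by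
  classical
  have hp := pord_finite (k := k) (Function.ne_iff.1 hx0)
  obtain ⟨T, hT⟩ := exists_supp (k := k) (Finset.univ : Finset Unit) (fun _ => Θ)
  obtain ⟨U, hU⟩ : ∃ U : Finset (Place k K), U = T ∪ (hp.toFinset ∪ hC.toFinset) := ⟨_, rfl⟩
  have h1 : ∑ P ∈ U, P.ord Θ = 0 := sum_ord_finset _ _ fun P hP => by
    rw [hU]; exact Finset.mem_union_left _ (hT () (Finset.mem_univ _) P hP)
  have h2 : pht k x = - ∑ P ∈ U, pord P x := by
    unfold pht
    rw [finsum_eq_sum_of_support_subset (s := U)]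
    intro P hP
    rw [hU]
    exact Finset.mem_union_right _ (Finset.mem_union_left _ (hp.mem_toFinset.2 hP))
  have h3 : ∑ᶠ P, C P = ∑ P ∈ U, C P := by
    rw [finsum_eq_sum_of_support_subset (s := U)]
    intro P hP
    rw [hU]
    exact Finset.mem_union_right _ (Finset.mem_union_right _ (hC.mem_toFinset.2 hP))
  have h4 := Finset.sum_le_sum (s := U) fun P _ => h P
  rw [Finset.sum_sub_distrib, ← Finset.mul_sum, h1, ← h3] at h4
  have h5 : (-a) * ∑ P ∈ U, pord P x = a * pht k x := by rw [h2]; ring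
  rw [h5] at h4
  nlinarith

/-- The height inequality on the hypersurface. -/
theorem ineqA {m d : ℕ} {F : MvPolynomial (Fin (m + 2)) K}
    {D : (Fin (m + 2) →₀ ℕ) → Derivation ℤ K K} {e g : Place k K → ℤ} (hdat : Data k F d D e g)
    (hd : 2 * (m + 1) + 1 ≤ d) {x : Fin (m + 2) → K} (hx0 : x ≠ 0) (hx : eval x F = 0) :
    pht k x ≤ ∑ᶠ P, ((m + 1) * (e P + g P) + g P) := by
  classical
  have hpl : ∃ P : Place k K, True := by
    obtain ⟨t, ht⟩ := IsFF.exists_transcendental (k := k) (K := K)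
    obtain ⟨S, hS, -, hS3⟩ := zeros (k := k) ht
    have h1 : 0 < Module.finrank (IntermediateField.adjoin k {t}) K := by
      have := IsFF.finite ht
      exact Module.finrank_pos
    rw [← hS3] at h1
    obtain ⟨P, hP⟩ : S.Nonempty := by
      by_contra hcon
      rw [Finset.not_nonempty_iff_eq_empty] at hcon
      rw [hcon, Finset.sum_empty] at h1
      exact lt_irrefl _ h1
    exact ⟨P, trivial⟩
  obtain ⟨P0, -⟩ := hpl
  -- the differential is not zero
  have hc : (fun j => eval x (pderiv j F)) ≠ 0 := by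
    obtain ⟨lam, x', hlam, -, hxx, hx', hx1⟩ := exists_scaled P0 hx0
    obtain ⟨i, hi0, -⟩ := hdat.smooth P0 x' hx' hx1
    intro h0
    have h1 := congrFun h0 i
    simp only [Pi.zero_apply] at h1
    rw [hxx, eval_smul_hom hdat.hom.pderiv] at h1
    exact mul_ne_zero (pow_ne_zero _ hlam) hi0 h1
  obtain ⟨l0, hl0⟩ := Function.ne_iff.1 hx0
  -- the kernel of the differential
  obtain ⟨φ, hφ⟩ : ∃ φ : (Fin (m + 2) → K) →ₗ[K] K, ∀ z, φ z = dF F x z :=
    ⟨∑ l, eval x (pderiv l F) • LinearMap.proj l, fun z => by simp [dF]⟩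
  have hφ0 : φ ≠ 0 := by
    intro h0
    apply hc
    funext l
    have h1 := hφ (Pi.single l 1)
    rw [h0, LinearMap.zero_apply] at h1
    have h2 := dF_single F x l 1
    simp only [one_mul] at h2
    change 0 = dF F x (fun j => (Pi.single l 1 : Fin (m + 2) → K) j) at h1
    rw [h2] at h1
    exact h1.symm
  have hker : Module.finrank K (LinearMap.ker φ) = m + 1 := by
    have h2 := LinearMap.finrank_range_add_finrank_ker φ
    have h3 : LinearMap.range φ = ⊤ := LinearMap.range_eq_top.2 (LinearMap.surjective hφ0)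
    rw [h3, finrank_top, Module.finrank_self, Module.finrank_fin_fun] at h2
    omega
  have hspan : LinearMap.ker φ ≤ Submodule.span K (Set.range (gx F d D x)) := by
    intro z hz
    have h1 := span_gx hdat.pos (D := D) hdat.hom x l0 hl0 z
    have h2 : dF F x z = 0 := by rw [← hφ]; exact hz
    rw [h2, zero_div, zero_smul, add_zero] at h1
    exact h1
  obtain ⟨v, hv0, hv⟩ := select (gx F d D x) hx0 (LinearMap.ker φ) hspan m hker m le_rfl
  have htau : ∀ a, tau F d D x a = 0 := by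
    intro a
    rcases a with _ | pq | M
    · simp only [tau, hx, mul_zero]
    · simp only [tau, hx, map_zero, mul_zero, Finset.sum_const_zero]
    · simp only [tau, hx, map_zero, mul_zero, sub_zero, ite_self]
  obtain ⟨Θ, hΘ0, hΘ⟩ := exists_theta (fun j => eval x (pderiv j F)) hc (gx F d D x ∘ v) hv
    (fun k => by
      have := dF_gx hdat.pos hdat.hom hdat.dual x (v k)
      rw [htau] at this
      exact this)
  have hgd : ∑ k, gd (v k) ≤ 2 * m + 1 := by
    rw [Fin.sum_univ_succ, hv0]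
    have h1 : ∑ k : Fin m, gd (v k.succ) ≤ ∑ _k : Fin m, 2 :=
      Finset.sum_le_sum fun k _ => gd_le _
    rw [Finset.sum_const, Finset.card_univ, Fintype.card_fin, smul_eq_mul] at h1
    have h2 : gd (none : Gi (m + 1)) = 1 := rfl
    omega
  have hpht : 0 ≤ pht k x :=
    (hgt_nonneg _).trans (Pool.Agent.W603.CX.hgt_le_pht (k := k) x hl0 hl0)
  refine sum_local hx0 (Θ := Θ) (a := ((d - 1 : ℕ) : ℤ) - (∑ k, gd (v k) : ℕ)) (by omega) ?_
    (fun P => ?_) hpht
  · refine hdat.fin.subset fun P hP => ?_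
    by_contra hcon
    simp only [Set.mem_ofPred_eq, not_or, not_not] at hcon
    apply hP
    rw [hcon.1, hcon.2]
    ring
  · have := local_A hdat hx0 v hv0 hΘ0 hΘ P
    rw [neg_sub]
    exact this

end Pool.Agent.TH145.GH
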