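import Pool.Agent.TH145.GH.Ineq

/-!
The height inequality for integral points on the complement of a hypersurface, over a function
field with derivations that move the coefficients of the hypersurface independently.
-/

set_option autoImplicit false

open MvPolynomial FF Pool.Agent.W603.LV Pool.Agent.W603.PV

namespace Pool.Agent.TH145.GH

variable {k K : Type} [Field k] [Field K] [Algebra k K]

theorem ge_tau (P : Place k K) {n d : ℕ} {F : MvPolynomial (Fin (n + 1)) K}
    {D : (Fin (n + 1) →₀ ℕ) → Derivation ℤ K K} (hd : 0 < d) (hF : F.IsHomogeneous d)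
    {e g : ℤ} (he0 : 0 ≤ e) (hg0 : 0 ≤ g) {x : Fin (n + 1) → K} (hx : ∀ l, Ge P 0 (x l))
    (hg : ∀ u, Ge P (-g) (F.coeff u)) (_hG : eval x F ≠ 0)
    (he : ∀ I : Fin (n + 1) →₀ ℕ, I.degree = d →
      Ge P (P.ord (eval x F) - e) (D I (eval x F))) (a : Gi n) :
    Ge P (P.ord (eval x F) - (e + g)) (tau F d D x a) := by
  classical
  rcases a with _ | pq | M
  · simp only [tau]
    have h1 : Ge P (P.ord (eval x F)) (eval x F) := Or.inr le_rfl
    have := (Ge.natCast (P := P) d).mul h1
    exact this.mono (by omega)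
  · simp only [tau]
    refine Ge.sum _ _ fun J hJ => ?_
    have h1 := (ge_X_mul P (ge_pderiv P hg pq.1) pq.2 J).mul
        (he J (deg_X_pderiv hd hF pq.2 pq.1 hJ))
    exact h1.mono (by omega)
  · simp only [tau]
    split_ifs with hM
    · refine Ge.mono (by omega : _ ≤ 0 + (P.ord (eval x F) - e)) (Ge.sub ?_ ?_)
      · exact (hx _).mul (he _ (by rw [map_add, Finsupp.degree_single, hM]))
      · exact (hx _).mul (he _ (by rw [map_add, Finsupp.degree_single, hM]))
    · exact Ge.zero

/-- The local inequality on the complement of the hypersurface. -/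
theorem local_B [CharZero K] {n d : ℕ} {F : MvPolynomial (Fin (n + 1)) K}
    {D : (Fin (n + 1) →₀ ℕ) → Derivation ℤ K K} {e g : Place k K → ℤ} (hdat : Data k F d D e g)
    {x : Fin (n + 1) → K} (hx0 : x ≠ 0) (v : Fin (n + 1) → Gi n)
    (hv : v 0 = none) (hG : eval x F ≠ 0) (hdet : (Matrix.of (gx F d D x ∘ v)).det ≠ 0)
    (P : Place k K) (hP : P.ord (eval x F) = d * pord P x ∨ ∀ f, f ≠ 0 →
      ∀ I : Fin (n + 1) →₀ ℕ, I.degree = d → Ge P (P.ord f - e P) (D I f)) :
    ((∑ k, gd (v k) : ℕ) - (d : ℤ)) * pord P x - ((n + 1) * (e P + g P) + g P) ≤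
      P.ord ((Matrix.of (gx F d D x ∘ v)).det / eval x F) := by
  obtain ⟨lam, x', hlam, hlamP, hxx, hx', hx1⟩ := exists_scaled P hx0
  obtain ⟨i, hi0, hi⟩ := hdat.smooth P x' hx' hx1
  obtain ⟨s, hs0, hs⟩ := gx_scale F d D x' lam
  have h1 := det_scale (gx F d D x ∘ v) (gx F d D x' ∘ v) lam (fun k => gd (v k))
    (fun k => s (v k)) (by rw [hv, hs0]) (by
      intro k
      have h2 : (gx F d D x' ∘ v) 0 = x' := by
        rw [Function.comp_apply, hv]; rfl
      rw [h2, hxx]
      exact hs (v k))
  have hG' : eval x F = lam ^ d * eval x' F := by rw [hxx, eval_smul_hom hdat.hom]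
  have hG'0 : eval x' F ≠ 0 := by
    intro h0
    rw [hG', h0, mul_zero] at hG
    exact hG rfl
  have hdet' : (Matrix.of (gx F d D x' ∘ v)).det ≠ 0 := by
    intro h0
    rw [h1, h0, mul_zero] at hdet
    exact hdet rfl
  have hent : ∀ k l, Ge P (-(e P + g P)) ((Matrix.of (gx F d D x' ∘ v)) k l) := fun k l =>
    ge_gx P hdat.pos hdat.hom (hdat.e_nonneg P) (hdat.g_nonneg P)
          (hdat.loss P) (hdat.coef P) hx' _ _
  have he0 := hdat.e_nonneg P
  have hg0 := hdat.g_nonneg P
  -- the determinant at the scaled point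
  have h3 : P.ord (eval x' F) - ((n + 1) * (e P + g P) + g P) ≤
      P.ord (Matrix.of (gx F d D x' ∘ v)).det := by
    rcases hP with hP | hP
    · have h4 : P.ord (eval x' F) = 0 := by
        rw [hG', P.ord_mul (pow_ne_zero _ hlam) hG'0, P.ord_pow, hlamP] at hP
        omega
      have h5 := (ge_det P (Matrix.of (gx F d D x' ∘ v)) ((n + 1) * (-(e P + g P)))
        (fun _ _ => -(e P + g P)) hent (fun σ => by
          rw [Finset.sum_const, Finset.card_univ, Fintype.card_fin]
          simp)).resolve_left hdet'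
      rw [h4]
      linarith
    · obtain ⟨A, hA⟩ : ∃ A, A = Matrix.of (gx F d D x' ∘ v) := ⟨_, rfl⟩
      rw [← hA] at hdet' hent ⊢
      have h4 : A.det * eval x' (pderiv i F) =
          (A.updateCol i (fun k => tau F d D x' (v k))).det := by
        have h5 : A.mulVec (fun l => eval x' (pderiv l F)) = fun k => tau F d D x' (v k) := by
          funext k
          rw [← dF_gx hdat.pos hdat.hom hdat.dual x' (v k), hA]
          unfold dF
          simp only [Matrix.mulVec, dotProduct, Matrix.of_apply, Function.comp_apply]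
          exact Finset.sum_congr rfl fun l _ => mul_comm _ _
        rw [← h5, ← Matrix.cramer_apply, Matrix.cramer_eq_adjugate_mulVec, Matrix.mulVec_mulVec,
          Matrix.adjugate_mul, Matrix.smul_mulVec, Matrix.one_mulVec]
        rfl
      have h5 : Ge P (P.ord (eval x' F) - (n + 1) * (e P + g P))
          (A.updateCol i (fun k => tau F d D x' (v k))).det := by
        refine ge_det P _ _ (fun _ l => if l = i then P.ord (eval x' F) - (e P + g P) else
          -(e P + g P)) (fun k l => ?_) (fun σ => ?_)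
        · by_cases hl : l = i
          · simp only [if_pos hl]
            rw [hl, Matrix.updateCol_self]
            exact ge_tau P hdat.pos hdat.hom he0 hg0 hx' (hdat.coef P) hG'0
              (fun I hI => hP _ hG'0 I hI) _
          · simp only [if_neg hl]
            rw [Matrix.updateCol_ne hl]
            exact hent k l
        · have h6 : ∀ l : Fin (n + 1), (if l = i then P.ord (eval x' F) - (e P + g P) else
            -(e P + g P)) = -(e P + g P) + if l = i then P.ord (eval x' F) else 0 := by
            intro l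
            split_ifs <;> ring
          simp only [h6, Finset.sum_add_distrib, Finset.sum_ite_eq', Finset.mem_univ, if_true,
            Finset.sum_const, Finset.card_univ, Fintype.card_fin]
          simp only [nsmul_eq_mul]
          push_cast
          linarith
      rw [← h4] at h5
      have h6 := h5.resolve_left (mul_ne_zero hdet' hi0)
      rw [P.ord_mul hdet' hi0] at h6
      linarith
  rw [P.ord_div hdet hG, h1, hG', P.ord_mul (prod_pow_ne hlam _) hdet', ord_prod_pow,
    P.ord_mul (pow_ne_zero _ hlam) hG'0, P.ord_pow, hlamP, sub_mul]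
  linarith

variable [IsAlgClosed k] [CharZero k] [IsFF k K]

/-- The height inequality on the complement of the hypersurface. -/
theorem ineqB {n d : ℕ} {F : MvPolynomial (Fin (n + 1)) K}
    {D : (Fin (n + 1) →₀ ℕ) → Derivation ℤ K K} {e g : Place k K → ℤ} (hdat : Data k F d D e g)
    (hd : 2 * n + 2 ≤ d) {x : Fin (n + 1) → K} (hx0 : x ≠ 0) (hG : eval x F ≠ 0)
    (hP : ∀ P : Place k K, P.ord (eval x F) = d * pord P x ∨ ∀ f, f ≠ 0 →
      ∀ I : Fin (n + 1) →₀ ℕ, I.degree = d → Ge P (P.ord f - e P) (D I f)) :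
    pht k x ≤ ∑ᶠ P, ((n + 1) * (e P + g P) + g P) := by
  classical
  have hcz : CharZero K := charZero_of_injective_algebraMap (algebraMap k K).injective
  obtain ⟨l0, hl0⟩ := Function.ne_iff.1 hx0
  have hspan : (⊤ : Submodule K (Fin (n + 1) → K)) ≤
      Submodule.span K (Set.range (gx F d D x)) := by
    intro z _
    have h1 := span_gx hdat.pos (D := D) hdat.hom x l0 hl0
    have h2 : x ∈ Submodule.span K (Set.range (gx F d D x)) :=
      Submodule.subset_span ⟨none, rfl⟩
    have h3 := Submodule.sub_mem _ (h1 x) h2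
    rw [add_sub_cancel_left] at h3
    have h4 : dF F x x = d * eval x F := dF_gx hdat.pos hdat.hom hdat.dual x none
    have h5 : dF F x x / x l0 ^ d ≠ 0 := by
      rw [h4]
      refine div_ne_zero (mul_ne_zero ?_ hG) (pow_ne_zero _ hl0)
      have := hdat.pos
      exact_mod_cast this.ne'
    rw [Submodule.smul_mem_iff _ h5] at h3
    have h6 := Submodule.sub_mem _ (h1 z) (Submodule.smul_mem _ (dF F x z / x l0 ^ d) h3)
    rwa [add_sub_cancel_right] at h6
  obtain ⟨v, hv0, hv⟩ := select (gx F d D x) hx0 ⊤ hspan n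
    (by rw [finrank_top, Module.finrank_fin_fun]) n le_rfl
  have hdet : (Matrix.of (gx F d D x ∘ v)).det ≠ 0 := by
    have h4 : IsUnit (Matrix.of (gx F d D x ∘ v)) :=
      Matrix.linearIndependent_rows_iff_isUnit.1 hv
    exact ((Matrix.isUnit_iff_isUnit_det _).1 h4).ne_zero
  have hgd : ∑ k, gd (v k) ≤ 2 * n + 1 := by
    rw [Fin.sum_univ_succ, hv0]
    have h1 : ∑ k : Fin n, gd (v k.succ) ≤ ∑ _k : Fin n, 2 :=
      Finset.sum_le_sum fun k _ => gd_le _
    rw [Finset.sum_const, Finset.card_univ, Fintype.card_fin, smul_eq_mul] at h1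
    have h2 : gd (none : Gi n) = 1 := rfl
    omega
  have hpht : 0 ≤ pht k x :=
    (hgt_nonneg _).trans (Pool.Agent.W603.CX.hgt_le_pht (k := k) x hl0 hl0)
  refine sum_local hx0 (Θ := (Matrix.of (gx F d D x ∘ v)).det / eval x F)
    (a := (d : ℤ) - (∑ k, gd (v k) : ℕ)) (by omega) ?_ (fun P => ?_) hpht
  · refine hdat.fin.subset fun P hP => ?_
    by_contra hcon
    simp only [Set.mem_ofPred_eq, not_or, not_not] at hcon
    apply hP
    rw [hcon.1, hcon.2]
    ring
  · have := local_B hdat hx0 v hv0 hG hdet P (hP P)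
    rw [neg_sub]
    exact this

end Pool.Agent.TH145.GH
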