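import Pool.Agent.W603.LV.Ram
import Pool.Agent.W603.LV.Ex
import Pool.Agent.W603.LV.Hgt

/-!
Derivations of a function field that preserve the field of constants, at the places.
-/

set_option autoImplicit false

open Polynomial FF Pool.Agent.W603.LV

namespace Pool.Agent.TH145.GH

variable {k K : Type*} [Field k] [Field K] [Algebra k K]

/-- The derivation `D` maps constants to constants. -/
def Sem (k : Type*) {K : Type*} [Field k] [Field K] [Algebra k K] (D : Derivation ℤ K K) : Prop :=
  ∀ c : k, ∃ c' : k, D (algebraMap k K c) = algebraMap k K c'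

/-- the derivative of the value of a polynomial in two variables -/
theorem chainS {D : Derivation ℤ K K} (hD : Sem k D) (G : k[X][X]) : ∃ G' : k[X][X], ∀ t y : K,
    D (E2 t y G) = E2 t y G' + E2 t y (dX G) * D t + E2 t y (derivative G) * D y := by
  classical
  have h1 : ∀ p : k[X], ∃ p' : k[X], ∀ t : K,
      D (aeval t p) = aeval t p' + aeval t (derivative p) * D t := by
    intro p
    induction p using Polynomial.induction_on' with
    | add p q hp hq =>
      obtain ⟨p', hp'⟩ := hp
      obtain ⟨q', hq'⟩ := hq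
      refine ⟨p' + q', fun t => ?_⟩
      rw [map_add, map_add, hp', hq', map_add, derivative_add, map_add]
      ring
    | monomial n a =>
      obtain ⟨a', ha'⟩ := hD a
      refine ⟨monomial n a', fun t => ?_⟩
      rw [aeval_monomial, aeval_monomial, derivative_monomial, aeval_monomial, D.leibniz,
        D.leibniz_pow, ha']
      simp only [smul_eq_mul, nsmul_eq_mul, map_mul, map_natCast]
      ring
  choose c hc using h1
  refine ⟨∑ i ∈ G.support, monomial i (c (G.coeff i)), fun t y => ?_⟩
  have h2 : E2 t y G = ∑ i ∈ G.support, aeval t (G.coeff i) * y ^ i := by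
    conv_lhs => rw [G.as_sum_support]
    rw [map_sum]
    exact Finset.sum_congr rfl fun i _ => E2_monomial t y i _
  have h3 : E2 t y (derivative G) = ∑ i ∈ G.support, aeval t (G.coeff i) * (i * y ^ (i - 1)) := by
    conv_lhs => rw [G.as_sum_support, derivative_sum]
    rw [map_sum]
    refine Finset.sum_congr rfl fun i _ => ?_
    rw [derivative_monomial, E2_monomial, map_mul, map_natCast]
    ring
  rw [h2, map_sum, h3, dX, map_sum, map_sum, Finset.sum_mul, Finset.sum_mul,
    ← Finset.sum_add_distrib, ← Finset.sum_add_distrib]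
  refine Finset.sum_congr rfl fun i _ => ?_
  rw [E2_monomial, E2_monomial, D.leibniz, D.leibniz_pow, hc]
  simp only [smul_eq_mul, nsmul_eq_mul]
  ring

variable [CharZero k] [IsFF k K] [IsAlgClosed k]

/-- A derivation that maps constants to constants and kills a uniformizer preserves the local
ring. -/
theorem reg_of_zero (P : Place k K) {π : K} (hπ : P.ord π = 1) {D : Derivation ℤ K K}
    (hS : Sem k D) (hD : D π = 0) {f : K} (hf : Ge P 0 f) : Ge P 0 (D f) := by
  have hπ0 : Ge P 0 π := Or.inr (by omega)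
  have ht : Transcendental k π := P.transcendental_of_ord_ne (by omega)
  obtain ⟨G, hG, hG'⟩ := exists_poly ht f
  have hM0 : 0 ≤ P.ord (E2 π f (derivative G)) :=
    (reg_E2 P hπ0 hf (derivative G)).resolve_left hG'
  obtain ⟨M, hM⟩ := Int.eq_ofNat_of_zero_le hM0
  obtain ⟨p, hp⟩ := approx P hπ hf M
  set q : K := aeval π p with hq
  have hpoly : ∀ g : k[X], Ge P 0 (D (aeval π g)) := by
    intro g
    rw [aeval_eq_sum_range, map_sum]
    refine Ge.sum _ _ fun i _ => ?_
    obtain ⟨c', hc'⟩ := hS (g.coeff i)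
    rw [Algebra.smul_def, D.leibniz, D.leibniz_pow, hD, hc']
    simp only [smul_eq_mul, nsmul_eq_mul, mul_zero, zero_add]
    have := (hπ0.pow i).mul (Ge.const (P := P) c')
    simpa using this
  have hq0 : Ge P 0 q := ge_aeval P hπ0 p
  have hqf : Ge P M (q - f) := by
    rw [← neg_sub]; exact hp.neg
  have hDq : Ge P 0 (D q) := hpoly p
  have h1 : Ge P M (E2 π q G) := by
    have h2 := E2_sub P hπ0 hq0 hf hqf G
    rwa [hG, sub_zero] at h2
  have e1 : E2 π q G = aeval π (eval p G) := by
    rw [hq, E2_apply]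
    exact eval₂_at_apply ((aeval π : k[X] →ₐ[k] K) : k[X] →+* K) p
  have h2 : Ge P M (D (E2 π q G)) := by
    rw [e1] at h1 ⊢
    obtain ⟨h, hh⟩ := X_pow_dvd P hπ M _ h1
    rw [hh, map_mul, map_pow, aeval_X, D.leibniz, D.leibniz_pow, hD]
    simp only [smul_eq_mul, nsmul_eq_mul, mul_zero, add_zero]
    have h5 : Ge P 1 π := Or.inr hπ.ge
    have := (h5.pow M).mul (hpoly h)
    simpa using this
  obtain ⟨G1, hG1⟩ := chainS hS G
  rw [hG1, hD, mul_zero, add_zero] at h2
  have h3 : Ge P (M : ℤ) (E2 π q (derivative G)) := by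
    have h4 := E2_sub P hπ0 hq0 hf hqf (derivative G)
    have h5 : Ge P (M : ℤ) (E2 π f (derivative G)) := Or.inr hM.ge
    have h6 := h4.add h5
    simpa using h6
  have h4 : Ge P (M : ℤ) (E2 π q G1) := by
    have h5 := h2.sub (h3.mul hDq |>.mono (by simp))
    simpa using h5
  have h5 : Ge P (M : ℤ) (E2 π f G1) := by
    have h6 := E2_sub P hπ0 hq0 hf hqf G1
    have h7 := h4.sub h6
    simpa using h7
  have h6 := hG1 π f
  rw [hG, map_zero, hD, mul_zero, add_zero] at h6
  have h7 : E2 π f (derivative G) * D f = - E2 π f G1 := by linear_combination -h6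
  have h8 : Ge P (0 + M : ℤ) (E2 π f (derivative G) * D f) := by
    rw [h7, zero_add]; exact h5.neg
  exact Ge.of_mul' hG' hM h8

/-- The loss of a derivation that maps constants to constants, at a place. -/
theorem reg_of_unif (P : Place k K) {π : K} (hπ : P.ord π = 1) {D : Derivation ℤ K K}
    (hS : Sem k D) {N : ℤ} (hN : N ≤ 0) (hD : Ge P N (D π)) {f : K} (hf : Ge P 0 f) :
    Ge P N (D f) := by
  obtain ⟨d, hd0⟩ := exists_der (k := k) (K := K)
  have h0 := der_pi_ne_zero hd0 P hπ
  obtain ⟨δ, hδ⟩ : ∃ δ : Derivation k K K, δ = (d π)⁻¹ • d := ⟨_, rfl⟩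
  have hδπ : δ π = 1 := by
    rw [hδ]; simp [h0]
  obtain ⟨D1, hD1⟩ : ∃ D1 : Derivation ℤ K K, ∀ f, D1 f = D f - D π * δ f :=
    ⟨D - D π • (δ.restrictScalars ℤ), fun f => by simp⟩
  have hS1 : Sem k D1 := by
    intro c
    obtain ⟨c', hc'⟩ := hS c
    exact ⟨c', by rw [hD1, hc', Derivation.map_algebraMap, mul_zero, sub_zero]⟩
  have h1 := reg_of_zero P hπ hS1 (by rw [hD1, hδπ, mul_one, sub_self]) hf
  have h2 := der_reg P hπ δ hδπ hf
  have h3 : D f = D1 f + D π * δ f := by rw [hD1]; ring
  rw [h3]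
  refine (h1.mono hN).add ?_
  have := hD.mul h2
  rwa [add_zero] at this

end Pool.Agent.TH145.GH
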