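import Pool.Agent.TH145.GH.Rat

/-!
Sequences of elements of a finitely generated field whose heights in all variables are bounded.
-/

set_option autoImplicit false

open FF Pool.Agent.W603.LV Pool.Agent.W602.RG

namespace Pool.Agent.TH145.GH

section equiv

variable {κ L : Type} [Field κ] [Field L] [Algebra κ L]

/-- The image of a place under an automorphism that preserves the constants. -/
noncomputable def pull (τ : L ≃+* L) (hτ : ∀ c : κ, ∃ c' : κ, τ (algebraMap κ L c) = algebraMap κ L c')
    (P : Place κ L) : Place κ L where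
  ord f := P.ord (τ f)
  ord_zero := by rw [map_zero, P.ord_zero]
  ord_mul := by
    intro f g hf hg
    rw [map_mul]
    exact P.ord_mul ((map_ne_zero_iff _ τ.injective).2 hf) ((map_ne_zero_iff _ τ.injective).2 hg)
  ord_add := by
    intro f g hf hg hfg
    rw [map_add]
    refine P.ord_add ((map_ne_zero_iff _ τ.injective).2 hf) ((map_ne_zero_iff _ τ.injective).2 hg) ?_
    rw [← map_add]
    exact (map_ne_zero_iff _ τ.injective).2 hfg
  ord_const := by
    intro c hc
    obtain ⟨c', hc'⟩ := hτ c
    rw [hc']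
    refine P.ord_const ?_
    rintro rfl
    rw [map_zero, map_eq_zero_iff _ τ.injective, map_eq_zero] at hc'
    exact hc hc'
  surj := by
    obtain ⟨t, ht0, ht⟩ := P.surj
    refine ⟨τ.symm t, (map_ne_zero_iff _ τ.symm.injective).2 ht0, ?_⟩
    rw [RingEquiv.apply_symm_apply]
    exact ht

theorem hgt_equiv (τ : L ≃+* L)
    (hτ : ∀ c : κ, ∃ c' : κ, τ (algebraMap κ L c) = algebraMap κ L c')
    (hτ' : ∀ c : κ, ∃ c' : κ, τ.symm (algebraMap κ L c) = algebraMap κ L c') (g : L) :
    hgt κ (τ g) = hgt κ g := by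
  unfold hgt
  let e : Place κ L ≃ Place κ L :=
    { toFun := pull τ hτ
      invFun := pull τ.symm hτ'
      left_inv := fun P => by
        apply Place.ext
        funext f
        change P.ord (τ (τ.symm f)) = P.ord f
        rw [RingEquiv.apply_symm_apply]
      right_inv := fun P => by
        apply Place.ext
        funext f
        change P.ord (τ.symm (τ f)) = P.ord f
        rw [RingEquiv.symm_apply_apply] }
  exact finsum_comp_equiv (f := fun P : Place κ L => max (-P.ord g) 0) e

end equiv

theorem hgt_sum_le {κ L : Type} [Field κ] [Field L] [Algebra κ L] [IsAlgClosed κ] [CharZero κ]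
    [IsFF κ L] {α : Type} (s : Finset α) (f : α → L) :
    hgt κ (∑ i ∈ s, f i) ≤ ∑ i ∈ s, hgt κ (f i) := by
  classical
  induction s using Finset.induction_on with
  | empty =>
    rw [Finset.sum_empty, Finset.sum_empty]
    have := Pool.Agent.TH145.MG.hgt_const (k := κ) (L := L) 0
    rw [map_zero] at this
    exact this.le
  | insert a s ha ih =>
    rw [Finset.sum_insert ha, Finset.sum_insert ha]
    exact (Pool.Agent.TH145.MW.hgt_add_le (k := κ) _ _).trans (add_le_add le_rfl ih)

variable {k0 K ι : Type} [Field k0] [Field K] [Algebra k0 K]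

/-- The field of constants of the structure of the `i`-th variable. -/
noncomputable def kap (k0 : Type) {K ι : Type} [Field k0] [Field K] [Algebra k0 K] (y : ι → K)
    (i : ι) : Subfield K := acl (Set.range (algebraMap k0 K) ∪ y '' {j | j ≠ i})

theorem kap_base (y : ι → K) (i : ι) (r : k0) : algebraMap k0 K r ∈ kap k0 y i :=
  subset_acl _ (Or.inl ⟨r, rfl⟩)

theorem kap_oth (y : ι → K) {i j : ι} (h : j ≠ i) : y j ∈ kap k0 y i :=
  subset_acl _ (Or.inr ⟨j, h, rfl⟩)

theorem kap_own {y : ι → K} (hy : AlgebraicIndependent k0 y) (i : ι) : y i ∉ kap k0 y i := by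
  intro h
  have h1 : Transcendental (Algebra.adjoin k0 (y '' {j | j ≠ i})) (y i) :=
    hy.transcendental_adjoin (by simp)
  apply h1
  apply IntermediateField.isAlgebraic_adjoin_iff.1
  have h2 := mem_acl.1 h
  rw [← IntermediateField.adjoin_toSubfield] at h2
  exact h2

/-- The compositum. -/
noncomputable def LL (k0 : Type) {K ι : Type} [Field k0] [Field K] [Algebra k0 K] (y : ι → K)
    (E : Set K) (i : ι) : IntermediateField (kap k0 y i) K :=
  IntermediateField.adjoin (kap k0 y i) E

theorem subset_LL (y : ι → K) (E : Set K) (i : ι) {x : K} (hx : x ∈ E) : x ∈ LL k0 y E i :=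
  IntermediateField.subset_adjoin _ _ hx

theorem acl_fix {S : Set K} (σ : K →+* K) (hσ : ∀ s ∈ S, σ s = s) {x : K} (hx : x ∈ acl S) :
    σ x ∈ acl S := by
  obtain ⟨p, hp0, hp⟩ := mem_acl.1 hx
  refine mem_acl.2 ⟨p, hp0, ?_⟩
  have hfix : ∀ z ∈ Subfield.closure S, σ z = z := by
    intro z hz
    have h1 : Subfield.closure S ≤ RingHom.eqLocusField σ (RingHom.id K) := by
      rw [Subfield.closure_le]
      intro s hs
      exact hσ s hs
    exact h1 hz
  have h1 := congrArg σ hp
  rw [map_zero, Polynomial.aeval_def, Polynomial.hom_eval₂] at h1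
  rw [Polynomial.aeval_def]
  have h2 : σ.comp (algebraMap (Subfield.closure S) K) = algebraMap (Subfield.closure S) K := by
    ext z
    exact hfix _ z.2
  rwa [h2] at h1

theorem range_mem (y : ι → K) (j : ι) : y j ∈ IntermediateField.adjoin k0 (Set.range y) :=
  IntermediateField.subset_adjoin _ _ ⟨j, rfl⟩

theorem kap_fix (y : ι → K) (i : ι) (φ : K →+* K)
    (hφ : ∀ x ∈ IntermediateField.adjoin k0 (Set.range y), φ x = x) {x : K}
    (hx : x ∈ kap k0 y i) : φ x ∈ kap k0 y i := by
  refine acl_fix φ ?_ hx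
  rintro s (⟨r, rfl⟩ | ⟨j, -, rfl⟩)
  · exact hφ _ ((IntermediateField.adjoin k0 (Set.range y)).algebraMap_mem r)
  · exact hφ _ (range_mem y j)

theorem LL_fix (y : ι → K) (i : ι) (φ : K →+* K)
    (hφ : ∀ x ∈ IntermediateField.adjoin k0 (Set.range y), φ x = x) {E : Set K}
    (hE : ∀ x ∈ E, φ x ∈ E) {x : K} (hx : x ∈ LL k0 y E i) : φ x ∈ LL k0 y E i := by
  have h1 : (LL k0 y E i).toSubfield ≤ (LL k0 y E i).toSubfield.comap φ := by
    unfold LL
    conv_lhs => rw [IntermediateField.adjoin_toSubfield]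
    rw [Subfield.closure_le]
    rintro w (⟨c, rfl⟩ | hw)
    · exact IntermediateField.algebraMap_mem (IntermediateField.adjoin (kap k0 y i) E)
        (⟨_, kap_fix y i φ hφ c.2⟩ : kap k0 y i)
    · exact IntermediateField.subset_adjoin _ _ (hE w hw)
  exact h1 hx

section gal

variable {y : ι → K} (E : IntermediateField (IntermediateField.adjoin k0 (Set.range y)) K)

theorem y_mem (j : ι) : y j ∈ E :=
  E.algebraMap_mem ⟨y j, range_mem y j⟩

theorem k0_mem (r : k0) : algebraMap k0 K r ∈ E :=
  E.algebraMap_mem ⟨algebraMap k0 K r, (IntermediateField.adjoin k0 (Set.range y)).algebraMap_mem r⟩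

theorem LL_ff [CharZero K] [IsAlgClosed K] (hy : AlgebraicIndependent k0 y)
    [FiniteDimensional (IntermediateField.adjoin k0 (Set.range y)) E] (i : ι) :
    IsFF (kap k0 y i) (LL k0 y (E : Set K) i) := by
  classical
  obtain ⟨R, hR0⟩ : ∃ R, R = IntermediateField.adjoin k0 (Set.range y) := ⟨_, rfl⟩
  let b := Module.finBasis (IntermediateField.adjoin k0 (Set.range y)) E
  have hac : IsAlgClosed (kap k0 y i) := acl_isAlgClosed _
  have hcz : CharZero (kap k0 y i) := charZero_of_injective_algebraMap
    (algebraMap ℚ (kap k0 y i)).injective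
  obtain ⟨T, hT⟩ : ∃ T : Finset K, T = Finset.univ.image fun j => ((b j : E) : K) := ⟨_, rfl⟩
  have hTE : ∀ t ∈ T, t ∈ E := by
    intro t ht
    rw [hT, Finset.mem_image] at ht
    obtain ⟨j, -, rfl⟩ := ht
    exact (b j).2
  have hR : ∀ x ∈ IntermediateField.adjoin k0 (Set.range y),
      x ∈ IntermediateField.adjoin (kap k0 y i) {y i} := by
    intro x hx
    have h1 : (IntermediateField.adjoin k0 (Set.range y)).toSubfield ≤
        (IntermediateField.adjoin (kap k0 y i) {y i}).toSubfield := by
      rw [IntermediateField.adjoin_toSubfield, Subfield.closure_le]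
      rintro w (⟨r, rfl⟩ | ⟨j, rfl⟩)
      · exact IntermediateField.algebraMap_mem _ (⟨_, kap_base y i r⟩ : kap k0 y i)
      · by_cases hj : j = i
        · rw [hj]; exact IntermediateField.subset_adjoin _ _ rfl
        · exact IntermediateField.algebraMap_mem _ (⟨_, kap_oth y hj⟩ : kap k0 y i)
    exact h1 hx
  have h1 := isFF_adjoin (kap k0 y i) hac hcz (kap_own hy i) T (by
    intro t ht
    have h2 : IsAlgebraic (IntermediateField.adjoin k0 (Set.range y)) (⟨t, hTE t ht⟩ : E) :=
      Algebra.IsAlgebraic.isAlgebraic _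
    have h3 : IsAlgebraic (IntermediateField.adjoin k0 (Set.range y)) t :=
      h2.algebraMap (A := K)
    exact Pool.Agent.TH145.MF.alg_mono
      (F1 := (IntermediateField.adjoin k0 (Set.range y)).toSubfield)
      (F2 := (IntermediateField.adjoin (kap k0 y i) {y i}).toSubfield) (fun x hx => hR x hx) h3)
  have h2 : IntermediateField.adjoin (kap k0 y i) (insert (y i) (T : Set K)) =
      LL k0 y (E : Set K) i := by
    apply le_antisymm
    · rw [IntermediateField.adjoin_le_iff]
      rintro w (rfl | hw)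
      · exact subset_LL y _ i (y_mem E i)
      · exact subset_LL y _ i (hTE w (by simpa using hw))
    · unfold LL
      rw [IntermediateField.adjoin_le_iff]
      intro w hw
      have h3 := b.sum_repr ⟨w, hw⟩
      have h4 : w = ∑ j, ((b.repr ⟨w, hw⟩ j : IntermediateField.adjoin k0 (Set.range y)) : K) *
          ((b j : E) : K) := by
        have h5 := congrArg (fun z : E => (z : K)) h3
        dsimp only at h5
        refine h5.symm.trans ?_
        rw [← IntermediateField.algebraMap_apply, map_sum]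
        refine Finset.sum_congr rfl fun j _ => ?_
        rw [Algebra.smul_def, map_mul]
        rfl
      change w ∈ IntermediateField.adjoin (kap k0 y i) (insert (y i) (T : Set K))
      rw [h4]
      refine sum_mem fun j _ => mul_mem ?_ ?_
      · have h5 := hR _ (b.repr ⟨w, hw⟩ j).2
        exact IntermediateField.adjoin.mono _ _ _ (by simp) h5
      · refine IntermediateField.subset_adjoin _ _ (Or.inr ?_)
        rw [hT]
        simp
  rw [h2] at h1
  exact h1

variable [CharZero K] [IsAlgClosed K]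

/-- The height of a conjugate. -/
theorem hgt_conj (hy : IsTranscendenceBasis k0 y)
    (σ : E ≃ₐ[IntermediateField.adjoin k0 (Set.range y)] E) (i : ι) (f : E) :
    hgt (kap k0 y i) (⟨((σ f : E) : K), subset_LL y _ i (σ f).2⟩ : LL k0 y (E : Set K) i) =
      hgt (kap k0 y i) (⟨(f : K), subset_LL y _ i f.2⟩ : LL k0 y (E : Set K) i) := by
  have hal : Algebra.IsAlgebraic (IntermediateField.adjoin k0 (Set.range y)) K :=
    hy.isAlgebraic_field
  have hacl : IsAlgClosure (IntermediateField.adjoin k0 (Set.range y)) K := ⟨inferInstance, hal⟩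
  have hnor : Normal (IntermediateField.adjoin k0 (Set.range y)) K := IsAlgClosure.normal _ K
  obtain ⟨ρ, hρ⟩ : ∃ ρ, ρ = σ.liftNormal K := ⟨_, rfl⟩
  have hρσ : ∀ x : E, ρ (x : K) = ((σ x : E) : K) := by
    intro x
    rw [hρ]
    exact σ.liftNormal_commutes K x
  have hfix : ∀ x ∈ IntermediateField.adjoin k0 (Set.range y), ρ x = x := fun x hx =>
    ρ.commutes ⟨x, hx⟩
  have hfix' : ∀ x ∈ IntermediateField.adjoin k0 (Set.range y), ρ.symm x = x := fun x hx =>
    ρ.symm.commutes ⟨x, hx⟩
  have hE : ∀ x ∈ (E : Set K), ρ x ∈ (E : Set K) := by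
    intro x hx
    rw [show ρ x = _ from hρσ ⟨x, hx⟩]
    exact (σ ⟨x, hx⟩).2
  have hE' : ∀ x ∈ (E : Set K), ρ.symm x ∈ (E : Set K) := by
    intro x hx
    have h1 := hρσ (σ.symm ⟨x, hx⟩)
    rw [AlgEquiv.apply_symm_apply] at h1
    change ρ ((σ.symm ⟨x, hx⟩ : E) : K) = x at h1
    rw [← h1, AlgEquiv.symm_apply_apply]
    exact (σ.symm ⟨x, hx⟩).2
  let τ : LL k0 y (E : Set K) i ≃+* LL k0 y (E : Set K) i :=
    { toFun := fun x => ⟨ρ x, LL_fix y i (RingHomClass.toRingHom ρ) hfix hE x.2⟩
      invFun := fun x => ⟨ρ.symm x, LL_fix y i (RingHomClass.toRingHom ρ.symm) hfix' hE' x.2⟩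
      left_inv := fun x => Subtype.ext (ρ.symm_apply_apply x)
      right_inv := fun x => Subtype.ext (ρ.apply_symm_apply x)
      map_mul' := fun a b => Subtype.ext (map_mul ρ (a : K) b)
      map_add' := fun a b => Subtype.ext (map_add ρ (a : K) b) }
  have h1 := hgt_equiv (κ := kap k0 y i) τ
    (fun c => ⟨⟨_, kap_fix y i (RingHomClass.toRingHom ρ) hfix c.2⟩, rfl⟩)
    (fun c => ⟨⟨_, kap_fix y i (RingHomClass.toRingHom ρ.symm) hfix' c.2⟩, rfl⟩)
    (⟨(f : K), subset_LL y _ i f.2⟩ : LL k0 y (E : Set K) i)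
  rw [← h1]
  congr 1
  apply Subtype.ext
  exact (hρσ f).symm

end gal

end Pool.Agent.TH145.GH
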