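import Pool.Agent.TH145.GH.Setup
import Pool.Agent.W602.GT.MordDefs

/-!
Generic hypersurfaces of degree `d ≥ 2 n + 1` are Mordellic.
-/

set_option autoImplicit false

open MvPolynomial Pool.Agent.W602.GT LinearAlgebra.Projectivization

namespace Pool.Agent.TH145.GH

/-- Everything that is needed over a field generated by a finite set over `k0`. -/
theorem exists_all {k0 K : Type} [Field k0] [Field K] [Algebra k0 K] [IsAlgClosed K] [CharZero K]
    {n d : ℕ} (hd : 0 < d) {F : MvPolynomial (Fin (n + 1)) K} (hF : F.IsHomogeneous d)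
    (hind : AlgebraicIndependent k0 fun I : {I : Fin (n + 1) →₀ ℕ // I.degree = d} => F.coeff I.1)
    (T : Finset K) :
    ∃ (B : Set K) (_ : B.Finite) (K1 : IntermediateField (IntermediateField.adjoin k0 B) K)
      (y : B → K1) (N : ℕ) (E : IntermediateField (IntermediateField.adjoin k0 (Set.range y)) K1)
      (F1 : MvPolynomial (Fin (n + 1)) E.toSubfield)
      (DE : (Fin (n + 1) →₀ ℕ) → E.toSubfield → E.toSubfield)
      (Q1 : Fin (n + 1) → Fin (n + 1) → MvPolynomial (Fin (n + 1)) E.toSubfield)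
      (D : (Fin (n + 1) →₀ ℕ) → Derivation ℤ K1 K1),
      IsAlgClosed K1 ∧ CharZero K1 ∧ IsTranscendenceBasis k0 y ∧
      FiniteDimensional (IntermediateField.adjoin k0 (Set.range y)) E ∧
      IsGalois (IntermediateField.adjoin k0 (Set.range y)) E ∧ Gen F1 d DE N Q1 ∧
      (∀ I (x : E.toSubfield), D I x = (DE I x : K1)) ∧
      (∀ I (r : k0), D I (algebraMap k0 K1 r) = 0) ∧
      (∀ I j, ∃ r : k0, D I (y j) = algebraMap k0 K1 r) ∧
      map ((algebraMap K1 K).comp E.toSubfield.subtype) F1 = F ∧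
      ∀ t ∈ IntermediateField.adjoin k0 (T : Set K), ∃ e : K1, e ∈ E ∧ (e : K) = t := by
  classical
  obtain ⟨N, Q, hQ⟩ := exists_null hd hF hind
  obtain ⟨T', hT'⟩ : ∃ T' : Finset K, T' = T ∪ Finset.univ.biUnion
    fun p : Fin (n + 1) × Fin (n + 1) => (Q p.1 p.2).support.image fun u => (Q p.1 p.2).coeff u :=
      ⟨_, rfl⟩
  have := finite_deg n d
  obtain ⟨B, hB, K1, y, s, hK1, hy, hys, hs, hTK⟩ := exists_closed hind T'
  have hc : CharZero K1 := by
    constructor
    intro a b hab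
    have h1 := congrArg (algebraMap K1 K) hab
    rw [map_natCast, map_natCast] at h1
    exact Nat.cast_injective h1
  have hFK : ∀ u, F.coeff u ∈ Set.range (algebraMap K1 K) := by
    intro u
    by_cases hu : u ∈ F.support
    · exact ⟨y (s ⟨u, deg_of_mem hF hu⟩), hys _⟩
    · rw [notMem_support_iff.1 hu]; exact ⟨0, map_zero _⟩
  have hQK : ∀ l i u, (Q l i).coeff u ∈ Set.range (algebraMap K1 K) := by
    intro l i u
    by_cases hu : u ∈ (Q l i).support
    · refine ⟨⟨_, hTK _ ?_⟩, rfl⟩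
      rw [hT']
      refine Finset.mem_union_right _ (Finset.mem_biUnion.2 ⟨(l, i), Finset.mem_univ _, ?_⟩)
      exact Finset.mem_image.2 ⟨u, hu, rfl⟩
    · rw [notMem_support_iff.1 hu]; exact ⟨0, map_zero _⟩
  obtain ⟨F0, hF0⟩ := lift_poly' (algebraMap K1 K) F hFK
  choose Q0 hQ0 using fun l i => lift_poly' (algebraMap K1 K) (Q l i) (hQK l i)
  have hinj : Function.Injective (algebraMap K1 K) := (algebraMap K1 K).injective
  obtain ⟨T1, hT1⟩ : ∃ T1 : Finset K1, ∀ t ∈ T, ∃ t1 ∈ T1, (t1 : K) = t := by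
    refine ⟨T.preimage (fun x : K1 => (x : K)) hinj.injOn, fun t ht => ?_⟩
    refine ⟨⟨t, hTK t ?_⟩, ?_, rfl⟩
    · rw [hT']; exact Finset.mem_union_left _ ht
    · rw [Finset.mem_preimage]; exact ht
  obtain ⟨E, F1, DE, Q1, D, h1, h2, h3, h4, h5, h6, h7, h8⟩ := exists_setup hy hd (F := F0)
    (MvPolynomial.IsHomogeneous.of_map (f := algebraMap K1 K) hinj (by rw [hF0]; exact hF)) s hs
    (fun I => by
      apply hinj
      rw [← coeff_map, hF0]
      exact (hys I).symm) Q0 (N := N) (fun l => by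
      apply map_injective _ hinj
      rw [map_pow, map_X, hQ l, map_sum]
      refine Finset.sum_congr rfl fun i _ => ?_
      rw [map_mul, hQ0, ← hF0, pderiv_map]) T1
  refine ⟨B, hB, K1, y, N, E, F1, DE, Q1, D, hK1, hc, hy, h1, h2, h3, h4, h5, h6, ?_, ?_⟩
  · rw [← map_map, h7, hF0]
  · intro t ht
    have h9 : t ∈ Subfield.closure (Set.range (algebraMap k0 K) ∪ (T : Set K)) := by
      rw [← IntermediateField.adjoin_toSubfield]
      exact ht
    have h10 : Subfield.closure (Set.range (algebraMap k0 K) ∪ (T : Set K)) ≤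
        E.toSubfield.map (algebraMap K1 K) := by
      rw [Subfield.closure_le]
      rintro z (⟨r, rfl⟩ | hz)
      · exact ⟨algebraMap k0 K1 r, E.algebraMap_mem (algebraMap k0 _ r), rfl⟩
      · obtain ⟨t1, ht1, htz⟩ := hT1 z hz
        exact ⟨t1, h8 t1 ht1, htz⟩
    obtain ⟨e, he, het⟩ := h10 h9
    exact ⟨e, he, het⟩

/-- Finiteness of rational points over a field generated by a finite set over `k0`. -/
theorem fin_points {k0 K : Type} [Field k0] [Field K] [Algebra k0 K] [IsAlgClosed K] [CharZero K]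
    [IsAlgClosed k0] {n d : ℕ} (hd : 2 * n + 1 ≤ d) {F : MvPolynomial (Fin (n + 1)) K}
    (hF : F.IsHomogeneous d)
    (hind : AlgebraicIndependent k0 fun I : {I : Fin (n + 1) →₀ ℕ // I.degree = d} => F.coeff I.1)
    (T : Finset K) (l0 : Fin (n + 1)) :
    {x : Fin (n + 1) → K | (∀ j, x j ∈ IntermediateField.adjoin k0 (T : Set K)) ∧ x l0 = 1 ∧
      eval x F = 0}.Finite := by
  rcases n with _ | m
  · apply Set.Subsingleton.finite
    rintro x ⟨-, hx, -⟩ x' ⟨-, hx', -⟩
    funext j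
    have hj : j = l0 := by
      apply Fin.ext
      omega
    rw [hj, hx, hx']
  · obtain ⟨B, hB, K1, y, N, E, F1, DE, Q1, D, hK1, hc, hy, h1, h2, h3, h4, h5, h6, h7, h8⟩ :=
      exists_all (by omega) hF hind T
    have : Finite B := hB
    have h9 := fin_A E hy h3 D h4 h5 h6 hd l0
    refine (h9.image fun x j => (x j : K)).subset ?_
    rintro x ⟨hx, hxl, hxF⟩
    choose e he hex using fun j => h8 (x j) (hx j)
    refine ⟨e, ⟨he, ?_, ?_⟩, funext hex⟩
    · apply Subtype.ext
      rw [hex, hxl]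
      rfl
    · apply (algebraMap K1 K).injective
      rw [map_zero, ← hxF, ← h7, eval_map, eval_map]
      have h10 := hom_eval₂ F1 E.toSubfield.subtype (algebraMap K1 K) e
      rw [h10]
      congr 1
      funext j
      exact hex j

/-- The points with coordinates in a subfield. -/
theorem proj_finite {K : Type} [Field K] {n : ℕ} (k1 : Subfield K)
    (V : Set (Fin (n + 1) → K)) (hV : ∀ x ∈ V, ∀ a : K, a ≠ 0 → a • x ∈ V)
    (h : ∀ l0 : Fin (n + 1), {x : Fin (n + 1) → K | (∀ j, x j ∈ k1) ∧ x l0 = 1 ∧ x ∈ V}.Finite) :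
    {p : ℙ K (Fin (n + 1) → K) | ∃ x ∈ V, (∀ i, x i ∈ k1) ∧
      ∃ hx : x ≠ 0, p = Projectivization.mk K x hx}.Finite := by
  classical
  refine (Set.finite_iUnion fun l0 : Fin (n + 1) =>
    (h l0).image fun x => if hx : x ≠ 0 then Projectivization.mk K x hx else
      Projectivization.mk K (fun _ => 1) (fun h => one_ne_zero (congrFun h 0))).subset ?_
  rintro p ⟨x, hxV, hxk, hx, rfl⟩
  obtain ⟨l, hl⟩ : ∃ l, x l ≠ 0 := Function.ne_iff.1 hx
  refine Set.mem_iUnion.2 ⟨l, (x l)⁻¹ • x, ⟨fun j => ?_, ?_, hV x hxV _ (inv_ne_zero hl)⟩, ?_⟩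
  · exact mul_mem (inv_mem (hxk l)) (hxk j)
  · rw [Pi.smul_apply, smul_eq_mul, inv_mul_cancel₀ hl]
  · dsimp only
    rw [dif_pos (smul_ne_zero (inv_ne_zero hl) hx), Projectivization.mk_eq_mk_iff']
    exact ⟨(x l)⁻¹, rfl⟩

end Pool.Agent.TH145.GH
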