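import Pool.Agent.TH145.GH.Acl
import Pool.Agent.TH145.GH.Coprime

/-!
Rational functions of several variables whose heights with respect to all the variables are
bounded.
-/

set_option autoImplicit false

open MvPolynomial FF Pool.Agent.W603.LV Pool.Agent.W602.RG

namespace Pool.Agent.TH145.GH

variable {k0 K ι : Type} [Field k0] [Field K] [Algebra k0 K]

section deg

variable [DecidableEq ι]

/-- polynomials in one of the variables -/
noncomputable def oneVar (k0 : Type) [Field k0] (i : ι) :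
    MvPolynomial ι k0 ≃ₐ[k0] Polynomial (MvPolynomial {j // j ≠ i} k0) :=
  (renameEquiv k0 (Equiv.optionSubtypeNe i).symm).trans (optionEquivLeft k0 _)

theorem oneVar_deg (i : ι) (p : MvPolynomial ι k0) :
    (oneVar k0 i p).natDegree = p.degreeOf i := by
  unfold oneVar
  rw [AlgEquiv.trans_apply, natDegree_optionEquivLeft, renameEquiv_apply]
  have h := degreeOf_rename_of_injective (p := p) (Equiv.injective (Equiv.optionSubtypeNe i).symm) i
  rw [Equiv.optionSubtypeNe_symm_self] at h
  exact h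

theorem oneVar_eval (i : ι) (y : ι → K) {κ : Subfield K} (ψ : MvPolynomial {j // j ≠ i} k0 →+* κ)
    (hψ : ∀ a, ((ψ a : κ) : K) = aeval (fun j : {j // j ≠ i} => y j) a) (p : MvPolynomial ι k0) :
    Polynomial.aeval (y i) ((oneVar k0 i p).map ψ) = aeval y p := by
  have h1 : (((Polynomial.aeval (y i) : Polynomial κ →ₐ[κ] K) : Polynomial κ →+* K).comp
      ((Polynomial.mapRingHom ψ).comp (oneVar k0 i : MvPolynomial ι k0 →+* _))) =
      ((aeval y : MvPolynomial ι k0 →ₐ[k0] K) : MvPolynomial ι k0 →+* K) := by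
    apply MvPolynomial.ringHom_ext
    · intro r
      simp only [RingHom.comp_apply, Polynomial.coe_mapRingHom, RingHom.coe_coe]
      have h2 : (oneVar k0 i) (C r) = Polynomial.C (C r) := by
        have := (oneVar k0 i).commutes r
        exact this
      rw [h2, Polynomial.map_C, Polynomial.aeval_C]
      change ((ψ (C r) : κ) : K) = _
      rw [hψ, aeval_C, aeval_C]
    · intro j
      simp only [RingHom.comp_apply, Polynomial.coe_mapRingHom, RingHom.coe_coe]
      by_cases hj : j = i
      · subst hj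
        have h2 : (oneVar k0 j) (X j) = Polynomial.X := by
          unfold oneVar
          rw [AlgEquiv.trans_apply, renameEquiv_apply, rename_X, Equiv.optionSubtypeNe_symm_self,
            optionEquivLeft_X_none]
        rw [h2, Polynomial.map_X, Polynomial.aeval_X, aeval_X]
      · have h2 : (oneVar k0 i) (X j) = Polynomial.C (X ⟨j, hj⟩) := by
          unfold oneVar
          rw [AlgEquiv.trans_apply, renameEquiv_apply, rename_X, Equiv.optionSubtypeNe_symm_of_ne hj,
            optionEquivLeft_X_some]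
        rw [h2, Polynomial.map_C, Polynomial.aeval_C]
        change ((ψ (X ⟨j, hj⟩) : κ) : K) = _
        rw [hψ, aeval_X, aeval_X]
  exact congrArg (fun f => f p) h1

end deg

theorem deg_le_hgt [CharZero K] {y : ι → K} (hy : AlgebraicIndependent k0 y) {κ : Subfield K}
    {L : IntermediateField κ K} {i : ι} (hac : IsAlgClosed κ) (hFF : IsFF κ L)
    (hbase : ∀ r : k0, algebraMap k0 K r ∈ κ) (hoth : ∀ j, j ≠ i → y j ∈ κ) (hown : y i ∉ κ)
    (hL : y i ∈ L) {p q : MvPolynomial ι k0} (hpq : IsRelPrime p q) (hp : p ≠ 0) (hq : q ≠ 0)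
    (c : L) (hc : (c : K) = aeval y p / aeval y q) :
    (p.degreeOf i : ℤ) ≤ hgt κ c ∧ (q.degreeOf i : ℤ) ≤ hgt κ c := by
  classical
  have hcz : CharZero κ := charZero_of_injective_algebraMap (algebraMap ℚ κ).injective
  -- the coefficients
  obtain ⟨ψ0, hψ0⟩ : ∃ ψ0 : MvPolynomial {j // j ≠ i} k0 →+* K,
      ψ0 = ((aeval (fun j : {j // j ≠ i} => y j) : MvPolynomial {j // j ≠ i} k0 →ₐ[k0] K) :
        MvPolynomial {j // j ≠ i} k0 →+* K) := ⟨_, rfl⟩
  have hψκ : ∀ a, ψ0 a ∈ κ := by
    intro a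
    rw [hψ0]
    change aeval (fun j : {j // j ≠ i} => y j) a ∈ κ
    rw [aeval_def, eval₂_eq]
    refine sum_mem fun u _ => mul_mem (hbase _) (prod_mem fun j _ => pow_mem (hoth _ j.2) _)
  let ψ : MvPolynomial {j // j ≠ i} k0 →+* κ := ψ0.codRestrict κ hψκ
  have hψ : ∀ a, ((ψ a : κ) : K) = aeval (fun j : {j // j ≠ i} => y j) a := by
    intro a
    change ψ0 a = _
    rw [hψ0]
    rfl
  have hψi : Function.Injective ψ := by
    intro a b hab
    have h1 : AlgebraicIndependent k0 (fun j : {j // j ≠ i} => y j) :=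
      hy.comp _ Subtype.val_injective
    apply h1
    change aeval (fun j : {j // j ≠ i} => y j) a = aeval (fun j : {j // j ≠ i} => y j) b
    rw [← hψ, ← hψ, hab]
  have hrp : IsRelPrime (oneVar k0 i p) (oneVar k0 i q) := by
    intro d hdp hdq
    have h1 : (oneVar k0 i).symm d ∣ p := by
      have := map_dvd (oneVar k0 i).symm hdp
      rwa [AlgEquiv.symm_apply_apply] at this
    have h2 : (oneVar k0 i).symm d ∣ q := by
      have := map_dvd (oneVar k0 i).symm hdq
      rwa [AlgEquiv.symm_apply_apply] at this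
    have h3 := (hpq h1 h2).map (oneVar k0 i)
    rwa [AlgEquiv.apply_symm_apply] at h3
  have hco := isCoprime_map ψ hψi hrp
  obtain ⟨t, ht⟩ : ∃ t : L, (t : K) = y i := ⟨⟨y i, hL⟩, rfl⟩
  have htt : Transcendental κ t := by
    have h1 := Pool.Agent.TH145.MF.transcendental_of_notMem hac hown
    rw [← ht] at h1
    intro h2
    exact h1 h2.algebraMap
  have hev : ∀ p : MvPolynomial ι k0,
      ((Polynomial.aeval t ((oneVar k0 i p).map ψ) : L) : K) = aeval y p := by
    intro p
    rw [← oneVar_eval i y ψ hψ p, ← ht]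
    exact (Polynomial.aeval_algebraMap_apply K t _).symm
  have h1 : c = Polynomial.aeval t ((oneVar k0 i p).map ψ) /
      Polynomial.aeval t ((oneVar k0 i q).map ψ) := by
    apply Subtype.ext
    rw [hc, ← hev p, ← hev q]
    rfl
  have h2 : ∀ r : MvPolynomial ι k0, r ≠ 0 → (oneVar k0 i r).map ψ ≠ 0 := by
    intro r hr
    rw [Ne, Polynomial.map_eq_zero_iff hψi]
    exact (map_ne_zero_iff _ (oneVar k0 i).injective).2 hr
  have h3 : ∀ r : MvPolynomial ι k0, ((oneVar k0 i r).map ψ).natDegree = r.degreeOf i := by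
    intro r
    rw [Polynomial.natDegree_map_eq_of_injective hψi, oneVar_deg]
  rw [h1, ← h3 p, ← h3 q]
  exact ⟨coprime_hgt' htt hco (h2 p hp) (h2 q hq), coprime_hgt htt hco (h2 p hp) (h2 q hq)⟩

/-- Sequences of polynomials of bounded degree. -/
theorem poly_mem [Finite ι] (y : ι → K) (B : ℕ) (p : ℕ → MvPolynomial ι k0)
    (hp : ∀ m i, (p m).degreeOf i ≤ B) : Om.mk (fun m => aeval y (p m)) ∈
      Subring.closure (Set.range (mapOm k0 K) ∪ cst K '' Set.range y) := by
  classical
  have := Fintype.ofFinite ι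
  obtain ⟨b, hb⟩ : ∃ b : ι →₀ ℕ, ∀ i, b i = B :=
    ⟨Finsupp.equivFunOnFinite.symm fun _ => B, fun i => rfl⟩
  have h1 : ∀ m, aeval y (p m) = ∑ u ∈ Finset.Icc 0 b,
      algebraMap k0 K ((p m).coeff u) * ∏ i, y i ^ u i := by
    intro m
    rw [aeval_def, eval₂_eq']
    refine Finset.sum_subset ?_ ?_
    · intro u hu
      rw [Finset.mem_Icc]
      refine ⟨zero_le, fun i => ?_⟩
      rw [hb]
      exact (monomial_le_degreeOf i hu).trans (hp m i)
    · intro u _ hu
      rw [notMem_support_iff.1 hu, map_zero, zero_mul]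
  have h2 : (fun m => aeval y (p m)) = fun m => ∑ u ∈ Finset.Icc 0 b,
      algebraMap k0 K ((p m).coeff u) * ∏ i, y i ^ u i := funext h1
  rw [h2, Pool.Agent.W61.RG.GSP.mk_sum (Finset.Icc 0 b)
    (fun u m => algebraMap k0 K ((p m).coeff u) * ∏ i, y i ^ u i)]
  refine sum_mem fun u _ => ?_
  rw [← Om.mk_mul]
  refine mul_mem (Subring.subset_closure (Or.inl ⟨Om.mk fun m => (p m).coeff u, rfl⟩)) ?_
  have h3 : (Om.mk fun _ : ℕ => ∏ i, y i ^ u i) = ∏ i, cst K (y i) ^ u i := by
    rw [← cst_apply, map_prod]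
    exact Finset.prod_congr rfl fun i _ => map_pow _ _ _
  rw [h3]
  refine prod_mem fun i _ => ?_
  refine pow_mem ?_ _
  exact Subring.subset_closure (Or.inr ⟨y i, ⟨i, rfl⟩, rfl⟩)

end Pool.Agent.TH145.GH
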