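import Pool.Agent.TH145.GH.MainA

/-!
Forms whose coefficients have algebraically independent ratios.
-/

set_option autoImplicit false

open MvPolynomial Pool.Agent.W602.GT LinearAlgebra.Projectivization

namespace Pool.Agent.TH145.GH

/-- A larger algebraically closed field. -/
theorem exists_big (K : Type) [Field K] [CharZero K] :
    ∃ (K' : Type) (_ : Field K') (_ : Algebra K K'), IsAlgClosed K' ∧ CharZero K' ∧
      ∃ t : K', Transcendental K t := by
  refine ⟨AlgebraicClosure (RatFunc K), inferInstance, inferInstance, inferInstance,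
    charZero_of_injective_algebraMap (algebraMap (RatFunc K) _).injective,
    algebraMap (RatFunc K) _ RatFunc.X, ?_⟩
  exact (transcendental_algebraMap_iff (algebraMap (RatFunc K) _).injective).2
    RatFunc.transcendental_X

/-- The coefficients of the scaled form are independent. -/
theorem indep_scale {k0 K K' : Type} [Field k0] [Field K] [Field K'] [Algebra k0 K] [Algebra K K']
    [Algebra k0 K'] [IsScalarTower k0 K K'] [IsAlgClosed K] {α : Type} [Finite α] (a : α → K)
    (i0 : α) (h0 : a i0 ≠ 0)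
    (hind : AlgebraicIndependent k0 fun i : {i // i ≠ i0} => a i.1 / a i0) {t : K'}
    (ht : Transcendental K t) :
    AlgebraicIndependent k0 fun i => t / algebraMap K K' (a i0) * algebraMap K K' (a i) := by
  classical
  obtain ⟨r, hr⟩ : ∃ r : {i // i ≠ i0} → K', r = fun i => algebraMap K K' (a i.1 / a i0) :=
    ⟨_, rfl⟩
  have hr1 : AlgebraicIndependent k0 r := by
    have h1 := hind.map' (f := IsScalarTower.toAlgHom k0 K K') (algebraMap K K').injective
    rw [hr]
    exact h1
  have ht1 : Transcendental (Algebra.adjoin k0 (Set.range r)) t := by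
    rw [← IntermediateField.transcendental_adjoin_iff]
    intro h2
    have h3 : IsAlgebraic (IntermediateField.adjoin k0 (Set.range r)).toSubfield t := h2
    have hC : IsAlgClosed (algebraMap K K').fieldRange :=
      IsAlgClosed.of_ringEquiv K _ (RingHom.rangeRestrictFieldEquiv (algebraMap K K'))
    have htC : t ∉ (algebraMap K K').fieldRange := by
      rintro ⟨c, rfl⟩
      exact ht (isAlgebraic_algebraMap c)
    refine Pool.Agent.TH145.MF.transcendental_of_notMem hC htC
      (Pool.Agent.TH145.MF.alg_mono ?_ h3)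
    rw [IntermediateField.adjoin_toSubfield, Subfield.closure_le]
    rintro z (⟨c, rfl⟩ | ⟨i, rfl⟩)
    · exact ⟨algebraMap k0 K c, (IsScalarTower.algebraMap_apply k0 K K' c).symm⟩
    · rw [hr]
      exact ⟨_, rfl⟩
  have h2 := AlgebraicIndependent.option_iff.2 ⟨hr1, ht1⟩
  obtain ⟨e, he⟩ : ∃ e : α → Option {i // i ≠ i0}, ∀ i, e i = if h : i ≠ i0 then some ⟨i, h⟩
    else none := ⟨_, fun _ => rfl⟩
  have hei : Function.Injective e := by
    intro i j hij
    rw [he, he] at hij
    by_cases hi : i = i0 <;> by_cases hj : j = i0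
    · rw [hi, hj]
    · rw [dif_neg (by rw [not_not]; exact hi), dif_pos hj] at hij
      exact absurd hij (by simp)
    · rw [dif_pos hi, dif_neg (by rw [not_not]; exact hj)] at hij
      exact absurd hij (by simp)
    · rw [dif_pos hi, dif_pos hj, Option.some_inj] at hij
      exact congrArg Subtype.val hij
  have h3 := h2.comp e hei
  have h4 : algebraMap K K' (a i0) ≠ 0 := by
    rw [Ne, map_eq_zero]; exact h0
  have hti : t / algebraMap K K' (a i0) * algebraMap K K' (a i0) = t := div_mul_cancel₀ _ h4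
  have htm : t ∈ Pool.Agent.TH145.MG.cl k0 (Set.range fun i =>
      t / algebraMap K K' (a i0) * algebraMap K K' (a i)) :=
    Pool.Agent.TH145.MG.subset_cl ⟨i0, hti⟩
  have ht0 : t ≠ 0 := by
    rintro rfl
    exact ht (by
      have := isAlgebraic_algebraMap (R := K) (A := K') 0
      rwa [map_zero] at this)
  refine Pool.Agent.TH145.MG.indep_of_mem _ _ h3 fun i => ?_
  rw [Function.comp_apply, he]
  by_cases hi : i = i0
  · rw [dif_neg (by rw [not_not]; exact hi)]
    exact htm
  · rw [dif_pos hi]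
    have h5 : r ⟨i, hi⟩ = (t / algebraMap K K' (a i0) * algebraMap K K' (a i)) / t := by
      rw [hr]
      dsimp only
      rw [map_div₀]
      field_simp
    change r ⟨i, hi⟩ ∈ _
    rw [h5]
    exact div_mem (Pool.Agent.TH145.MG.subset_cl ⟨i, rfl⟩) htm

theorem fin_points' {k0 K : Type} [Field k0] [Field K] [Algebra k0 K] [IsAlgClosed K] [CharZero K]
    [IsAlgClosed k0] {n d : ℕ} (hd : 2 * n + 1 ≤ d) {F : MvPolynomial (Fin (n + 1)) K}
    (hF : F.IsHomogeneous d) (I0 : Fin (n + 1) →₀ ℕ) (h0 : F.coeff I0 ≠ 0)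
    (hind : AlgebraicIndependent k0 fun I : {I : Fin (n + 1) →₀ ℕ // I.degree = d ∧ I ≠ I0} =>
      F.coeff I.1 / F.coeff I0)
    (T : Finset K) (l0 : Fin (n + 1)) :
    {x : Fin (n + 1) → K | (∀ j, x j ∈ IntermediateField.adjoin k0 (T : Set K)) ∧ x l0 = 1 ∧
      eval x F = 0}.Finite := by
  classical
  obtain ⟨K', _, _, hK', hc, t, ht⟩ := exists_big K
  let _ : Algebra k0 K' := ((algebraMap K K').comp (algebraMap k0 K)).toAlgebra
  have hst : IsScalarTower k0 K K' := IsScalarTower.of_algebraMap_eq fun _ => rfl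
  have hI0 : I0.degree = d := deg_of_mem hF (mem_support_iff.2 h0)
  have := finite_deg n d
  obtain ⟨e, he⟩ : ∃ e : {i : {I : Fin (n + 1) →₀ ℕ // I.degree = d} // i ≠ ⟨I0, hI0⟩} →
      {I : Fin (n + 1) →₀ ℕ // I.degree = d ∧ I ≠ I0}, ∀ i, (e i).1 = i.1.1 :=
    ⟨fun i => ⟨i.1.1, i.1.2, fun h => i.2 (Subtype.ext h)⟩, fun _ => rfl⟩
  have hei : Function.Injective e := by
    intro i j hij
    have h1 := congrArg Subtype.val hij
    rw [he, he] at h1
    exact Subtype.ext (Subtype.ext h1)
  have hi1 := hind.comp e hei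
  have hi2 : (fun i : {i : {I : Fin (n + 1) →₀ ℕ // I.degree = d} // i ≠ ⟨I0, hI0⟩} =>
      F.coeff i.1.1 / F.coeff I0) = (fun I : {I : Fin (n + 1) →₀ ℕ // I.degree = d ∧ I ≠ I0} =>
      F.coeff I.1 / F.coeff I0) ∘ e := by
    funext i
    rw [Function.comp_apply, he]
  rw [← hi2] at hi1
  have h1 := indep_scale (k0 := k0) (K' := K')
    (fun I : {I : Fin (n + 1) →₀ ℕ // I.degree = d} => F.coeff I.1) ⟨I0, hI0⟩ h0 hi1 ht
  have h2 : (C (t / algebraMap K K' (F.coeff I0)) * map (algebraMap K K') F).IsHomogeneous d := by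
    have := (isHomogeneous_C (Fin (n + 1)) (t / algebraMap K K' (F.coeff I0))).mul
      (hF.map (algebraMap K K'))
    rwa [zero_add] at this
  have h4 : (fun I : {I : Fin (n + 1) →₀ ℕ // I.degree = d} =>
      (C (t / algebraMap K K' (F.coeff I0)) * map (algebraMap K K') F).coeff I.1) =
      fun I => t / algebraMap K K' (F.coeff I0) * algebraMap K K' (F.coeff I.1) := by
    funext I
    rw [coeff_C_mul, coeff_map]
  have h5 : AlgebraicIndependent k0 (fun I : {I : Fin (n + 1) →₀ ℕ // I.degree = d} =>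
      (C (t / algebraMap K K' (F.coeff I0)) * map (algebraMap K K') F).coeff I.1) := by
    rw [h4]
    exact h1
  have h3 := fin_points (k0 := k0) hd h2 h5 (T.image (algebraMap K K')) l0
  refine Set.Finite.of_finite_image (f := fun x j => algebraMap K K' (x j)) (h3.subset ?_) ?_
  · rintro _ ⟨x, ⟨hx, hxl, hxF⟩, rfl⟩
    refine ⟨fun j => ?_, ?_, ?_⟩
    · have h4 : (IntermediateField.adjoin k0 (T : Set K)).map (IsScalarTower.toAlgHom k0 K K') =
          IntermediateField.adjoin k0 ((T.image (algebraMap K K') : Finset K') : Set K') := by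
        rw [IntermediateField.adjoin_map, Finset.coe_image]
        rfl
      rw [← h4]
      exact ⟨x j, hx j, rfl⟩
    · dsimp only
      rw [hxl, map_one]
    · rw [map_mul, eval_map]
      have h5 := eval₂_comp_left (algebraMap K K') (RingHom.id K) x F
      rw [RingHom.comp_id] at h5
      have h6 : eval₂ (RingHom.id K) x F = 0 := hxF
      rw [h6, map_zero] at h5
      change _ * eval₂ (algebraMap K K') (algebraMap K K' ∘ x) F = 0
      rw [← h5, mul_zero]
  · intro x _ x' _ hxx
    funext j
    exact (algebraMap K K').injective (congrFun hxx j)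

/-- Generic hypersurfaces: finiteness of rational points over the fields generated by finite sets
over the algebraic closure of `k`. -/
theorem fin_generic {k K : Type} [Field k] [Field K] [IsAlgClosed K] [CharZero K] [Algebra k K]
    {n d : ℕ} (hd : 2 * n + 1 ≤ d) (F : MvPolynomial (Fin (n + 1)) K) (hF : F.IsHomogeneous d)
    (I0 : Fin (n + 1) →₀ ℕ) (h0 : F.coeff I0 ≠ 0)
    (hind : AlgebraicIndependent k fun I : {I : Fin (n + 1) →₀ ℕ // I.degree = d ∧ I ≠ I0} =>
      F.coeff I.1 / F.coeff I0)
    {ι : Type} (G : ι → MvPolynomial (Fin (n + 1)) K) (hG : ∃ i, G i = F) (T : Finset K) :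
    {p : ℙ K (Fin (n + 1) → K) | ∃ x ∈ Cone G,
      (∀ i, x i ∈ IntermediateField.adjoin (algebraicClosure k K) (T : Set K)) ∧
      ∃ hx : x ≠ 0, p = Projectivization.mk K x hx}.Finite := by
  have hac : IsAlgClosed (algebraicClosure k K) := (algebraicClosure.isAlgClosure k K).isAlgClosed
  obtain ⟨i, hi⟩ := hG
  have h1 := proj_finite (IntermediateField.adjoin (algebraicClosure k K) (T : Set K)).toSubfield
    {x | eval x F = 0} (fun x hx a ha => by
      change eval (a • x) F = 0
      rw [eval_smul_hom hF, show eval x F = 0 from hx, mul_zero]) fun l0 =>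
      fin_points' hd hF I0 h0 hind.algebraicClosure T l0
  refine h1.subset ?_
  rintro p ⟨x, hxC, hxT, hx, hp⟩
  refine ⟨x, ?_, hxT, hx, hp⟩
  have h2 := hxC.2 i
  rw [hi] at h2
  unfold Pool.Agent.W602.GT.val at h2
  rwa [aeval_eq_eval] at h2

theorem mordellic_generic {k K : Type} [Field k] [Field K] [IsAlgClosed K] [CharZero K]
    [Algebra k K] {n d : ℕ} (hd : 2 * n + 1 ≤ d) (F : MvPolynomial (Fin (n + 1)) K)
    (hF : F.IsHomogeneous d) (I0 : Fin (n + 1) →₀ ℕ) (h0 : F.coeff I0 ≠ 0)
    (hind : AlgebraicIndependent k fun I : {I : Fin (n + 1) →₀ ℕ // I.degree = d ∧ I ≠ I0} =>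
      F.coeff I.1 / F.coeff I0)
    {ι : Type} (G : ι → MvPolynomial (Fin (n + 1)) K) (hG : ∃ i, G i = F) : Mordellic G := by
  refine ⟨∅, fun T _ => (fin_generic hd F hF I0 h0 hind G hG T).subset ?_⟩
  rintro p ⟨x, hxC, hxT, hx, hp⟩
  refine ⟨x, hxC, fun i => ?_, hx, hp⟩
  have h1 : Subfield.closure (T : Set K) ≤
      (IntermediateField.adjoin (algebraicClosure k K) (T : Set K)).toSubfield := by
    rw [Subfield.closure_le]
    exact IntermediateField.subset_adjoin _ _
  exact h1 (hxT i)

end Pool.Agent.TH145.GH
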