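import Mathlib

/-!
Vector fields tangent to a hypersurface of degree `d` whose coefficients are independent variables.
-/

set_option autoImplicit false

open MvPolynomial

namespace Pool.Agent.TH145.GH

variable {K : Type} [Field K] {n : ℕ}

/-- The value of a monomial. -/
noncomputable def mon (x : Fin (n + 1) → K) (u : Fin (n + 1) →₀ ℕ) : K := ∏ i, x i ^ u i

theorem mon_add (x : Fin (n + 1) → K) (u v : Fin (n + 1) →₀ ℕ) :
    mon x (u + v) = mon x u * mon x v := by
  unfold mon
  rw [← Finset.prod_mul_distrib]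
  exact Finset.prod_congr rfl fun i _ => by rw [Finsupp.add_apply, pow_add]

theorem mon_single (x : Fin (n + 1) → K) (i : Fin (n + 1)) (m : ℕ) :
    mon x (Finsupp.single i m) = x i ^ m := by
  classical
  unfold mon
  rw [Finset.prod_eq_single i]
  · rw [Finsupp.single_eq_same]
  · intro j _ hj
    rw [Finsupp.single_eq_of_ne hj, pow_zero]
  · intro h; exact absurd (Finset.mem_univ i) h

theorem eval_mon (x : Fin (n + 1) → K) (p : MvPolynomial (Fin (n + 1)) K) :
    eval x p = ∑ u ∈ p.support, p.coeff u * mon x u := eval_eq' x p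

theorem eval_monomial' (x : Fin (n + 1) → K) (u : Fin (n + 1) →₀ ℕ) (a : K) :
    eval x (monomial u a) = a * mon x u := by
  rw [eval_monomial]
  congr 1
  rw [Finsupp.prod_fintype]
  · rfl
  · intro i; rw [pow_zero]

theorem deg_of_mem {p : MvPolynomial (Fin (n + 1)) K} {m : ℕ} (hp : p.IsHomogeneous m)
    {u : Fin (n + 1) →₀ ℕ} (hu : u ∈ p.support) : u.degree = m := by
  have h2 := hp (mem_support_iff.1 hu)
  rw [Finsupp.weight_apply, Finsupp.sum_fintype] at h2
  · rw [Finsupp.degree_eq_sum, ← h2]
    simp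
  · intro i; simp

/-- The chain rule. -/
theorem chainM (D : Derivation ℤ K K) (x : Fin (n + 1) → K) (p : MvPolynomial (Fin (n + 1)) K) :
    D (eval x p) = (∑ u ∈ p.support, D (p.coeff u) * mon x u) +
      ∑ l, eval x (pderiv l p) * D (x l) := by
  classical
  obtain ⟨Φ, hΦ⟩ : ∃ Φ : MvPolynomial (Fin (n + 1)) K → K, ∀ p,
    Φ p = D (eval x p) - ∑ l, eval x (pderiv l p) * D (x l) := ⟨_, fun _ => rfl⟩
  have hmul : ∀ p q, Φ (p * q) = eval x p * Φ q + eval x q * Φ p := by
    intro p q
    rw [hΦ, hΦ, hΦ, map_mul, D.leibniz]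
    have h1 : ∑ l, eval x (pderiv l (p * q)) * D (x l) =
        eval x p * (∑ l, eval x (pderiv l q) * D (x l)) +
          eval x q * ∑ l, eval x (pderiv l p) * D (x l) := by
      rw [Finset.mul_sum, Finset.mul_sum, ← Finset.sum_add_distrib]
      refine Finset.sum_congr rfl fun l _ => ?_
      rw [pderiv_mul, map_add, map_mul, map_mul]
      ring
    rw [h1]
    simp only [smul_eq_mul]
    ring
  have hsum : ∀ (s : Finset (Fin (n + 1) →₀ ℕ)) (f : (Fin (n + 1) →₀ ℕ) →
      MvPolynomial (Fin (n + 1)) K), Φ (∑ i ∈ s, f i) = ∑ i ∈ s, Φ (f i) := by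
    intro s f
    rw [hΦ, map_sum, map_sum]
    have h1 : ∑ l, eval x (pderiv l (∑ i ∈ s, f i)) * D (x l) =
        ∑ i ∈ s, ∑ l, eval x (pderiv l (f i)) * D (x l) := by
      rw [Finset.sum_comm]
      refine Finset.sum_congr rfl fun l _ => ?_
      rw [map_sum, map_sum, Finset.sum_mul]
    rw [h1, ← Finset.sum_sub_distrib]
    exact Finset.sum_congr rfl fun i _ => (hΦ _).symm
  have h1 : Φ 1 = 0 := by
    rw [hΦ, map_one, D.map_one_eq_zero]
    simp
  have hX : ∀ i, Φ (X i) = 0 := by
    intro i
    rw [hΦ, eval_X]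
    rw [Finset.sum_eq_single i]
    · rw [pderiv_X_self, map_one, one_mul, sub_self]
    · intro j _ hj
      rw [pderiv_X_of_ne hj.symm, map_zero, zero_mul]
    · intro h; exact absurd (Finset.mem_univ i) h
  have hXp : ∀ i (m : ℕ), Φ (X i ^ m) = 0 := by
    intro i m
    induction m with
    | zero => rw [pow_zero, h1]
    | succ m ih => rw [pow_succ, hmul, ih, hX, mul_zero, mul_zero, add_zero]
  have hmon : ∀ u : Fin (n + 1) →₀ ℕ, Φ (monomial u 1) = 0 := by
    intro u
    induction u using Finsupp.induction_linear with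
    | zero => exact h1
    | add u v hu hv =>
      have : (monomial (u + v) (1 : K)) = monomial u 1 * monomial v 1 := by
        rw [monomial_mul, one_mul]
      rw [this, hmul, hu, hv, mul_zero, mul_zero, add_zero]
    | single i m =>
      have : (monomial (Finsupp.single i m) (1 : K)) = X i ^ m := (X_pow_eq_monomial).symm
      rw [this, hXp]
  have hC : ∀ a : K, Φ (C a) = D a := by
    intro a
    rw [hΦ, eval_C]
    simp
  have hp : Φ p = ∑ u ∈ p.support, D (p.coeff u) * mon x u := by
    conv_lhs => rw [p.as_sum]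
    rw [hsum]
    refine Finset.sum_congr rfl fun u _ => ?_
    have : (monomial u (p.coeff u)) = C (p.coeff u) * monomial u 1 := by
      rw [C_mul_monomial, mul_one]
    rw [this, hmul, hmon, mul_zero, zero_add, hC, eval_monomial', one_mul]
    ring
  rw [← hp, hΦ]
  ring

/-- The indices of the vector fields. -/
abbrev Gi (n : ℕ) := Option ((Fin (n + 1) × Fin (n + 1)) ⊕
  ((Fin (n + 1) →₀ ℕ) × Fin (n + 1) × Fin (n + 1)))

/-- The vector fields: the position vector, and vectors that are tangent to the hypersurface `F`. -/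
noncomputable def gx (F : MvPolynomial (Fin (n + 1)) K) (d : ℕ)
    (D : (Fin (n + 1) →₀ ℕ) → Derivation ℤ K K) (x : Fin (n + 1) → K) : Gi n → Fin (n + 1) → K
  | none => x
  | some (Sum.inl pq) => fun l => x pq.2 * (Pi.single pq.1 1 : Fin (n + 1) → K) l +
      ∑ J ∈ (X pq.2 * pderiv pq.1 F).support, (X pq.2 * pderiv pq.1 F).coeff J * D J (x l)
  | some (Sum.inr M) => fun l => if M.1.degree + 1 = d then
      x M.2.2 * D (M.1 + Finsupp.single M.2.1 1) (x l) -
        x M.2.1 * D (M.1 + Finsupp.single M.2.2 1) (x l) else 0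

/-- The degrees of the vector fields. -/
def gd {n : ℕ} : Gi n → ℕ
  | none => 1
  | some (Sum.inl _) => 1
  | some (Sum.inr _) => 2

theorem gd_le (a : Gi n) : gd a ≤ 2 := by
  rcases a with _ | _ | _ <;> simp [gd]

theorem gx_scale (F : MvPolynomial (Fin (n + 1)) K) (d : ℕ)
    (D : (Fin (n + 1) →₀ ℕ) → Derivation ℤ K K) (x : Fin (n + 1) → K) (lam : K) :
    ∃ s : Gi n → K, s none = 0 ∧ ∀ a, gx F d D (lam • x) a =
      lam ^ gd a • gx F d D x a + s a • x := by
  refine ⟨fun a => match a with
    | none => 0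
    | some (Sum.inl pq) => ∑ J ∈ (X pq.2 * pderiv pq.1 F).support,
        (X pq.2 * pderiv pq.1 F).coeff J * D J lam
    | some (Sum.inr M) => if M.1.degree + 1 = d then
      lam * (x M.2.2 * D (M.1 + Finsupp.single M.2.1 1) lam -
        x M.2.1 * D (M.1 + Finsupp.single M.2.2 1) lam) else 0, rfl, ?_⟩
  intro a
  rcases a with _ | pq | M
  · simp [gx, gd]
  · funext l
    simp only [gx, gd, pow_one, Pi.add_apply, Pi.smul_apply, smul_eq_mul]
    have h1 : ∀ J, D J (lam * x l) = lam * D J (x l) + x l * D J lam := by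
      intro J
      rw [(D J).leibniz]; simp
    simp only [h1, mul_add, Finset.sum_add_distrib]
    have h2 : ∀ f : (Fin (n + 1) →₀ ℕ) → K, ∀ s : Finset (Fin (n + 1) →₀ ℕ),
        ∑ J ∈ s, coeff J (X pq.2 * pderiv pq.1 F) * (lam * f J) =
          lam * ∑ J ∈ s, coeff J (X pq.2 * pderiv pq.1 F) * f J := by
      intro f s
      rw [Finset.mul_sum]
      exact Finset.sum_congr rfl fun J _ => by ring
    have h3 : ∀ f : (Fin (n + 1) →₀ ℕ) → K, ∀ s : Finset (Fin (n + 1) →₀ ℕ),
        ∑ J ∈ s, coeff J (X pq.2 * pderiv pq.1 F) * (x l * f J) =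
          (∑ J ∈ s, coeff J (X pq.2 * pderiv pq.1 F) * f J) * x l := by
      intro f s
      rw [Finset.sum_mul]
      exact Finset.sum_congr rfl fun J _ => by ring
    rw [h2, h3]
    ring
  · funext l
    simp only [gx, gd, Pi.add_apply, Pi.smul_apply, smul_eq_mul]
    have h1 : ∀ J, D J (lam * x l) = lam * D J (x l) + x l * D J lam := by
      intro J
      rw [(D J).leibniz]; simp
    split_ifs
    · rw [h1, h1]; ring
    · simp

/-- The differential of `F` at `x`. -/
noncomputable def dF (F : MvPolynomial (Fin (n + 1)) K) (x z : Fin (n + 1) → K) : K :=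
  ∑ l, eval x (pderiv l F) * z l

theorem dF_add (F : MvPolynomial (Fin (n + 1)) K) (x y z : Fin (n + 1) → K) :
    dF F x (y + z) = dF F x y + dF F x z := by
  unfold dF
  rw [← Finset.sum_add_distrib]
  exact Finset.sum_congr rfl fun l _ => by rw [Pi.add_apply]; ring

theorem dF_smul (F : MvPolynomial (Fin (n + 1)) K) (x z : Fin (n + 1) → K) (a : K) :
    dF F x (a • z) = a * dF F x z := by
  unfold dF
  rw [Finset.mul_sum]
  exact Finset.sum_congr rfl fun l _ => by rw [Pi.smul_apply, smul_eq_mul]; ring

theorem dF_single (F : MvPolynomial (Fin (n + 1)) K) (x : Fin (n + 1) → K) (p : Fin (n + 1))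
    (a : K) : dF F x (fun l => a * (Pi.single p 1 : Fin (n + 1) → K) l) =
      a * eval x (pderiv p F) := by
  unfold dF
  rw [Finset.sum_eq_single p]
  · dsimp only
    rw [Pi.single_eq_same]; ring
  · intro j _ hj
    dsimp only
    rw [Pi.single_eq_of_ne hj]; ring
  · intro h; exact absurd (Finset.mem_univ p) h

/-- The derivations `D_I` have the values of the derivatives with respect to the coefficients of
`F`. -/
def Dual (F : MvPolynomial (Fin (n + 1)) K) (d : ℕ)
    (D : (Fin (n + 1) →₀ ℕ) → Derivation ℤ K K) : Prop :=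
  ∀ I J : Fin (n + 1) →₀ ℕ, I.degree = d → J.degree = d →
    (I = J → D I (F.coeff J) = 1) ∧ (I ≠ J → D I (F.coeff J) = 0)

theorem dF_D {F : MvPolynomial (Fin (n + 1)) K} {d : ℕ}
    {D : (Fin (n + 1) →₀ ℕ) → Derivation ℤ K K} (hF : F.IsHomogeneous d) (hD : Dual F d D)
    (x : Fin (n + 1) → K) {I : Fin (n + 1) →₀ ℕ} (hI : I.degree = d) :
    dF F x (fun l => D I (x l)) = D I (eval x F) - mon x I := by
  have h1 := chainM (D I) x F
  have h2 : ∑ u ∈ F.support, D I (F.coeff u) * mon x u = mon x I := by
    have hs : ∀ u ∈ F.support, u.degree = d := fun u hu => deg_of_mem hF hu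
    rw [Finset.sum_eq_single I]
    · rw [(hD I I hI hI).1 rfl, one_mul]
    · intro u hu hne
      rw [(hD I u hI (hs u hu)).2 hne.symm, zero_mul]
    · intro h
      exfalso
      have := (hD I I hI hI).1 rfl
      rw [notMem_support_iff.1 h, map_zero] at this
      exact zero_ne_one this
  rw [h2] at h1
  unfold dF
  rw [h1]
  ring

/-- The vector fields, and the vectors of the space modulo the vector fields. -/
theorem span_gx {F : MvPolynomial (Fin (n + 1)) K} {d : ℕ} (hd : 0 < d)
    {D : (Fin (n + 1) →₀ ℕ) → Derivation ℤ K K} (hF : F.IsHomogeneous d)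
    (x : Fin (n + 1) → K) (e : Fin (n + 1)) (he : x e ≠ 0) (z : Fin (n + 1) → K) :
    z + (dF F x z / x e ^ d) • (fun l => D (Finsupp.single e d) (x l)) ∈
      Submodule.span K (Set.range (gx F d D x)) := by
  classical
  obtain ⟨W, hW⟩ : ∃ W, W = Submodule.span K (Set.range (gx F d D x)) := ⟨_, rfl⟩
  obtain ⟨E, hE⟩ : ∃ E : (Fin (n + 1) →₀ ℕ) → Fin (n + 1) → K, ∀ I, E I = fun l => D I (x l) :=
    ⟨_, fun _ => rfl⟩
  have hgW : ∀ a, gx F d D x a ∈ W := fun a => hW ▸ Submodule.subset_span ⟨a, rfl⟩
  rw [← hE, ← hW]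
  -- the derivatives
  have h1 : ∀ (N : ℕ) (J : Fin (n + 1) →₀ ℕ), J.degree = d → J.degree - J e = N →
      E J - (mon x J / x e ^ d) • E (Finsupp.single e d) ∈ W := by
    intro N
    induction N with
    | zero =>
      intro J hJ hN
      have h2 : J = Finsupp.single e d := by
        have h3 : ∑ i, J i = d := by rw [← hJ, Finsupp.degree_eq_sum]
        have h4 : J e = d := by
          have h5 := Finset.single_le_sum (f := fun i => J i) (fun _ _ => Nat.zero_le _)
            (Finset.mem_univ e)
          omega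
        ext i
        by_cases hi : i = e
        · rw [hi, Finsupp.single_eq_same, h4]
        · rw [Finsupp.single_eq_of_ne hi]
          have h5 := Finset.add_sum_erase Finset.univ (fun i => J i) (Finset.mem_univ e)
          have h6 := Finset.single_le_sum (f := fun i => J i) (fun _ _ => Nat.zero_le _)
            (Finset.mem_erase.2 ⟨hi, Finset.mem_univ i⟩)
          omega
      rw [h2, mon_single, div_self (pow_ne_zero _ he), one_smul, sub_self]
      exact zero_mem _
    | succ N ih =>
      intro J hJ hN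
      obtain ⟨i, hi, hJi⟩ : ∃ i, i ≠ e ∧ J i ≠ 0 := by
        by_contra hcon
        push Not at hcon
        have h3 : ∑ i, J i = J e := by
          rw [Finset.sum_eq_single e]
          · intro j _ hj; exact hcon j hj
          · intro h; exact absurd (Finset.mem_univ e) h
        rw [Finsupp.degree_eq_sum] at hN
        omega
      obtain ⟨M, hM⟩ : ∃ M : Fin (n + 1) →₀ ℕ, J = M + Finsupp.single i 1 :=
        ⟨J - Finsupp.single i 1, by
          rw [tsub_add_cancel_of_le]
          rw [Finsupp.single_le_iff]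
          omega⟩
      have hMd : M.degree + 1 = d := by
        rw [← hJ, hM, map_add, Finsupp.degree_single]
      have h2 := hgW (some (Sum.inr (M, i, e)))
      have h3 : gx F d D x (some (Sum.inr (M, i, e))) =
          x e • E (M + Finsupp.single i 1) - x i • E (M + Finsupp.single e 1) := by
        funext l
        simp only [gx, if_pos hMd, hE, Pi.sub_apply, Pi.smul_apply, smul_eq_mul]
      rw [h3] at h2
      have h4 := ih (M + Finsupp.single e 1) (by rw [map_add, Finsupp.degree_single, hMd]) (by
        have h5 : J e = M e := by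
          rw [hM, Finsupp.add_apply, Finsupp.single_eq_of_ne hi.symm, add_zero]
        rw [map_add, Finsupp.degree_single, hMd, Finsupp.add_apply, Finsupp.single_eq_same]
        omega)
      have h5 : E J - (mon x J / x e ^ d) • E (Finsupp.single e d) =
          (x e)⁻¹ • (x e • E (M + Finsupp.single i 1) - x i • E (M + Finsupp.single e 1)) +
          (x i / x e) • (E (M + Finsupp.single e 1) -
            (mon x (M + Finsupp.single e 1) / x e ^ d) • E (Finsupp.single e d)) := by
        rw [hM, mon_add, mon_add, mon_single, mon_single, pow_one, pow_one]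
        funext l
        simp only [Pi.add_apply, Pi.sub_apply, Pi.smul_apply, smul_eq_mul]
        field_simp
        ring
      rw [h5]
      exact add_mem (Submodule.smul_mem _ _ h2) (Submodule.smul_mem _ _ h4)
  -- the standard basis
  have h2 : ∀ p : Fin (n + 1), (Pi.single p 1 : Fin (n + 1) → K) +
      (eval x (pderiv p F) / x e ^ d) • E (Finsupp.single e d) ∈ W := by
    intro p
    obtain ⟨G, hG⟩ : ∃ G, G = X e * pderiv p F := ⟨_, rfl⟩
    have hGd : ∀ J ∈ G.support, J.degree = d := by
      intro J hJ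
      have h8 : G.IsHomogeneous (1 + (d - 1)) := by
        rw [hG]
        exact (isHomogeneous_X _ _).mul hF.pderiv
      have := deg_of_mem h8 hJ
      omega
    have h3 := hgW (some (Sum.inl (p, e)))
    have h4 : gx F d D x (some (Sum.inl (p, e))) =
        x e • (Pi.single p 1 : Fin (n + 1) → K) + ∑ J ∈ G.support, G.coeff J • E J := by
      funext l
      simp only [gx, hE, Pi.add_apply, Pi.smul_apply, smul_eq_mul, Finset.sum_apply, ← hG]
    rw [h4] at h3
    have h5 : ∑ J ∈ G.support, G.coeff J •
        (E J - (mon x J / x e ^ d) • E (Finsupp.single e d)) ∈ W :=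
      sum_mem fun J hJ => Submodule.smul_mem _ _ (h1 _ J (hGd J hJ) rfl)
    have h6 : ∑ J ∈ G.support, G.coeff J •
        (E J - (mon x J / x e ^ d) • E (Finsupp.single e d)) =
        (∑ J ∈ G.support, G.coeff J • E J) -
          (x e * eval x (pderiv p F) / x e ^ d) • E (Finsupp.single e d) := by
      have h7 : x e * eval x (pderiv p F) = eval x G := by
        rw [hG, map_mul, eval_X]
      rw [h7, eval_mon, Finset.sum_div, Finset.sum_smul, ← Finset.sum_sub_distrib]
      refine Finset.sum_congr rfl fun J _ => ?_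
      rw [smul_sub, smul_smul, mul_div_assoc]
    rw [h6] at h5
    have h7 : (Pi.single p 1 : Fin (n + 1) → K) +
        (eval x (pderiv p F) / x e ^ d) • E (Finsupp.single e d) =
        (x e)⁻¹ • ((x e • (Pi.single p 1 : Fin (n + 1) → K) + ∑ J ∈ G.support, G.coeff J • E J) -
          ((∑ J ∈ G.support, G.coeff J • E J) -
          (x e * eval x (pderiv p F) / x e ^ d) • E (Finsupp.single e d))) := by
      funext l
      simp only [Pi.add_apply, Pi.sub_apply, Pi.smul_apply, smul_eq_mul]
      field_simp
      ring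
    rw [h7]
    exact Submodule.smul_mem _ _ (sub_mem h3 h5)
  have h3 : z + (dF F x z / x e ^ d) • E (Finsupp.single e d) =
      ∑ p, z p • ((Pi.single p 1 : Fin (n + 1) → K) +
      (eval x (pderiv p F) / x e ^ d) • E (Finsupp.single e d)) := by
    have h4 : z = ∑ p, z p • (Pi.single p 1 : Fin (n + 1) → K) := by
      funext l
      rw [Finset.sum_apply, Finset.sum_eq_single l]
      · rw [Pi.smul_apply, Pi.single_eq_same, smul_eq_mul, mul_one]
      · intro j _ hj
        rw [Pi.smul_apply, Pi.single_eq_of_ne hj.symm, smul_zero]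
      · intro h; exact absurd (Finset.mem_univ l) h
    simp only [smul_add, Finset.sum_add_distrib, ← h4, smul_smul, ← Finset.sum_smul]
    congr 2
    unfold dF
    rw [Finset.sum_div]
    refine Finset.sum_congr rfl fun p _ => ?_
    ring
  rw [h3]
  exact sum_mem fun p _ => Submodule.smul_mem _ _ (h2 p)

end Pool.Agent.TH145.GH
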